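import Pool.Agent.L0h2.J.BAD3
import Pool.Agent.L0h2.J.BAD2
import Pool.Agent.Y388.CX.CNT

/-!
# Project J: few sets have degenerate labels; the counts for the class
-/

set_option autoImplicit false
set_option linter.unusedVariables false

open scoped Classical

namespace Pool.Agent.L0h2.J

open Finset
open Pool.Agent.Y703.CX (lam LamP sm la jj XX eL zz kk S_SIE c3)

lemma Cl_cx {S : Finset ℕ} (h : Cl S) : Pool.Agent.Y703.CX.Cl S := by
  refine ⟨fun p hp => ⟨(h.1 p hp).1, ?_⟩, h.2⟩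
  rintro rfl
  have := (h.1 3 hp).2
  omega

lemma SS_cx (X : ℕ) : SS X ⊆ Pool.Agent.Y703.CX.SS X := by
  intro S hS
  unfold SS at hS
  unfold Pool.Agent.Y703.CX.SS
  rw [mem_filter] at hS ⊢
  exact ⟨hS.1, Cl_cx hS.2.1, hS.2.2⟩

theorem t_BAD (hL : LamP) (hSIE : S_SIE) (hHA : S_HA) (hHQ : S_HQ) (hMER : S_MER) : S_BAD := by
  obtain ⟨C₁, X₁, h1⟩ := Pool.Agent.L0h2.B3.t_BAD3 hL hSIE hHA
  obtain ⟨C₂, X₂, h2⟩ := BAD2.t_BAD2 hSIE hHQ hMER
  refine ⟨C₁ + C₂, max X₁ X₂, fun X hX => ?_⟩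
  have e1 := h1 X ((le_max_left _ _).trans hX)
  have e2 := h2 X ((le_max_right _ _).trans hX)
  have h3 : ((SS X).filter fun S => S.card ≤ kk X ∧ ¬ Nd (sm (zz X) S) (la (zz X) S)) ⊆
      ((Pool.Agent.Y703.CX.SS X).filter fun S => S.card ≤ kk X ∧
        ¬ Pool.Agent.Y703.CX.Nd (sm (zz X) S) (la (zz X) S)) ∪
      ((SS X).filter fun S => S.card ≤ kk X ∧
        ¬ Pool.Agent.R413.SQ.Nd (sm (zz X) S) (la (zz X) S)) := by
    intro S hS
    rw [mem_filter] at hS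
    rw [mem_union, mem_filter, mem_filter]
    obtain ⟨hS, hc, hn⟩ := hS
    unfold Nd at hn
    rw [not_and_or] at hn
    rcases hn with hn | hn
    · exact Or.inl ⟨SS_cx X hS, hc, hn⟩
    · exact Or.inr ⟨hS, hc, hn⟩
  have h4 : (((SS X).filter fun S => S.card ≤ kk X ∧ ¬ Nd (sm (zz X) S) (la (zz X) S)).card : ℝ) ≤
      (((Pool.Agent.Y703.CX.SS X).filter fun S => S.card ≤ kk X ∧
        ¬ Pool.Agent.Y703.CX.Nd (sm (zz X) S) (la (zz X) S)).card : ℝ) +
      (((SS X).filter fun S => S.card ≤ kk X ∧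
        ¬ Pool.Agent.R413.SQ.Nd (sm (zz X) S) (la (zz X) S)).card : ℝ) := by
    exact_mod_cast (card_le_card h3).trans (card_union_le _ _)
  refine h4.trans ((add_le_add e1 e2).trans (le_of_eq ?_))
  ring

lemma card_mono' (X : ℕ) (P : Finset ℕ → Prop) [DecidablePred P] :
    (((SS X).filter P).card : ℝ) ≤ (((Pool.Agent.Y703.CX.SS X).filter P).card : ℝ) := by
  have := card_le_card (filter_subset_filter P (SS_cx X))
  exact_mod_cast this

/-- sets with many primes, sets near the boundary, sets with two primes in a block -/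
structure CntP : Prop where
  many : ∀ X K : ℕ, 1 ≤ X → (((SS X).filter fun S => K < S.card).card : ℝ) * 2 ^ K ≤
    X * (1 + Real.log X)
  cut : ∀ X z H K : ℕ, 1 ≤ X → 1 ≤ H → (((SS X).filter fun S => S.card ≤ K ∧
    X < (∏ p ∈ sm z S, p) * ∏ p ∈ la z S, XX H (jj H p)).card : ℝ) ≤ X * K / H + 1
  coll : ∀ X z H : ℕ, 1 ≤ X → 1 ≤ H → (((SS X).filter fun S =>
    ¬ Set.InjOn (jj H) (la z S : Set ℕ)).card : ℝ) ≤ 4 * X * (1 + Real.log X) / H

theorem t_CNT : CntP := by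
  obtain ⟨h1, h2, h3⟩ := Pool.Agent.Y388.CX.t_CNT
  refine ⟨fun X K hX => ?_, fun X z H K hX hH => ?_, fun X z H hX hH => ?_⟩
  · refine le_trans ?_ (h1 X K hX)
    exact mul_le_mul_of_nonneg_right (card_mono' X _) (by positivity)
  · exact (card_mono' X _).trans (h2 X z H K hX hH)
  · exact (card_mono' X _).trans (h3 X z H hX hH)

end Pool.Agent.L0h2.J
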