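import Pool.Agent.L0h2.J.Stm
import Pool.Agent.Y261.CX.BIL1
import Pool.Agent.Y779.CX.BIL2
import Pool.Agent.R413.SQ.BIL

/-!
# Project J: bilinear sums of products of a cubic and a quadratic symbol
-/

set_option autoImplicit false
set_option linter.all false

open Finset

namespace Pool.Agent.L0h2.J.BIL

open Pool.Agent.Y692.QS (Ei w nr toC mul_star nr_star star_re star_im)
open Pool.Agent.Y715.T.Rec (cs)
open Pool.Agent.Y715.T.RecG (Pq)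
open Pool.Agent.Y699.E
open Pool.Agent.Y703.CX (lam LamP pp)
open Pool.Agent.Y703.CQ (sg)
open Pool.Agent.Y710.CQ (xi sg_xi)
open Pool.Agent.Y261.CX (Xi mult_one pp_mul ne_star cop_nat val_chi zz3)
open Pool.Agent.Y779.CX (xn xe xn_norm xe_norm pair_norm ez_val_ne nrm_pp pp_dvd_iff pp_dvd_sub
  exists_nonres_nat exists_crt holder second csumN nsum nrm_nat)
open Pool.Agent.Y350.CT (pq_star)
open scoped ComplexConjugate

/-- the quadratic symbol of the norm -/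
noncomputable def rq (q : ℕ) (g : Ei) : ℂ := xi q (nrm g)

theorem rq_one (q : ℕ) : rq q 1 = 1 := by
  unfold rq
  rw [nrm_one, Pool.Agent.Y710.CQ.xi_one]

theorem rq_mul (q : ℕ) (x y : Ei) : rq q (x * y) = rq q x * rq q y := by
  unfold rq
  rw [nrm_mul, Pool.Agent.Y710.CQ.xi_mul]

theorem rq_norm (q : ℕ) (x : Ei) : ‖rq q x‖ ≤ 1 := Pool.Agent.Y710.CQ.xi_norm _ _

theorem xi_mod {q m n : ℕ} (h : (q : ℤ) ∣ (m : ℤ) - n) : xi q m = xi q n := by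
  unfold xi
  rw [jacobiSym.mod_left (m : ℤ), jacobiSym.mod_left (n : ℤ)]
  have h1 : (m : ℤ) % q = n % q := (Int.modEq_iff_dvd.2 h).symm
  rw [h1]

theorem rq_per {q : ℕ} {x y : Ei} (h : (q : Ei) ∣ x - y) : rq q x = rq q y := by
  unfold rq
  apply xi_mod
  obtain ⟨k, hk⟩ := h
  have e1 : x = y + (q : Ei) * k := by linear_combination hk
  rw [nrm_eq', nrm_eq']
  have h1 : x.re = y.re + q * k.re := by rw [e1]; simp
  have h2 : x.im = y.im + q * k.im := by rw [e1]; simp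
  rw [h1, h2]
  exact ⟨2 * y.re * k.re + q * k.re ^ 2 - (y.re * k.im + k.re * y.im + q * k.re * k.im) +
    2 * y.im * k.im + q * k.im ^ 2, by ring⟩

theorem xi_tri (m n : ℕ) : xi m n = 0 ∨ xi m n = 1 ∨ xi m n = -1 := by
  unfold xi
  rcases jacobiSym.trichotomy (n : ℤ) m with h | h | h <;> rw [h] <;> simp

theorem ez3 (c : ZMod 3) : ez c ^ 3 = 1 := by
  rw [← Pool.Agent.Y779.CX.ez_nsmul]
  have : ((3 : ℕ) : ZMod 3) * c = 0 := by revert c; decide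
  rw [this, ez_zero]

/-- a nontrivial cube root of unity times a sign is not one -/
theorem mul_ne_one' {z s : ℂ} (hz : z ^ 3 = 1) (hz1 : z ≠ 1) (hs : s = 0 ∨ s = 1 ∨ s = -1) :
    z * s ≠ 1 := by
  rcases hs with h | h | h
  · rw [h, mul_zero]
    exact zero_ne_one
  · rwa [h, mul_one]
  · rw [h]
    intro he
    have h1 : z = -1 := by linear_combination -he
    rw [h1] at hz
    norm_num at hz

/-! ### both primes `≡ 1` -/

/-- the character -/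
noncomputable def Fa (α β : ZMod 3) (q : ℕ) (g : Ei) : ℂ := Xi α β q g * rq q g

theorem Fa_norm (α β : ZMod 3) (q : ℕ) (g : Ei) : ‖Fa α β q g‖ ≤ 1 := by
  unfold Fa
  rw [norm_mul]
  exact mul_le_one₀ (Pool.Agent.Y261.CX.Xi_norm _ _ _ _) (norm_nonneg _) (rq_norm _ _)

theorem Fa_mul {α β : ZMod 3} {q : ℕ} (hq : Pq (pp q)) (x y : Ei) :
    Fa α β q (x * y) = Fa α β q x * Fa α β q y := by
  unfold Fa
  rw [Pool.Agent.Y261.CX.Xi_mul hq, rq_mul]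
  ring

theorem Fa_one {α β : ZMod 3} {q : ℕ} (hq : Pq (pp q)) : Fa α β q 1 = 1 := by
  unfold Fa
  rw [Pool.Agent.Y261.CX.Xi_one hq, rq_one, one_mul]

theorem Fa_per {α β : ZMod 3} {q : ℕ} (hq : Pq (pp q)) (hn : nr (pp q) = q) {x y : Ei}
    (h : (q : Ei) ∣ x - y) : Fa α β q x = Fa α β q y := by
  unfold Fa
  rw [Pool.Agent.Y261.CX.Xi_per hq hn h, rq_per h]

theorem mult {α β : ZMod 3} (hab : α ≠ 0 ∨ β ≠ 0) {q q' : ℕ} (hp : q.Prime) (hq : Pq (pp q))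
    (hn : nr (pp q) = q) (hp' : q'.Prime) (hq' : Pq (pp q')) (hn' : nr (pp q') = q')
    (hne : q ≠ q') : ∃ (c : Ei) (z : ℂ), IsCoprime c ((q * q' : ℕ) : Ei) ∧ z ≠ 1 ∧
      Fa α β q c = z ∧ Fa α β q' c = 1 := by
  have hcop := cop_nat hp hp' hne
  have hz : ∀ k c : ZMod 3, k ≠ 0 → c ≠ 0 → ez (k * c) ≠ 1 := by
    intro k c hk hc
    apply ez_ne
    revert k c
    decide
  by_cases h0 : α = 0
  · have hβ : β ≠ 0 := hab.resolve_left fun h => h h0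
    obtain ⟨c, c1, ⟨b, hb, c2⟩, c3, c4⟩ := mult_one (pq_star hq) hq (ne_star hp hn).symm
      ((mul_comm _ _).trans (pp_mul hn)) hcop
    refine ⟨c, ez (β * cs (star (pp q)) b) * rq q c, c1,
      mul_ne_one' (ez3 _) (hz _ _ hβ hb) (xi_tri _ _), ?_, ?_⟩
    · rw [Fa, Xi, c2, c3, one_pow, one_mul, Pool.Agent.Y261.CX.ez_mul]
    · rw [Fa_per hq' hn' c4, Fa_one hq']
  · obtain ⟨c, c1, ⟨b, hb, c2⟩, c3, c4⟩ := mult_one hq (pq_star hq) (ne_star hp hn)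
      (pp_mul hn) hcop
    refine ⟨c, ez (α * cs (pp q) b) * rq q c, c1,
      mul_ne_one' (ez3 _) (hz _ _ h0 hb) (xi_tri _ _), ?_, ?_⟩
    · rw [Fa, Xi, c2, c3, one_pow, mul_one, Pool.Agent.Y261.CX.ez_mul]
    · rw [Fa_per hq' hn' c4, Fa_one hq']

theorem corr {α β : ZMod 3} (hab : α ≠ 0 ∨ β ≠ 0) {q q' : ℕ} (hp : q.Prime) (hq : Pq (pp q))
    (hn : nr (pp q) = q) (hp' : q'.Prime) (hq' : Pq (pp q')) (hn' : nr (pp q') = q')
    (hne : q ≠ q') (V : ℕ) : ‖∑ g ∈ ZB V, Fa α β q g * conj (Fa α β q' g)‖ ≤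
      3 * ((q : ℝ) * q') * (3 * Real.sqrt V + 1) := by
  obtain ⟨c, z, h1, h2, h3, h4⟩ := mult hab hp hq hn hp' hq' hn' hne
  have := csumN (n := q * q') (Nat.mul_pos hp.pos hp'.pos)
    (f := fun g => Fa α β q g * conj (Fa α β q' g)) (fun a b hab => ?_) (fun a => ?_) h1 h2
    (fun a => ?_) V
  · push_cast at this
    exact this
  · push_cast at hab
    show Fa α β q a * conj (Fa α β q' a) = Fa α β q b * conj (Fa α β q' b)
    rw [Fa_per hq hn ((dvd_mul_right _ _).trans hab), Fa_per hq' hn' ((dvd_mul_left _ _).trans hab)]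
  · exact pair_norm (Fa_norm _ _ _ _) (Fa_norm _ _ _ _)
  · show Fa α β q (c * a) * conj (Fa α β q' (c * a)) = z * (Fa α β q a * conj (Fa α β q' a))
    rw [Fa_mul hq, Fa_mul hq', h3, h4, one_mul, mul_assoc]

theorem nrm_prod' {ι : Type} (s : Finset ι) (p : ι → Ei) :
    nrm (∏ i ∈ s, p i) = ∏ i ∈ s, nrm (p i) := Pool.Agent.Y779.CX.nrm_prod' s p

/-- the estimate with the moduli in `Q` and the Eisenstein integers of the primes in `P` -/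
theorem gen (h : LamP) (F : ℕ → Ei → ℂ) (P Q : Finset ℕ) (A B : ℕ) (c d : ℕ → ℂ)
    (hP : ∀ p ∈ P, p.Prime ∧ p % 3 = 1 ∧ p ≤ A) (hQ : ∀ q ∈ Q, q.Prime ∧ q ≤ B)
    (hB : 1 ≤ B) (hBA : B ≤ A) (hc : ∀ p, ‖c p‖ ≤ 1) (hd : ∀ q, ‖d q‖ ≤ 1)
    (F1 : ∀ q ∈ Q, F q 1 = 1) (Fm : ∀ q ∈ Q, ∀ x y, F q (x * y) = F q x * F q y)
    (Fn : ∀ q g, ‖F q g‖ ≤ 1)
    (Fc : ∀ q ∈ Q, ∀ q' ∈ Q, q ≠ q' → ∀ V : ℕ, ‖∑ g ∈ ZB V, F q g * conj (F q' g)‖ ≤
      3 * ((q : ℝ) * q') * (3 * Real.sqrt V + 1)) :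
    ‖∑ q ∈ Q, ∑ p ∈ P, d q * c p * F q (pp p)‖ ^ 12 ≤
      28 * 6 ^ 6 * ((B : ℝ) ^ 11 * (A : ℝ) ^ 12) := by
  have hA : 1 ≤ A := hB.trans hBA
  have hA' : (1 : ℝ) ≤ A := by exact_mod_cast hA
  have hB' : (1 : ℝ) ≤ B := by exact_mod_cast hB
  have hBA' : (B : ℝ) ≤ A := by exact_mod_cast hBA
  have hcQ : (Q.card : ℝ) ≤ B := Pool.Agent.Y779.CX.card_le_of fun q hq => hQ q hq
  have hcP : (P.card : ℝ) ≤ A := Pool.Agent.Y779.CX.card_le_of fun q hq => ⟨(hP q hq).1, (hP q hq).2.2⟩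
  have hcD : ((ZB (A ^ 6)).card : ℝ) ≤ 16 * (A : ℝ) ^ 6 := by
    have := card_ZB_le (V := A ^ 6) (Nat.one_le_pow _ _ hA)
    push_cast at this
    exact this
  have hsq : Real.sqrt ((A ^ 6 : ℕ) : ℝ) = (A : ℝ) ^ 3 := by
    push_cast
    rw [show (A : ℝ) ^ 6 = ((A : ℝ) ^ 3) ^ 2 by ring, Real.sqrt_sq (by positivity)]
  have hA3 : (1 : ℝ) ≤ (A : ℝ) ^ 3 := one_le_pow₀ hA'
  have hmain := holder (R := Ei) Q P (ZB (A ^ 6)) pp F F1 Fm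
    (fun s hs => by
      rw [mem_ZB, nrm_prod']
      refine (Finset.prod_le_prod' (g := fun _ => A) fun i _ => ?_).trans ?_
      · rw [nrm_pp h (hP _ (hs i)).1 (hP _ (hs i)).2.1]
        exact (hP _ (hs i)).2.2
      · simp)
    (fun x hx s hs hdv => by
      obtain ⟨hx1, hx2, hx3⟩ := hP x hx
      obtain ⟨i, -, hi⟩ := (Prime.dvd_finsetProd_iff (h.ex x hx1 hx2).1.prime _).1 hdv
      refine ⟨i, ?_⟩
      have h1 := eq_of_dvd (h.ex x hx1 hx2).1 (h.ex _ (hP _ (hs i)).1 (hP _ (hs i)).2.1).1 hi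
      rw [← nrm_pp h hx1 hx2, h1, nrm_pp h (hP _ (hs i)).1 (hP _ (hs i)).2.1])
    d c hd hc (28 * ((B : ℝ) * (A : ℝ) ^ 6))
    (fun eps heps => by
      have h1 := second Q (ZB (A ^ 6)) F (fun q _ g => Fn q g)
        (12 * ((B : ℝ) ^ 2 * (A : ℝ) ^ 3)) (by positivity)
        (fun q hq q' hq' hne => by
          refine (Fc q hq q' hq' hne (A ^ 6)).trans ?_
          rw [hsq]
          have hqB : (q : ℝ) ≤ B := by exact_mod_cast (hQ q hq).2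
          have hqB' : (q' : ℝ) ≤ B := by exact_mod_cast (hQ q' hq').2
          calc 3 * ((q : ℝ) * q') * (3 * (A : ℝ) ^ 3 + 1)
              ≤ 3 * ((B : ℝ) * B) * (3 * (A : ℝ) ^ 3 + (A : ℝ) ^ 3) := by gcongr
            _ = 12 * ((B : ℝ) ^ 2 * (A : ℝ) ^ 3) := by ring)
        eps heps
      refine h1.trans ?_
      calc (Q.card : ℝ) * ((ZB (A ^ 6)).card : ℝ) +
            (Q.card : ℝ) ^ 2 * (12 * ((B : ℝ) ^ 2 * (A : ℝ) ^ 3))
          ≤ B * (16 * (A : ℝ) ^ 6) + (B : ℝ) ^ 2 * (12 * ((B : ℝ) ^ 2 * (A : ℝ) ^ 3)) := by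
            gcongr
        _ = 16 * (B * (A : ℝ) ^ 6) + 12 * (B * (B : ℝ) ^ 3 * (A : ℝ) ^ 3) := by ring
        _ ≤ 16 * (B * (A : ℝ) ^ 6) + 12 * (B * (A : ℝ) ^ 3 * (A : ℝ) ^ 3) := by gcongr
        _ = 28 * ((B : ℝ) * (A : ℝ) ^ 6) := by ring)
  refine hmain.trans ?_
  calc (Q.card : ℝ) ^ 10 * ((P.card : ℝ) ^ 6 * (6 ^ 6 * (28 * ((B : ℝ) * (A : ℝ) ^ 6))))
      ≤ (B : ℝ) ^ 10 * ((A : ℝ) ^ 6 * (6 ^ 6 * (28 * ((B : ℝ) * (A : ℝ) ^ 6)))) := by gcongr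
    _ = 28 * 6 ^ 6 * ((B : ℝ) ^ 11 * (A : ℝ) ^ 12) := by ring

/-- the symbols `(p/q)` and `(q/p)` -/
theorem sg_rq (h : LamP) {p q : ℕ} (hp : p.Prime ∧ p % 4 = 1) (hp3 : p % 3 = 1)
    (hq : q.Prime ∧ q % 4 = 1) (hne : p ≠ q) : sg (Pool.Agent.Y703.CQ.nr p q) = rq q (pp p) := by
  rw [sg_xi hp.1 hq.1 hne]
  unfold rq xi
  rw [nrm_pp h hp.1 hp3, jacobiSym.quadratic_reciprocity_one_mod_four (a := p) (b := q) hp.2
    (hq.1.odd_of_ne_two (by omega))]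

theorem sg_rq' (h : LamP) {p q : ℕ} (hp : p.Prime ∧ p % 4 = 1) (hp3 : p % 3 = 1)
    (hq : q.Prime ∧ q % 4 = 1) (hne : p ≠ q) : sg (Pool.Agent.Y703.CQ.nr q p) = rq q (pp p) := by
  rw [sg_xi hq.1 hp.1 (Ne.symm hne)]
  unfold rq
  rw [nrm_pp h hp.1 hp3]

theorem t_BA : S_BA := by
  intro h
  refine ⟨28 * 6 ^ 6, by norm_num, ?_⟩
  intro P Q A B z c d a b hP hQ hdis hab hz hzA hzB hc hd
  have hne : ∀ p ∈ P, ∀ q ∈ Q, p ≠ q := fun p hp q hq he =>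
    (Finset.disjoint_left.1 hdis) hp (he ▸ hq)
  obtain ⟨z1, z2⟩ := zz3 a b hab
  rcases le_total B A with hBA | hAB
  · have e1 : ∑ p ∈ P, ∑ q ∈ Q, c p * d q * (ez (a * lam p q + b * lam q p) *
        sg (Pool.Agent.Y703.CQ.nr p q)) =
        ∑ q ∈ Q, ∑ p ∈ P, d q * c p * Fa (a + b) (a - b) q (pp p) := by
      rw [sum_comm]
      refine sum_congr rfl fun q hq => sum_congr rfl fun p hp => ?_
      obtain ⟨p1, p2, -⟩ := hP p hp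
      obtain ⟨q1, q2, -⟩ := hQ q hq
      rw [Fa, val_chi h p1.1 p2 q1.1 q2 (hne p hp q hq), ← sg_rq h p1 p2 q1 (hne p hp q hq)]
      obtain ⟨r1, r2, r3, r4, r5⟩ := h.rec1 p q p1.1 p2 q1.1 q2 (hne p hp q hq)
      rw [mul_comm (c p)]
      congr 3
      rw [r1, r2, r4, r5]
      ring
    rw [e1]
    have h1 := gen h (Fa (a + b) (a - b)) P Q A B c d (fun p hp => ⟨(hP p hp).1.1, (hP p hp).2⟩)
      (fun q hq => ⟨(hQ q hq).1.1, (hQ q hq).2.2⟩) (hz.trans hzB) hBA hc hd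
      (fun q hq => Fa_one (h.ex q (hQ q hq).1.1 (hQ q hq).2.1).1)
      (fun q hq x y => Fa_mul (h.ex q (hQ q hq).1.1 (hQ q hq).2.1).1 x y)
      (fun q g => Fa_norm _ _ _ _)
      (fun q hq q' hq' hn V => corr z1 (hQ q hq).1.1 (h.ex q (hQ q hq).1.1 (hQ q hq).2.1).1
        (h.ex q (hQ q hq).1.1 (hQ q hq).2.1).2 (hQ q' hq').1.1
        (h.ex q' (hQ q' hq').1.1 (hQ q' hq').2.1).1 (h.ex q' (hQ q' hq').1.1 (hQ q' hq').2.1).2 hn V)
    have h2 : (z : ℝ) ≤ B := by exact_mod_cast hzB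
    calc ‖∑ q ∈ Q, ∑ p ∈ P, d q * c p * Fa (a + b) (a - b) q (pp p)‖ ^ 12 * z ≤
        (28 * 6 ^ 6 * ((B : ℝ) ^ 11 * (A : ℝ) ^ 12)) * B := by
          apply mul_le_mul h1 h2 (by positivity) (by positivity)
      _ = 28 * 6 ^ 6 * ((A : ℝ) * B) ^ 12 := by ring
  · have e1 : ∑ p ∈ P, ∑ q ∈ Q, c p * d q * (ez (a * lam p q + b * lam q p) *
        sg (Pool.Agent.Y703.CQ.nr p q)) =
        ∑ p ∈ P, ∑ q ∈ Q, c p * d q * Fa (a + b) (b - a) p (pp q) := by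
      refine sum_congr rfl fun p hp => sum_congr rfl fun q hq => ?_
      obtain ⟨p1, p2, -⟩ := hP p hp
      obtain ⟨q1, q2, -⟩ := hQ q hq
      rw [Fa, val_chi h q1.1 q2 p1.1 p2 (hne p hp q hq).symm,
        ← sg_rq' h q1 q2 p1 (hne p hp q hq).symm]
      obtain ⟨r1, r2, r3, r4, r5⟩ := h.rec1 p q p1.1 p2 q1.1 q2 (hne p hp q hq)
      congr 3
      rw [r1, r2, r3]
      ring
    rw [e1]
    have h1 := gen h (Fa (a + b) (b - a)) Q P B A d c (fun p hp => ⟨(hQ p hp).1.1, (hQ p hp).2⟩)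
      (fun q hq => ⟨(hP q hq).1.1, (hP q hq).2.2⟩) (hz.trans hzA) hAB hd hc
      (fun q hq => Fa_one (h.ex q (hP q hq).1.1 (hP q hq).2.1).1)
      (fun q hq x y => Fa_mul (h.ex q (hP q hq).1.1 (hP q hq).2.1).1 x y)
      (fun q g => Fa_norm _ _ _ _)
      (fun q hq q' hq' hn V => corr z2 (hP q hq).1.1 (h.ex q (hP q hq).1.1 (hP q hq).2.1).1
        (h.ex q (hP q hq).1.1 (hP q hq).2.1).2 (hP q' hq').1.1
        (h.ex q' (hP q' hq').1.1 (hP q' hq').2.1).1 (h.ex q' (hP q' hq').1.1 (hP q' hq').2.1).2 hn V)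
    have h2 : (z : ℝ) ≤ A := by exact_mod_cast hzA
    calc ‖∑ p ∈ P, ∑ q ∈ Q, c p * d q * Fa (a + b) (b - a) p (pp q)‖ ^ 12 * z ≤
        (28 * 6 ^ 6 * ((A : ℝ) ^ 11 * (B : ℝ) ^ 12)) * A := by
          apply mul_le_mul h1 h2 (by positivity) (by positivity)
      _ = 28 * 6 ^ 6 * ((A : ℝ) * B) ^ 12 := by ring

/-! ### a prime `≡ 1` and a prime `≡ 2` -/

/-- the character on the Eisenstein integers -/
noncomputable def Fe (a : ZMod 3) (q : ℕ) (g : Ei) : ℂ := xe a q g * rq q g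

/-- the character on the natural numbers -/
noncomputable def Fn (a : ZMod 3) (p n : ℕ) : ℂ := xn a p n * xi p n

theorem Fe_norm (a : ZMod 3) (q : ℕ) (g : Ei) : ‖Fe a q g‖ ≤ 1 := by
  unfold Fe
  rw [norm_mul]
  exact mul_le_one₀ (xe_norm _ _ _) (norm_nonneg _) (rq_norm _ _)

theorem Fn_norm (a : ZMod 3) (q : ℕ) (g : ℕ) : ‖Fn a q g‖ ≤ 1 := by
  unfold Fn
  rw [norm_mul]
  exact mul_le_one₀ (xn_norm _ _ _) (norm_nonneg _) (Pool.Agent.Y710.CQ.xi_norm _ _)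

theorem off_ei {a : ZMod 3} (ha : a ≠ 0) {q q' : ℕ} (hq : 0 < q) (hq' : 0 < q')
    (hQ : Pq (-(q : Ei))) (hQ' : Pq (-(q' : Ei))) (hne : q ≠ q') (V : ℕ) :
    ‖∑ g ∈ ZB V, Fe a q g * conj (Fe a q' g)‖ ≤ 3 * ((q : ℝ) * q') * (3 * Real.sqrt V + 1) := by
  have hne' : -(q : Ei) ≠ -(q' : Ei) := by
    intro h
    apply hne
    exact_mod_cast neg_injective h
  obtain ⟨c, hc0, hc1, hc2⟩ := exists_crt hQ hQ' hne'
  have e1 : chi (-(q : Ei)) c = ez (cs (-(q : Ei)) c) := chi_of hc0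
  have e2 : chi (-(q' : Ei)) c = 1 := by rw [chi_per hQ' hc2, chi_one hQ']
  have e3 : rq q' c = 1 := by rw [rq_per ((neg_dvd).1 hc2), rq_one]
  have hz3 : (ez (cs (-(q : Ei)) c) ^ a.val) ^ 3 = 1 := by
    rw [← pow_mul, mul_comm, pow_mul, ez3, one_pow]
  have key := csumN (n := q * q') (Nat.mul_pos hq hq')
    (f := fun g => Fe a q g * conj (Fe a q' g)) (fun x y hxy => ?_)
    (fun n => pair_norm (Fe_norm _ _ _) (Fe_norm _ _ _)) (c := c) ?_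
    (z := ez (cs (-(q : Ei)) c) ^ a.val * rq q c)
    (mul_ne_one' hz3 (ez_val_ne ha hc1) (xi_tri _ _)) (fun x => ?_) V
  · refine key.trans (le_of_eq ?_)
    push_cast
    rfl
  · rw [Nat.cast_mul] at hxy
    have x1 : (q : Ei) ∣ x - y := (dvd_mul_right _ _).trans hxy
    have x2 : (q' : Ei) ∣ x - y := (dvd_mul_left _ _).trans hxy
    simp only [Fe, xe]
    rw [chi_per hQ ((neg_dvd).2 x1), chi_per hQ' ((neg_dvd).2 x2), rq_per x1, rq_per x2]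
  · rw [Nat.cast_mul]
    refine IsCoprime.mul_right ?_ ?_
    · have := (hQ.prime.irreducible.coprime_iff_not_dvd).2 hc0
      exact (IsCoprime.neg_left_iff _ _).1 this |>.symm
    · obtain ⟨k, hk⟩ := hc2
      exact ⟨1, k, by linear_combination hk⟩
  · simp only [Fe, xe]
    rw [chi_mul hQ, chi_mul hQ', rq_mul, rq_mul, e1, e2, e3, one_mul, one_mul, mul_pow]
    ring

theorem off_nat (h : LamP) {a : ZMod 3} (ha : a ≠ 0) {p p' : ℕ} (hp : p.Prime) (h3 : p % 3 = 1)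
    (hp' : p'.Prime) (h3' : p' % 3 = 1) (hne : p ≠ p') (V : ℕ) :
    ‖∑ n ∈ range V, Fn a p n * conj (Fn a p' n)‖ ≤ p * p' := by
  obtain ⟨n₀, hn₀, hl⟩ := exists_nonres_nat h hp h3
  have hcop : Nat.Coprime p p' := (Nat.coprime_primes hp hp').2 hne
  obtain ⟨c, hc1, hc2⟩ := Nat.chineseRemainder hcop n₀ 1
  have hP := (h.ex p hp h3).1
  have hP' := (h.ex p' hp' h3').1
  have e1 : chi (pp p) (c : Ei) = ez (lam p n₀) := by
    rw [chi_per hP (pp_dvd_sub h hp h3 hc1), chi_of (fun hd => hn₀ ((pp_dvd_iff h hp h3 _).1 hd))]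
    rfl
  have e2 : chi (pp p') (c : Ei) = 1 := by
    rw [chi_per hP' (pp_dvd_sub h hp' h3' hc2), Nat.cast_one, chi_one hP']
  have e3 : xi p' c = 1 := by
    rw [xi_mod (Nat.modEq_iff_dvd.1 hc2.symm), Pool.Agent.Y710.CQ.xi_one]
  have hz3 : (ez (lam p n₀) ^ a.val) ^ 3 = 1 := by
    rw [← pow_mul, mul_comm, pow_mul, ez3, one_pow]
  have hN : 0 < p * p' := Nat.mul_pos hp.pos hp'.pos
  have key := nsum (N := p * p') hN (f := fun n => Fn a p n * conj (Fn a p' n)) (fun x y hxy => ?_)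
    (fun n => pair_norm (Fn_norm _ _ _) (Fn_norm _ _ _)) (c := c) ?_
    (z := ez (lam p n₀) ^ a.val * xi p c) (mul_ne_one' hz3 (ez_val_ne ha hl) (xi_tri _ _))
    (fun x => ?_) V
  · refine key.trans (le_of_eq ?_)
    push_cast
    rfl
  · have x1 : x ≡ y [MOD p] := hxy.of_mul_right _
    have x2 : x ≡ y [MOD p'] := hxy.of_mul_left _
    simp only [Fn, xn]
    rw [chi_per hP (pp_dvd_sub h hp h3 x1), chi_per hP' (pp_dvd_sub h hp' h3' x2),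
      xi_mod (Nat.modEq_iff_dvd.1 x1.symm), xi_mod (Nat.modEq_iff_dvd.1 x2.symm)]
  · refine Nat.Coprime.mul_right ?_ ?_
    · rw [Nat.coprime_comm, Nat.Prime.coprime_iff_not_dvd hp]
      intro hd
      exact hn₀ ((hc1.dvd_iff dvd_rfl).1 hd)
    · rw [Nat.coprime_comm, Nat.Prime.coprime_iff_not_dvd hp']
      intro hd
      have := (hc2.dvd_iff dvd_rfl).1 hd
      exact hp'.one_lt.ne' (Nat.dvd_one.1 this)
  · simp only [Fn, xn]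
    rw [Nat.cast_mul, chi_mul hP, chi_mul hP', Pool.Agent.Y710.CQ.xi_mul,
      Pool.Agent.Y710.CQ.xi_mul, e1, e2, e3, one_mul, one_mul, mul_pow]
    ring

/-- the long variable is the prime `≡ 1` -/
theorem case_one (h : LamP) (P Q : Finset ℕ) (A B : ℕ) (c d : ℕ → ℂ) (a : ZMod 3)
    (hP : ∀ p ∈ P, (p.Prime ∧ p % 4 = 1) ∧ p % 3 = 1 ∧ p ≤ A)
    (hQ : ∀ q ∈ Q, (q.Prime ∧ q % 4 = 1) ∧ q % 3 = 2 ∧ q ≤ B)
    (ha : a ≠ 0) (hB : 1 ≤ B) (hBA : B ≤ A) (hc : ∀ p, ‖c p‖ ≤ 1)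
    (hd : ∀ q, ‖d q‖ ≤ 1) (hne : P.Nonempty) :
    ‖∑ p ∈ P, ∑ q ∈ Q, c p * d q * (ez (a * lam p q) * sg (Pool.Agent.Y703.CQ.nr p q))‖ ^ 12 ≤
      28 * 6 ^ 6 * ((B : ℝ) ^ 11 * (A : ℝ) ^ 12) := by
  obtain ⟨p₁, hp₁⟩ := hne
  have hPq : ∀ q ∈ Q, Pq (-(q : Ei)) := fun q hq =>
    (h.rec2 p₁ q (hP p₁ hp₁).1.1 (hP p₁ hp₁).2.1 (hQ q hq).1.1 (hQ q hq).2.1).1
  have e1 : ∑ p ∈ P, ∑ q ∈ Q, c p * d q * (ez (a * lam p q) * sg (Pool.Agent.Y703.CQ.nr p q)) =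
      ∑ q ∈ Q, ∑ p ∈ P, d q * c p * Fe a q (pp p) := by
    rw [sum_comm]
    refine sum_congr rfl fun q hq => sum_congr rfl fun p hp => ?_
    obtain ⟨hp1, hp2, hp3⟩ := hP p hp
    obtain ⟨hq1, hq2, hq3⟩ := hQ q hq
    have hpq : p ≠ q := by rintro rfl; omega
    have hnd : ¬ -(q : Ei) ∣ pp p := by
      intro hd
      have h1 : (q : Ei) ∣ pp p := (neg_dvd).1 hd
      obtain ⟨k, hk⟩ := h1
      have h2 : nrm (pp p) = nrm (q : Ei) * nrm k := by rw [hk, nrm_mul]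
      rw [nrm_nat, nrm_pp h hp1.1 hp2, mul_assoc] at h2
      have h3 : q ∣ p := ⟨_, h2⟩
      exact hpq ((Nat.prime_dvd_prime_iff_eq hq1.1 hp1.1).1 h3).symm
    rw [sg_rq h hp1 hp2 hq1 hpq, Pool.Agent.Y779.CX.ez_val, (h.rec2 p q hp1.1 hp2 hq1.1 hq2).2, ← chi_of hnd]
    unfold Fe xe
    ring
  rw [e1]
  exact gen h (Fe a) P Q A B c d (fun p hp => ⟨(hP p hp).1.1, (hP p hp).2⟩)
      (fun q hq => ⟨(hQ q hq).1.1, (hQ q hq).2.2⟩) hB hBA hc hd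
      (fun q hq => by unfold Fe xe; rw [chi_one (hPq q hq), rq_one, one_pow, one_mul])
      (fun q hq x y => by unfold Fe xe; rw [chi_mul (hPq q hq), rq_mul, mul_pow]; ring)
      (fun q g => Fe_norm _ _ _)
      (fun q hq q' hq' hn V => off_ei ha (hQ q hq).1.1.pos (hQ q' hq').1.1.pos (hPq q hq)
        (hPq q' hq') hn V)

/-- the long variable is the prime `≡ 2` -/
theorem case_two (h : LamP) (P Q : Finset ℕ) (A B : ℕ) (c d : ℕ → ℂ) (a : ZMod 3)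
    (hP : ∀ p ∈ P, (p.Prime ∧ p % 4 = 1) ∧ p % 3 = 1 ∧ p ≤ A)
    (hQ : ∀ q ∈ Q, (q.Prime ∧ q % 4 = 1) ∧ q % 3 = 2 ∧ q ≤ B)
    (ha : a ≠ 0) (hA : 1 ≤ A) (hB : 1 ≤ B) (hAB : A ≤ B) (hc : ∀ p, ‖c p‖ ≤ 1)
    (hd : ∀ q, ‖d q‖ ≤ 1) :
    ‖∑ p ∈ P, ∑ q ∈ Q, c p * d q * (ez (a * lam p q) * sg (Pool.Agent.Y703.CQ.nr p q))‖ ^ 12 ≤
      3 * 6 ^ 6 * ((A : ℝ) ^ 11 * (B : ℝ) ^ 12) := by
  have hA' : (1 : ℝ) ≤ A := by exact_mod_cast hA
  have hB' : (1 : ℝ) ≤ B := by exact_mod_cast hB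
  have hAB' : (A : ℝ) ≤ B := by exact_mod_cast hAB
  have hPq : ∀ p ∈ P, Pq (pp p) := fun p hp => (h.ex p (hP p hp).1.1 (hP p hp).2.1).1
  have e1 : ∑ p ∈ P, ∑ q ∈ Q, c p * d q * (ez (a * lam p q) * sg (Pool.Agent.Y703.CQ.nr p q)) =
      ∑ p ∈ P, ∑ q ∈ Q, c p * d q * Fn a p (id q) := by
    refine sum_congr rfl fun p hp => sum_congr rfl fun q hq => ?_
    obtain ⟨hp1, hp2, hp3⟩ := hP p hp
    obtain ⟨hq1, hq2, hq3⟩ := hQ q hq
    have hpq : p ≠ q := by rintro rfl; omega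
    have hnd : ¬ pp p ∣ (q : Ei) := by
      rw [pp_dvd_iff h hp1.1 hp2, Nat.prime_dvd_prime_iff_eq hp1.1 hq1.1]
      exact hpq
    rw [Pool.Agent.Y779.CX.ez_val, sg_xi hp1.1 hq1.1 hpq]
    unfold Fn xn lam
    rw [id, ← chi_of hnd]
  rw [e1]
  have hcQ : (Q.card : ℝ) ≤ B :=
    Pool.Agent.Y779.CX.card_le_of fun q hq => ⟨(hQ q hq).1.1, (hQ q hq).2.2⟩
  have hcP : (P.card : ℝ) ≤ A :=
    Pool.Agent.Y779.CX.card_le_of fun q hq => ⟨(hP q hq).1.1, (hP q hq).2.2⟩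
  have hcD : ((range (B ^ 6 + 1)).card : ℝ) ≤ 2 * (B : ℝ) ^ 6 := by
    rw [card_range]
    push_cast
    have : (1 : ℝ) ≤ (B : ℝ) ^ 6 := one_le_pow₀ hB'
    linarith
  have hmain := holder (R := ℕ) P Q (range (B ^ 6 + 1)) id (Fn a)
    (fun p hp => by
      unfold Fn xn
      rw [Nat.cast_one, chi_one (hPq p hp), one_pow, Pool.Agent.Y710.CQ.xi_one, one_mul])
    (fun p hp x y => by
      unfold Fn xn
      rw [Nat.cast_mul, chi_mul (hPq p hp), mul_pow, Pool.Agent.Y710.CQ.xi_mul]; ring)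
    (fun s hs => by
      rw [mem_range, Nat.lt_succ_iff]
      refine (Finset.prod_le_prod' (g := fun _ => B) fun i _ => (hQ _ (hs i)).2.2).trans ?_
      simp)
    (fun x hx s hs hdv => by
      obtain ⟨i, -, hi⟩ := (Prime.dvd_finsetProd_iff (hQ x hx).1.1.prime _).1 hdv
      exact ⟨i, (Nat.prime_dvd_prime_iff_eq (hQ x hx).1.1 (hQ _ (hs i)).1.1).1 hi⟩)
    c d hc hd (3 * ((A : ℝ) * (B : ℝ) ^ 6))
    (fun eps heps => by
      have h1 := second P (range (B ^ 6 + 1)) (Fn a) (fun q _ g => Fn_norm a q g)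
        ((A : ℝ) ^ 2) (by positivity)
        (fun p hp p' hp' hne => by
          refine (off_nat h ha (hP p hp).1.1 (hP p hp).2.1 (hP p' hp').1.1 (hP p' hp').2.1 hne
            _).trans ?_
          have hqB : (p : ℝ) ≤ A := by exact_mod_cast (hP p hp).2.2
          have hqB' : (p' : ℝ) ≤ A := by exact_mod_cast (hP p' hp').2.2
          rw [pow_two]
          gcongr)
        eps heps
      refine h1.trans ?_
      calc (P.card : ℝ) * ((range (B ^ 6 + 1)).card : ℝ) + (P.card : ℝ) ^ 2 * (A : ℝ) ^ 2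
          ≤ A * (2 * (B : ℝ) ^ 6) + (A : ℝ) ^ 2 * (A : ℝ) ^ 2 := by gcongr
        _ = 2 * (A * (B : ℝ) ^ 6) + A * ((A : ℝ) ^ 3 * 1) := by ring
        _ ≤ 2 * (A * (B : ℝ) ^ 6) + A * ((B : ℝ) ^ 3 * (B : ℝ) ^ 3) := by
            gcongr
            exact one_le_pow₀ hB'
        _ = 3 * ((A : ℝ) * (B : ℝ) ^ 6) := by ring)
  refine hmain.trans ?_
  calc (P.card : ℝ) ^ 10 * ((Q.card : ℝ) ^ 6 * (6 ^ 6 * (3 * ((A : ℝ) * (B : ℝ) ^ 6))))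
      ≤ (A : ℝ) ^ 10 * ((B : ℝ) ^ 6 * (6 ^ 6 * (3 * ((A : ℝ) * (B : ℝ) ^ 6)))) := by gcongr
    _ = 3 * 6 ^ 6 * ((A : ℝ) ^ 11 * (B : ℝ) ^ 12) := by ring

theorem t_BB : S_BB := by
  intro h
  refine ⟨28 * 6 ^ 6, by norm_num, ?_⟩
  intro P Q A B z c d a hP hQ ha hz hzA hzB hc hd
  have hA : 1 ≤ A := hz.trans hzA
  have hB : 1 ≤ B := hz.trans hzB
  have hzA' : (z : ℝ) ≤ A := by exact_mod_cast hzA
  have hzB' : (z : ℝ) ≤ B := by exact_mod_cast hzB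
  rcases P.eq_empty_or_nonempty with hPe | hPne
  · rw [hPe, sum_empty, norm_zero]
    have : (0 : ℝ) ≤ 28 * 6 ^ 6 * ((A : ℝ) * B) ^ 12 := by positivity
    simpa using this
  rcases le_total B A with hBA | hAB
  · have h1 := case_one h P Q A B c d a hP hQ ha hB hBA hc hd hPne
    calc ‖∑ p ∈ P, ∑ q ∈ Q, c p * d q *
          (ez (a * lam p q) * sg (Pool.Agent.Y703.CQ.nr p q))‖ ^ 12 * (z : ℝ)
        ≤ 28 * 6 ^ 6 * ((B : ℝ) ^ 11 * (A : ℝ) ^ 12) * B := by gcongr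
      _ = 28 * 6 ^ 6 * ((A : ℝ) * B) ^ 12 := by ring
  · have h1 := case_two h P Q A B c d a hP hQ ha hA hB hAB hc hd
    calc ‖∑ p ∈ P, ∑ q ∈ Q, c p * d q *
          (ez (a * lam p q) * sg (Pool.Agent.Y703.CQ.nr p q))‖ ^ 12 * (z : ℝ)
        ≤ 3 * 6 ^ 6 * ((A : ℝ) ^ 11 * (B : ℝ) ^ 12) * A := by gcongr
      _ = 3 * 6 ^ 6 * ((A : ℝ) * B) ^ 12 := by ring
      _ ≤ 28 * 6 ^ 6 * ((A : ℝ) * B) ^ 12 := by
          gcongr
          norm_num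

end Pool.Agent.L0h2.J.BIL
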