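import Pool.Agent.L0h2.J.Stm
import Pool.Agent.Y911.CX.BOX
import Pool.Agent.R413.SQ.BOX
import Pool.Agent.Y461.CX.C3
import Pool.Agent.Y948.CQ.C2

/-! Project J: the count in a box. -/

set_option autoImplicit false

open scoped Classical

namespace Pool.Agent.L0h2.J.BOX

open Finset
open Pool.Agent.L0h2.J
open Pool.Agent.Y699.E (ez)
open Pool.Agent.Y703.CX (lam c3)
open Pool.Agent.Y703.CQ (nr sg c2)
open Pool.Agent.R413.SQ renaming mk → mk7

/-- the type of the labels -/
abbrev Lc (S₀ : Finset ℕ) : Type :=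
  ((S₀ → ZMod 3) × (S₀ → ZMod 3)) × ((S₀ → ZMod 2) × (S₀ → ZMod 2) × ZMod 2)

/-- the label of a prime with respect to the small primes -/
noncomputable def lc (f : ℕ → ZMod 2) (S₀ : Finset ℕ) (x : ℕ) : Lc S₀ :=
  (Pool.Agent.Y911.CX.lb S₀ x, Pool.Agent.R413.SQ.BOX.lb f S₀ x)

/-- the good labels -/
def LN {ι : Type} (S₀ : Finset ℕ) (J3 J2 : Finset ι) (β : ι → Lc S₀) : Prop :=
  Pool.Agent.Y911.CX.LN S₀ J3 (fun i => (β i).1) ∧
    Pool.Agent.R413.SQ.BOX.LN S₀ J2 (fun i => (β i).2)

theorem HB_sub {ι : Type} {J3 : Finset ι} {C : ι → Finset ℕ} {X : ι → ℕ} {κ : ℝ}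
    (h : HB J3 C X κ) (P : ι → ℕ → Prop) [∀ i, DecidablePred (P i)] :
    HB J3 (fun i => (C i).filter (P i)) X κ := by
  intro i l hil a b e c d hab ha hb hc hd
  have h1 := h i l hil a b e (fun x => if P i x then c x else 0) (fun y => if P l y then d y else 0)
    hab ha hb (fun x => by
      split_ifs
      · exact hc x
      · simp) (fun y => by
      split_ifs
      · exact hd y
      · simp)
  refine (le_of_eq ?_).trans h1
  congr 1
  rw [Finset.sum_filter]
  refine Finset.sum_congr rfl fun x _ => ?_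
  by_cases hx : P i x
  · rw [if_pos hx, Finset.sum_filter]
    refine Finset.sum_congr rfl fun y _ => ?_
    by_cases hy : P l y
    · rw [if_pos hy, if_pos hx, if_pos hy]
    · rw [if_neg hy, if_neg hy, mul_zero, zero_mul]
  · rw [if_neg hx]
    symm
    refine Finset.sum_eq_zero fun y _ => ?_
    rw [if_neg hx, zero_mul, zero_mul]

/-- an event and its complement -/
theorem ev_card {T : Type} {i2 : Fintype T} [i1 : Fintype T] (P : T → Prop) (b : Bool) (c N : ℝ)
    (hN : (Fintype.card T : ℝ) = N) (hN0 : 0 < N) :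
    |((univ.filter fun α => ev b (P α)).card : ℝ) / N - cv b c| =
      |(((@Finset.univ T i2).filter P).card : ℝ) / N - c| := by
  have hi : i1 = i2 := Subsingleton.elim _ _
  subst hi
  cases b with
  | true =>
    have h1 : (univ.filter fun α => ev true (P α)) = univ.filter P := by
      refine Finset.filter_congr fun x _ => ?_
      unfold ev
      exact ⟨fun h => h.1 rfl, fun h => ⟨fun _ => h, fun _ => rfl⟩⟩
    rw [h1, cv, if_pos rfl]
  | false =>
    have h1 : (univ.filter fun α => ev false (P α)) = univ.filter fun α => ¬ P α := by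
      refine Finset.filter_congr fun x _ => ?_
      unfold ev
      exact ⟨fun h hp => Bool.false_ne_true (h.2 hp), fun h => ⟨fun h' => absurd h' Bool.false_ne_true,
        fun h' => absurd h' h⟩⟩
    have h2 := Finset.card_filter_add_card_filter_not (s := (univ : Finset T)) P
    rw [Finset.card_univ] at h2
    have h3 : ((univ.filter fun α => ¬ P α).card : ℝ) = N - ((univ.filter P).card : ℝ) := by
      rw [← hN]
      have : ((univ.filter P).card : ℝ) + ((univ.filter fun α => ¬ P α).card : ℝ) =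
          (Fintype.card T : ℝ) := by exact_mod_cast h2
      linarith
    rw [h1, cv, if_neg Bool.false_ne_true, h3]
    have h4 : (N - ((univ.filter P).card : ℝ)) / N - (1 - c) =
        -(((univ.filter P).card : ℝ) / N - c) := by
      field_simp
      ring
    rw [h4, abs_neg]

theorem cv_nonneg {b : Bool} {c : ℝ} (h0 : 0 < c) (h1 : c < 1) : 0 ≤ cv b c := by
  unfold cv
  split_ifs <;> linarith

theorem cv_le_one {b : Bool} {c : ℝ} (h0 : 0 < c) (h1 : c < 1) : cv b c ≤ 1 := by
  unfold cv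
  split_ifs <;> linarith

/-- **The count in a box.** -/
theorem t_BOX : S_BOX := by
  intro hEQ hLA3 hLA2 f b ι _ _ J3 J2 C X κ S₀ hκ hCX hHB hS₀ hC hdis hne hne2 hcard
  have k3 := Pool.Agent.Y461.CX.t_C3
  have k2 := Pool.Agent.Y948.CQ.t_C2
  set ca : ℝ := 2 * (3 ^ S₀.card / 3 ^ J3.card) with hca
  set cb : ℝ := 2 * (4 ^ S₀.card / 2 ^ J2.card) with hcb
  set R : ℝ := 3 ^ (Pool.Agent.Y703.CX.prs J3).card * 2 ^ (Pool.Agent.Y703.CQ.prs J2).card *
    (κ * ∏ j, (X j : ℝ)) with hR
  have hca0 : 0 ≤ ca := by positivity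
  have hcb0 : 0 ≤ cb := by positivity
  have hR0 : 0 ≤ R := mul_nonneg (by positivity)
    (mul_nonneg hκ (Finset.prod_nonneg fun j _ => by positivity))
  -- facts on tuples
  have hinj : ∀ p ∈ Fintype.piFinset C, Function.Injective p := by
    intro p hp i j hij
    rw [Fintype.mem_piFinset] at hp
    by_contra hne
    have h1 := Finset.disjoint_left.1 (hdis i j hne) (hp i)
    rw [hij] at h1
    exact h1 (hp j)
  have hJ3 : ∀ p ∈ Fintype.piFinset C, ∀ i, p i % 3 = 1 ↔ i ∈ J3 := by
    intro p hp i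
    rw [Fintype.mem_piFinset] at hp
    obtain ⟨-, -, h1, h2, -⟩ := hC i _ (hp i)
    constructor
    · intro h
      by_contra h3
      have := h2 h3
      omega
    · exact h1
  have hJ2 : ∀ p ∈ Fintype.piFinset C, ∀ i, mk7 (p i) = 1 ↔ i ∈ J2 := by
    intro p hp i
    rw [Fintype.mem_piFinset] at hp
    exact (hC i _ (hp i)).2.2.2.2.symm
  have hd : ∀ p ∈ Fintype.piFinset C, ∀ i, p i ∉ S₀ := by
    intro p hp i
    rw [Fintype.mem_piFinset] at hp
    exact (hC i _ (hp i)).2.1
  have hpr : ∀ p ∈ Fintype.piFinset C, ∀ i, ((p i).Prime ∧ p i % 4 = 1) ∧ p i ≠ 2 := by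
    intro p hp i
    rw [Fintype.mem_piFinset] at hp
    have := (hC i _ (hp i)).1
    exact ⟨this, by omega⟩
  -- the exceptional index
  obtain ⟨ks, hks⟩ : ∃ ks : ι, ∀ l, l ∉ J3 → l = ks := by
    by_cases h : ∃ l, l ∉ J3
    · obtain ⟨l, hl⟩ := h
      refine ⟨l, fun l' hl' => ?_⟩
      have h1 : (J3ᶜ).card ≤ 1 := by omega
      rw [Finset.card_le_one] at h1
      exact h1 l' (Finset.mem_compl.2 hl') l (Finset.mem_compl.2 hl)
    · push Not at h
      obtain ⟨k, -⟩ := hne
      exact ⟨k, fun l hl => absurd (h l) hl⟩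
  have hcount : Fintype.card S₀ + Fintype.card ι =
      (univ.filter fun u : S₀ => (u : ℕ) % 3 = 1).card + J3.card + 1 := by
    have h1 : (J3ᶜ).card + J3.card = Fintype.card ι := by
      rw [Finset.card_compl_add_card]
    have h2 : (univ.filter fun u : S₀ => (u : ℕ) % 3 = 1).card =
        (S₀.filter fun p => p % 3 = 1).card := by
      rw [← Finset.card_map (Function.Embedding.subtype (· ∈ S₀))]
      congr 1
      ext x
      simp only [Finset.mem_map, Finset.mem_filter, Finset.mem_univ, true_and,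
        Function.Embedding.coe_subtype]
      constructor
      · rintro ⟨u, hu, rfl⟩
        exact ⟨u.2, hu⟩
      · rintro ⟨h, h'⟩
        exact ⟨⟨x, h⟩, h', rfl⟩
    have h3 : (S₀.filter fun p => p % 3 = 1).card + (S₀.filter fun p => p % 3 = 2).card =
        S₀.card := by
      rw [← Finset.card_filter_add_card_filter_not (s := S₀) (fun p => p % 3 = 1)]
      congr 2
      refine Finset.filter_congr fun x hx => ?_
      have h4 := hS₀ x hx
      have h5 : x % 3 ≠ 0 := by
        intro h0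
        have := (Nat.prime_dvd_prime_iff_eq Nat.prime_three h4.1).1 (Nat.dvd_of_mod_eq_zero h0)
        omega
      omega
    rw [Fintype.card_coe, h2]
    omega
  have hU1 : (univ.filter fun u : S₀ => mk7 (u : ℕ) = 1).card ≤ S₀.card := by
    refine (Finset.card_le_univ _).trans ?_
    rw [Fintype.card_coe]
  -- the part with given labels
  have h1 : ∀ β : ι → Lc S₀, LN S₀ J3 J2 β →
      |(((Fintype.piFinset C).filter fun p => (fun i => lc f S₀ (p i)) = β ∧
          Gd f b (S₀ ∪ univ.image p)).card : ℝ) -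
        cc b * (((Fintype.piFinset C).filter fun p => (fun i => lc f S₀ (p i)) = β).card : ℝ)| ≤
      (ca + cb) * (((Fintype.piFinset C).filter fun p => (fun i => lc f S₀ (p i)) = β).card : ℝ) +
        R := by
    intro β hβ
    by_cases hemp : ((Fintype.piFinset C).filter fun p => (fun i => lc f S₀ (p i)) = β) = ∅
    · have he2 : ((Fintype.piFinset C).filter fun p => (fun i => lc f S₀ (p i)) = β ∧
          Gd f b (S₀ ∪ univ.image p)) = ∅ := by
        rw [← Finset.filter_filter, hemp, Finset.filter_empty]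
      rw [he2, hemp]
      simpa using hR0
    obtain ⟨p₀, hp₀⟩ := Finset.nonempty_iff_ne_empty.2 hemp
    rw [Finset.mem_filter] at hp₀
    obtain ⟨hp₀, hp₀β⟩ := hp₀
    set C' : ι → Finset ℕ := fun i => (C i).filter fun q => lc f S₀ q = β i with hC'
    have hpi : (Fintype.piFinset C).filter (fun p => (fun i => lc f S₀ (p i)) = β) =
        Fintype.piFinset C' := by
      ext p
      simp only [Finset.mem_filter, Fintype.mem_piFinset, hC']
      constructor
      · rintro ⟨h2, h3⟩ i
        exact ⟨h2 i, congrFun h3 i⟩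
      · intro h2
        exact ⟨fun i => (h2 i).1, funext fun i => (h2 i).2⟩
    have h2 := hLA3 S₀ ι (univ.filter fun u : S₀ => (u : ℕ) % 3 = 1) J3 ks hcount hks
      (fun u v => lam u v) (fun u l => (β l).1.1 u) (fun k u => (β k).1.2 u)
      (by
        rintro v ⟨u, hu, hv⟩
        have h3 := hβ.1.1 v ⟨u, (Finset.mem_filter.1 hu).2, hv⟩
        obtain ⟨l, hl, hlk⟩ := Finset.exists_mem_ne (lt_of_lt_of_le one_lt_two h3) ks
        exact ⟨l, hlk, (Finset.mem_filter.1 hl).2⟩)
      (fun w hw => hβ.1.2 w hw)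
    have h2b := hLA2 S₀ ι (univ.filter fun u : S₀ => mk7 (u : ℕ) = 1) J2 hne2
      (fun u v => nr u v) (fun u l => (β l).2.1 u) (fun k u => (β k).2.2.1 u) (fun u => f u)
      (fun k => (β k).2.2.2)
      (by
        intro u hu v hv
        exact Pool.Agent.R413.SQ.BOX.nr_symm (hS₀ u u.2).1 (hS₀ u u.2).2 (hS₀ v v.2).1
          (by have := (hS₀ v v.2).2; omega))
      (by
        intro u hu k hk
        have h3 := congrFun hp₀β k
        rw [← h3]
        exact Pool.Agent.R413.SQ.BOX.nr_symm (hS₀ u u.2).1 (hS₀ u u.2).2 (hpr p₀ hp₀ k).1.1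
          (hpr p₀ hp₀ k).2)
      (by
        rintro w hw0 ⟨u, hu⟩
        have hu8 : mk7 (u : ℕ) = 1 := by
          by_contra h8
          exact hu (hw0 u fun hu' => h8 (Finset.mem_filter.1 hu').2)
        obtain ⟨k, hk, hk2⟩ := hβ.2 w ⟨u, hu8, hu⟩
        refine ⟨k, hk, ?_⟩
        rw [Finset.sum_filter] at hk2
        intro h0
        apply hk2
        refine Eq.trans ?_ h0
        refine Finset.sum_congr rfl fun v _ => ?_
        split_ifs with h8
        · rfl
        · rw [hw0 v fun hv => h8 (Finset.mem_filter.1 hv).2, zero_mul])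
    set Q : (Pool.Agent.Y703.CX.prs J3 → ZMod 3) → Prop := fun α =>
      Pool.Agent.Y703.CX.GdA (univ.filter fun u : S₀ => (u : ℕ) % 3 = 1)
      J3 (fun u v : S₀ => lam u v) (fun (u : S₀) l => (β l).1.1 u)
      (fun k (u : S₀) => (β k).1.2 u) (Pool.Agent.Y703.CX.ext α) with hQ
    set Q2 : (Pool.Agent.Y703.CQ.prs J2 → ZMod 2) → Prop := fun α =>
      Pool.Agent.Y703.CQ.GdA (univ.filter fun u : S₀ => mk7 (u : ℕ) = 1)
      J2 (fun u v : S₀ => nr u v) (fun (u : S₀) l => (β l).2.1 u)
      (fun k (u : S₀) => (β k).2.2.1 u)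
      (Pool.Agent.Y703.CQ.ext α) (fun u : S₀ => f u) (fun k => (β k).2.2.2) with hQ2
    have h3 := hEQ ι J3 J2 C' X κ hκ
      (fun i => (Finset.card_le_card (Finset.filter_subset _ _)).trans (hCX i))
      (HB_sub hHB fun i q => lc f S₀ q = β i)
      (fun i l hil x hx y hy => by
        have hx' := (hC i x (Finset.mem_filter.1 hx).1).1
        have hy' := (hC l y (Finset.mem_filter.1 hy).1).1
        exact Pool.Agent.R413.SQ.BOX.nr_symm hy'.1 hy'.2 hx'.1 (by have := hx'.2; omega))
      (fun α => ev b.1 (Q α)) (fun α => ev b.2 (Q2 α))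
    have h4 : ((Fintype.piFinset C).filter fun p => (fun i => lc f S₀ (p i)) = β ∧
        Gd f b (S₀ ∪ univ.image p)) = ((Fintype.piFinset C').filter fun p =>
          ev b.1 (Q fun e => lam (p e.1.1) (p e.1.2)) ∧
          ev b.2 (Q2 fun e => nr (p e.1.1) (p e.1.2))) := by
      rw [← hpi, Finset.filter_filter]
      refine Finset.filter_congr fun p hp => ?_
      refine and_congr_right fun hl => ?_
      unfold Gd ev
      rw [Pool.Agent.Y911.CX.gd_iff (hinj p hp) (hd p hp) hne (hJ3 p hp),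
        Pool.Agent.R413.SQ.BOX.gd_iff f (hinj p hp) (hpr p hp) (hd p hp) (hJ2 p hp)]
      subst hl
      exact Iff.rfl
    have h5 : (((Fintype.piFinset C').card : ℕ) : ℝ) = ∏ j, ((C' j).card : ℝ) := by
      rw [Fintype.card_piFinset]
      push_cast
      rfl
    rw [h4, hpi, h5]
    rw [Fintype.card_coe] at h2
    have h2b' : |((univ.filter Q2).card : ℝ) / 2 ^ (Pool.Agent.Y703.CQ.prs J2).card - c2| ≤ cb := by
      refine h2b.trans ?_
      rw [hcb]
      refine mul_le_mul_of_nonneg_left ?_ (by norm_num)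
      refine div_le_div_of_nonneg_right ?_ (by positivity)
      exact pow_le_pow_right₀ (by norm_num) hU1
    have hc3 : (Fintype.card (Pool.Agent.Y703.CX.prs J3 → ZMod 3) : ℝ) =
        3 ^ (Pool.Agent.Y703.CX.prs J3).card := by
      rw [Fintype.card_fun, ZMod.card, Fintype.card_coe]
      push_cast
      rfl
    have hc2 : (Fintype.card (Pool.Agent.Y703.CQ.prs J2 → ZMod 2) : ℝ) =
        2 ^ (Pool.Agent.Y703.CQ.prs J2).card := by
      rw [Fintype.card_fun, ZMod.card, Fintype.card_coe]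
      push_cast
      rfl
    have e3 := (ev_card Q b.1 c3 _ hc3 (by positivity)).trans_le h2
    have e2 := (ev_card Q2 b.2 c2 _ hc2 (by positivity)).trans_le h2b'
    set n : ℝ := (((Fintype.piFinset C').filter fun p =>
          ev b.1 (Q fun e => lam (p e.1.1) (p e.1.2)) ∧
          ev b.2 (Q2 fun e => nr (p e.1.1) (p e.1.2))).card : ℝ) with hn
    set q3 : ℝ := ((univ.filter fun α => ev b.1 (Q α)).card : ℝ) /
      3 ^ (Pool.Agent.Y703.CX.prs J3).card with hq3
    set q2 : ℝ := ((univ.filter fun α => ev b.2 (Q2 α)).card : ℝ) /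
      2 ^ (Pool.Agent.Y703.CQ.prs J2).card with hq2
    have g3 : |q3 - cv b.1 c3| ≤ ca := e3
    have g2 : |q2 - cv b.2 c2| ≤ cb := e2
    have q20 : 0 ≤ q2 := by positivity
    have q21 : q2 ≤ 1 := by
      rw [hq2, div_le_one (by positivity), ← hc2]
      exact_mod_cast Finset.card_le_univ _
    have v30 : 0 ≤ cv b.1 c3 := cv_nonneg k3.2.1 k3.2.2.1
    have v31 : cv b.1 c3 ≤ 1 := cv_le_one k3.2.1 k3.2.2.1
    have g4 : |q3 * q2 - cc b| ≤ ca + cb := by
      have e : q3 * q2 - cc b = (q3 - cv b.1 c3) * q2 + cv b.1 c3 * (q2 - cv b.2 c2) := by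
        unfold cc
        ring
      rw [e]
      refine (abs_add_le _ _).trans ?_
      rw [abs_mul, abs_mul, abs_of_nonneg q20, abs_of_nonneg v30]
      have a1 : |q3 - cv b.1 c3| * q2 ≤ ca * 1 := mul_le_mul g3 q21 q20 hca0
      have a2 : cv b.1 c3 * |q2 - cv b.2 c2| ≤ 1 * cb := mul_le_mul v31 g2 (abs_nonneg _) (by norm_num)
      linarith
    set P : ℝ := ∏ j, ((C' j).card : ℝ) with hP
    have hP0 : 0 ≤ P := Finset.prod_nonneg fun j _ => by positivity
    have h6 : |n - cc b * P| ≤ |n - q3 * q2 * P| + |q3 * q2 - cc b| * P := by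
      have h7 : n - cc b * P = (n - q3 * q2 * P) + (q3 * q2 - cc b) * P := by ring
      have h8 : |(q3 * q2 - cc b) * P| = |q3 * q2 - cc b| * P := by rw [abs_mul, abs_of_nonneg hP0]
      rw [h7, ← h8]
      exact abs_add_le _ _
    have h7 : |q3 * q2 - cc b| * P ≤ (ca + cb) * P := mul_le_mul_of_nonneg_right g4 hP0
    have h8 : |n - q3 * q2 * P| ≤ R := h3
    linarith
  -- sum over the labels
  set LL := univ.filter (fun β : ι → Lc S₀ => LN S₀ J3 J2 β) with hLL
  have hnd : ∀ p ∈ Fintype.piFinset C, (Nd S₀ (univ.image p) ↔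
      LN S₀ J3 J2 (fun i => lc f S₀ (p i))) := by
    intro p hp
    unfold Nd LN
    rw [Pool.Agent.Y911.CX.nd_iff (hinj p hp) (hJ3 p hp),
      Pool.Agent.R413.SQ.BOX.nd_iff f (hJ2 p hp)]
    exact Iff.rfl
  have hfib : ∀ T : (ι → ℕ) → Prop,
      (((Fintype.piFinset C).filter fun p => Nd S₀ (univ.image p) ∧ T p).card : ℝ) =
      ∑ β ∈ LL, (((Fintype.piFinset C).filter fun p =>
        (fun i => lc f S₀ (p i)) = β ∧ T p).card : ℝ) := by
    intro T
    rw [Finset.card_eq_sum_card_fiberwise (f := fun (p : ι → ℕ) (i : ι) => lc f S₀ (p i))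
      (t := LL) (by
        intro p hp
        rw [Finset.mem_coe, Finset.mem_filter] at hp
        rw [Finset.mem_coe, hLL, Finset.mem_filter]
        exact ⟨Finset.mem_univ _, (hnd p hp.1).1 hp.2.1⟩)]
    push_cast
    refine Finset.sum_congr rfl fun β hβ => ?_
    rw [hLL, Finset.mem_filter] at hβ
    congr 2
    ext p
    simp only [Finset.mem_filter]
    constructor
    · rintro ⟨⟨h3, h4, h4'⟩, h5⟩
      exact ⟨h3, h5, h4'⟩
    · rintro ⟨h3, h4, h5⟩
      refine ⟨⟨h3, ?_, h5⟩, h4⟩
      rw [hnd p h3, h4]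
      exact hβ.2
  have hf1 := hfib fun p => Gd f b (S₀ ∪ univ.image p)
  have hf2 := hfib fun _ => True
  simp only [and_true] at hf2
  rw [hf1, hf2, Finset.mul_sum, ← Finset.sum_sub_distrib]
  refine (Finset.abs_sum_le_sum_abs _ _).trans ?_
  refine (Finset.sum_le_sum fun β hβ => h1 β (Finset.mem_filter.1 hβ).2).trans ?_
  rw [Finset.sum_add_distrib, ← Finset.mul_sum, Finset.sum_const, nsmul_eq_mul]
  have h5 : ((LL.card : ℕ) : ℝ) ≤ 3 ^ (2 * S₀.card * Fintype.card ι) *
      2 ^ ((2 * S₀.card + 1) * Fintype.card ι) := by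
    have h6 : LL.card ≤ Fintype.card (ι → Lc S₀) := Finset.card_le_univ _
    have h7 : Fintype.card (ι → Lc S₀) = 3 ^ (2 * S₀.card * Fintype.card ι) *
        2 ^ ((2 * S₀.card + 1) * Fintype.card ι) := by
      rw [Fintype.card_fun, Fintype.card_prod, Fintype.card_prod, Fintype.card_prod,
        Fintype.card_prod, Fintype.card_fun, Fintype.card_fun, ZMod.card, ZMod.card,
        Fintype.card_coe, mul_pow, ← pow_add, ← pow_succ, ← pow_add, ← pow_mul, ← pow_mul]
      congr 2
      · ring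
      · ring
    rw [h7] at h6
    exact_mod_cast h6
  have h6 := mul_le_mul_of_nonneg_right h5 hR0
  have h7 : (3 : ℝ) ^ (2 * S₀.card * Fintype.card ι + (Pool.Agent.Y703.CX.prs J3).card) *
      2 ^ ((2 * S₀.card + 1) * Fintype.card ι + (Pool.Agent.Y703.CQ.prs J2).card) *
      (κ * ∏ j, (X j : ℝ)) = 3 ^ (2 * S₀.card * Fintype.card ι) *
      2 ^ ((2 * S₀.card + 1) * Fintype.card ι) * R := by
    rw [hR, pow_add, pow_add]
    ring
  rw [h7]
  linarith

end Pool.Agent.L0h2.J.BOX
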