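import Pool.Agent.L0h2.J.Stm
import Pool.Agent.Y419.CX.EQ
import Pool.Agent.Y356.CQ.EQ

/-!
# Project J: equidistribution of the symbols of a tuple of primes
-/

set_option autoImplicit false
set_option linter.unusedVariables false

open scoped Classical

namespace Pool.Agent.L0h2.J.EQ

open Finset
open Pool.Agent.Y699.E (ez ez_zero ez_add ez_sum norm_ez sum_ez)
open Pool.Agent.Y703.CX (lam)
open Pool.Agent.Y703.CQ (nr sg)
open Pool.Agent.Y356.CQ (sg_zero sg_add norm_sg)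
open Pool.Agent.L0h2.J (HB S_EQ)

section
variable {ι : Type} [Fintype ι]

theorem sum_lc {J3 : Finset ι} {C : ι → Finset ℕ} {X : ι → ℕ} {κ : ℝ} (hκ : 0 ≤ κ)
    (hC : ∀ i, (C i).card ≤ X i) (HBh : HB J3 C X κ)
    (hsym : ∀ i l, i ≠ l → ∀ x ∈ C i, ∀ y ∈ C l, nr y x = nr x y)
    (g : ι × ι → ZMod 3) (g' : ι × ι → ZMod 2)
    (hg0 : ∀ i l, i ∉ J3 → g (i, l) = 0) {i l : ι} (hil : i ≠ l)
    (hg : g (i, l) ≠ 0 ∨ g (l, i) ≠ 0 ∨ g' (i, l) + g' (l, i) ≠ 0) :
    ‖∑ p ∈ Fintype.piFinset C, ez (Pool.Agent.Y419.CX.lc g p) *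
      sg (Pool.Agent.Y356.CQ.lc g' p)‖ ≤ κ * ∏ j, (X j : ℝ) := by
  have hpos : 0 ≤ κ * ∏ j, (X j : ℝ) :=
    mul_nonneg hκ (Finset.prod_nonneg fun j _ => Nat.cast_nonneg _)
  by_cases hemp : (C i).card = 0 ∨ (C l).card = 0
  · have h0 : Fintype.piFinset C = ∅ := by
      rcases hemp with h | h
      · rw [Finset.card_eq_zero] at h
        exact Fintype.piFinset_eq_empty.2 ⟨i, h⟩
      · rw [Finset.card_eq_zero] at h
        exact Fintype.piFinset_eq_empty.2 ⟨l, h⟩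
    rw [h0, Finset.sum_empty, norm_zero]
    exact hpos
  rw [not_or] at hemp
  have hci : (0 : ℝ) < (C i).card := by exact_mod_cast Nat.pos_of_ne_zero hemp.1
  have hcl : (0 : ℝ) < (C l).card := by exact_mod_cast Nat.pos_of_ne_zero hemp.2
  have h1 := Pool.Agent.Y419.CX.resample2 C i l (fun p => ez (Pool.Agent.Y419.CX.lc g p) *
      sg (Pool.Agent.Y356.CQ.lc g' p))
  have h2 : ∀ p : ι → ℕ, ‖∑ x ∈ C i, ∑ y ∈ C l,
      ez (Pool.Agent.Y419.CX.lc g (Function.update (Function.update p i x) l y)) *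
        sg (Pool.Agent.Y356.CQ.lc g' (Function.update (Function.update p i x) l y))‖ ≤
      κ * (X i * X l) := by
    intro p
    obtain ⟨u, v, huv⟩ := Pool.Agent.Y419.CX.lc_split g hil p
    obtain ⟨u', v', huv'⟩ := Pool.Agent.Y356.CQ.lc_split g' hil p
    have h3 := HBh i l hil (g (i, l)) (g (l, i)) (g' (i, l) + g' (l, i))
      (fun x => ez (u x) * sg (u' x)) (fun y => ez (v y) * sg (v' y)) hg
      (fun h => hg0 _ _ h) (fun h => hg0 _ _ h)
      (fun x => by rw [norm_mul, norm_ez, norm_sg, one_mul])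
      (fun x => by rw [norm_mul, norm_ez, norm_sg, one_mul])
    refine le_trans (le_of_eq ?_) h3
    congr 1
    refine Finset.sum_congr rfl fun x hx => Finset.sum_congr rfl fun y hy => ?_
    rw [huv x y, huv' x y, hsym i l hil x hx y hy, ← add_mul, ez_add, ez_add, sg_add, sg_add]
    ring
  have h3 : (C i).card * ((C l).card * ‖∑ p ∈ Fintype.piFinset C,
      ez (Pool.Agent.Y419.CX.lc g p) * sg (Pool.Agent.Y356.CQ.lc g' p)‖) ≤
      (∏ j, ((C j).card : ℝ)) * (κ * (X i * X l)) := by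
    have e : (C i).card * ((C l).card * ‖∑ p ∈ Fintype.piFinset C,
        ez (Pool.Agent.Y419.CX.lc g p) * sg (Pool.Agent.Y356.CQ.lc g' p)‖) =
        ‖((C i).card : ℂ) * ((C l).card * ∑ p ∈ Fintype.piFinset C,
          ez (Pool.Agent.Y419.CX.lc g p) * sg (Pool.Agent.Y356.CQ.lc g' p))‖ := by
      rw [norm_mul, norm_mul, Complex.norm_natCast, Complex.norm_natCast]
    rw [e, ← h1]
    refine (norm_sum_le _ _).trans ?_
    refine (Finset.sum_le_sum fun p _ => h2 p).trans ?_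
    rw [Finset.sum_const, nsmul_eq_mul, Fintype.card_piFinset]
    push_cast
    exact le_rfl
  have h4 : ∏ j, ((C j).card : ℝ) = (C i).card * ((C l).card *
      ∏ j ∈ (univ.erase i).erase l, ((C j).card : ℝ)) := by
    rw [← Finset.mul_prod_erase univ _ (Finset.mem_univ i),
      ← Finset.mul_prod_erase (univ.erase i) _ (Finset.mem_erase.2 ⟨hil.symm, Finset.mem_univ l⟩)]
  have h5 : ∏ j, (X j : ℝ) = X i * (X l * ∏ j ∈ (univ.erase i).erase l, (X j : ℝ)) := by
    rw [← Finset.mul_prod_erase univ _ (Finset.mem_univ i),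
      ← Finset.mul_prod_erase (univ.erase i) _ (Finset.mem_erase.2 ⟨hil.symm, Finset.mem_univ l⟩)]
  rw [h4, mul_assoc, mul_assoc] at h3
  have h6 := le_of_mul_le_mul_left (le_of_mul_le_mul_left h3 hci) hcl
  refine h6.trans ?_
  have h7 : ∏ j ∈ (univ.erase i).erase l, ((C j).card : ℝ) ≤
      ∏ j ∈ (univ.erase i).erase l, (X j : ℝ) :=
    Finset.prod_le_prod (fun _ _ => Nat.cast_nonneg _) fun j _ => by exact_mod_cast hC j
  rw [h5]
  calc (∏ j ∈ (univ.erase i).erase l, ((C j).card : ℝ)) * (κ * (X i * X l)) ≤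
        (∏ j ∈ (univ.erase i).erase l, (X j : ℝ)) * (κ * (X i * X l)) := by
        gcongr
    _ = κ * (X i * (X l * ∏ j ∈ (univ.erase i).erase l, (X j : ℝ))) := by ring

end

section
variable {ι : Type} [Fintype ι] {E : Type} [Fintype E]

/-- the extension by zero -/
noncomputable def xt (s : E → ι × ι) (δ : E → ZMod 2) (x : ι × ι) : ZMod 2 :=
  ∑ e ∈ univ.filter (fun e => s e = x), δ e

theorem xt_at {s : E → ι × ι} (hs : Function.Injective s) (δ : E → ZMod 2) (e : E) :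
    xt s δ (s e) = δ e := by
  unfold xt
  have : univ.filter (fun e' => s e' = s e) = {e} := by
    ext e'
    simp only [Finset.mem_filter, Finset.mem_univ, true_and, Finset.mem_singleton]
    exact ⟨fun h => hs h, fun h => by rw [h]⟩
  rw [this, Finset.sum_singleton]

theorem xt_no {s : E → ι × ι} (δ : E → ZMod 2) (x : ι × ι) (h : ∀ e, s e ≠ x) :
    xt s δ x = 0 := by
  unfold xt
  have : univ.filter (fun e' => s e' = x) = ∅ := by
    rw [Finset.filter_eq_empty_iff]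
    exact fun e _ => h e
  rw [this, Finset.sum_empty]

theorem sum_xt (s : E → ι × ι) (δ : E → ZMod 2) (p : ι → ℕ) :
    ∑ e, δ e * nr (p (s e).1) (p (s e).2) = Pool.Agent.Y356.CQ.lc (xt s δ) p := by
  unfold Pool.Agent.Y356.CQ.lc xt
  rw [← Finset.sum_fiberwise_of_maps_to (s := (univ : Finset E)) (t := (univ : Finset (ι × ι)))
    (g := s) (fun _ _ => Finset.mem_univ _)]
  refine Finset.sum_congr rfl fun x _ => ?_
  rw [Finset.sum_mul]
  refine Finset.sum_congr rfl fun e he => ?_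
  rw [(Finset.mem_filter.1 he).2]

/-- the detection of one vector -/
theorem detect2 (a b : E → ZMod 2) :
    ∑ γ : E → ZMod 2, sg (∑ e : E, γ e * (b e - a e)) =
      if b = a then (2 : ℂ) ^ Fintype.card E else 0 := by
  have h1 : ∑ γ : E → ZMod 2, sg (∑ e : E, γ e * (b e - a e)) =
      ∏ e : E, ∑ c : ZMod 2, sg (c * (b e - a e)) := by
    rw [Finset.prod_univ_sum, Fintype.piFinset_univ]
    refine Finset.sum_congr rfl fun γ _ => ?_
    rw [Pool.Agent.Y356.CQ.sg_sum]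
  rw [h1]
  simp only [Pool.Agent.Y356.CQ.sum_sg]
  split_ifs with h
  · rw [Finset.prod_congr rfl (g := fun _ => (2 : ℂ)), Finset.prod_const, Finset.card_univ]
    intro e _
    rw [if_pos]
    rw [h, sub_self]
  · have h2 : ∃ e, b e ≠ a e := by
      by_contra h'
      push Not at h'
      exact h (funext h')
    obtain ⟨e, he⟩ := h2
    refine Finset.prod_eq_zero (Finset.mem_univ e) ?_
    rw [if_neg]
    exact sub_ne_zero.2 he

theorem norm_S {J3 : Finset ι} {C : ι → Finset ℕ} {X : ι → ℕ} {κ : ℝ} (hκ : 0 ≤ κ)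
    (hC : ∀ i, (C i).card ≤ X i) (HBh : HB J3 C X κ)
    (hsym : ∀ i l, i ≠ l → ∀ x ∈ C i, ∀ y ∈ C l, nr y x = nr x y)
    {s : E → ι × ι} (hs : Function.Injective s) (hs2 : ∀ e e', s e ≠ (s e').swap)
    (γ : Pool.Agent.Y703.CX.prs J3 → ZMod 3) (δ : E → ZMod 2) (hγ : γ ≠ 0 ∨ δ ≠ 0) :
    ‖∑ p ∈ Fintype.piFinset C,
      ez (∑ e : Pool.Agent.Y703.CX.prs J3, γ e * lam (p e.1.1) (p e.1.2)) *
      sg (∑ e : E, δ e * nr (p (s e).1) (p (s e).2))‖ ≤ κ * ∏ j, (X j : ℝ) := by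
  have e0 : ∑ p ∈ Fintype.piFinset C,
      ez (∑ e : Pool.Agent.Y703.CX.prs J3, γ e * lam (p e.1.1) (p e.1.2)) *
      sg (∑ e : E, δ e * nr (p (s e).1) (p (s e).2)) =
      ∑ p ∈ Fintype.piFinset C,
        ez (Pool.Agent.Y419.CX.lc
          (fun e => if h : e ∈ Pool.Agent.Y703.CX.prs J3 then γ ⟨e, h⟩ else 0) p) *
        sg (Pool.Agent.Y356.CQ.lc (xt s δ) p) := by
    refine Finset.sum_congr rfl fun p _ => ?_
    rw [Pool.Agent.Y419.CX.sum_ext, sum_xt]
  rw [e0]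
  have hg0 : ∀ i l, i ∉ J3 → (fun e => if h : e ∈ Pool.Agent.Y703.CX.prs J3 then γ ⟨e, h⟩ else 0 :
      ι × ι → ZMod 3) (i, l) = 0 := by
    intro i l h
    exact dif_neg fun h' => h (Finset.mem_filter.1 h').2.1
  rcases hγ with h | h
  · have h1 : ∃ e, γ e ≠ 0 := by
      by_contra h'
      push Not at h'
      exact h (funext h')
    obtain ⟨e, he⟩ := h1
    have hil : e.1.1 ≠ e.1.2 := fun h => (Finset.mem_filter.1 e.2).2.2 h.symm
    exact sum_lc hκ hC HBh hsym _ _ hg0 hil (Or.inl (by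
      show (if h : (e.1.1, e.1.2) ∈ Pool.Agent.Y703.CX.prs J3 then γ ⟨(e.1.1, e.1.2), h⟩ else 0) ≠ 0
      rw [dif_pos e.2]
      exact he))
  · have h1 : ∃ e, δ e ≠ 0 := by
      by_contra h'
      push Not at h'
      exact h (funext h')
    obtain ⟨e, he⟩ := h1
    have hil : (s e).1 ≠ (s e).2 := by
      intro h2
      refine hs2 e e (Prod.ext h2 h2.symm)
    refine sum_lc hκ hC HBh hsym _ _ hg0 (i := (s e).1) (l := (s e).2) hil
      (Or.inr (Or.inr ?_))
    have e1 : xt s δ ((s e).1, (s e).2) = δ e := xt_at hs δ e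
    have e2 : xt s δ ((s e).2, (s e).1) = 0 := xt_no δ _ fun e' h' => hs2 e' e h'
    rw [e1, e2, add_zero]
    exact he

/-- the count for one vector -/
theorem count_one {J3 : Finset ι} {C : ι → Finset ℕ} {X : ι → ℕ} {κ : ℝ} (hκ : 0 ≤ κ)
    (hC : ∀ i, (C i).card ≤ X i) (HBh : HB J3 C X κ)
    (hsym : ∀ i l, i ≠ l → ∀ x ∈ C i, ∀ y ∈ C l, nr y x = nr x y)
    {s : E → ι × ι} (hs : Function.Injective s) (hs2 : ∀ e e', s e ≠ (s e').swap)
    (a : Pool.Agent.Y703.CX.prs J3 → ZMod 3) (b : E → ZMod 2) :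
    |(((Fintype.piFinset C).filter fun p =>
        (fun e : Pool.Agent.Y703.CX.prs J3 => lam (p e.1.1) (p e.1.2)) = a ∧
        (fun e : E => nr (p (s e).1) (p (s e).2)) = b).card : ℝ)
      - (∏ j, ((C j).card : ℝ)) / (3 ^ (Pool.Agent.Y703.CX.prs J3).card * 2 ^ Fintype.card E)| ≤
      κ * ∏ j, (X j : ℝ) := by
  set m := (Pool.Agent.Y703.CX.prs J3).card with hm
  set m' := Fintype.card E with hm'
  set R : ℝ := κ * ∏ j, (X j : ℝ) with hR
  have hR0 : 0 ≤ R := mul_nonneg hκ (Finset.prod_nonneg fun j _ => Nat.cast_nonneg _)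
  have hpow : (0 : ℝ) < 3 ^ m * 2 ^ m' := by positivity
  set N : ℝ := (((Fintype.piFinset C).filter fun p =>
    (fun e : Pool.Agent.Y703.CX.prs J3 => lam (p e.1.1) (p e.1.2)) = a ∧
        (fun e : E => nr (p (s e).1) (p (s e).2)) = b).card : ℝ) with hN
  set S : ((Pool.Agent.Y703.CX.prs J3 → ZMod 3) × (E → ZMod 2)) → ℂ := fun x =>
    ∑ p ∈ Fintype.piFinset C,
    ez (∑ e : Pool.Agent.Y703.CX.prs J3, x.1 e * lam (p e.1.1) (p e.1.2)) *
      sg (∑ e : E, x.2 e * nr (p (s e).1) (p (s e).2)) with hS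
  have h1 : ((N * (3 ^ m * 2 ^ m') : ℝ) : ℂ) =
      ∑ x : (Pool.Agent.Y703.CX.prs J3 → ZMod 3) × (E → ZMod 2),
      ez (∑ e : Pool.Agent.Y703.CX.prs J3, x.1 e * (- a e)) *
        sg (∑ e : E, x.2 e * (- b e)) * S x := by
    have e1 : ((N * (3 ^ m * 2 ^ m') : ℝ) : ℂ) = ∑ p ∈ Fintype.piFinset C,
        (if (fun e : Pool.Agent.Y703.CX.prs J3 => lam (p e.1.1) (p e.1.2)) = a ∧
          (fun e : E => nr (p (s e).1) (p (s e).2)) = b then (3 : ℂ) ^ m * 2 ^ m' else 0) := by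
      rw [← Finset.sum_filter, Finset.sum_const, nsmul_eq_mul, hN]
      push_cast
      rfl
    rw [e1]
    have e2 : ∀ p ∈ Fintype.piFinset C,
        (if (fun e : Pool.Agent.Y703.CX.prs J3 => lam (p e.1.1) (p e.1.2)) = a ∧
          (fun e : E => nr (p (s e).1) (p (s e).2)) = b then (3 : ℂ) ^ m * 2 ^ m' else 0) =
        ∑ x : (Pool.Agent.Y703.CX.prs J3 → ZMod 3) × (E → ZMod 2),
          ez (∑ e : Pool.Agent.Y703.CX.prs J3, x.1 e * (- a e)) *
            sg (∑ e : E, x.2 e * (- b e)) *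
          (ez (∑ e : Pool.Agent.Y703.CX.prs J3, x.1 e * lam (p e.1.1) (p e.1.2)) *
            sg (∑ e : E, x.2 e * nr (p (s e).1) (p (s e).2))) := by
      intro p _
      have f1 := Pool.Agent.Y419.CX.detect (J1 := J3) a
        (fun e : Pool.Agent.Y703.CX.prs J3 => lam (p e.1.1) (p e.1.2))
      have f2 := detect2 b (fun e : E => nr (p (s e).1) (p (s e).2))
      have f3 : (if (fun e : Pool.Agent.Y703.CX.prs J3 => lam (p e.1.1) (p e.1.2)) = a ∧
          (fun e : E => nr (p (s e).1) (p (s e).2)) = b then (3 : ℂ) ^ m * 2 ^ m' else 0) =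
          (if (fun e : Pool.Agent.Y703.CX.prs J3 => lam (p e.1.1) (p e.1.2)) = a
            then (3 : ℂ) ^ m else 0) *
          (if (fun e : E => nr (p (s e).1) (p (s e).2)) = b then (2 : ℂ) ^ m' else 0) := by
        by_cases c1 : (fun e : Pool.Agent.Y703.CX.prs J3 => lam (p e.1.1) (p e.1.2)) = a
        · by_cases c2 : (fun e : E => nr (p (s e).1) (p (s e).2)) = b
          · rw [if_pos ⟨c1, c2⟩, if_pos c1, if_pos c2]
          · rw [if_neg (fun h => c2 h.2), if_neg c2, mul_zero]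
        · rw [if_neg (fun h => c1 h.1), if_neg c1, zero_mul]
      rw [f3, hm, hm', ← f1, ← f2, Finset.sum_mul_sum, ← Finset.sum_product',
        Finset.univ_product_univ]
      refine Finset.sum_congr rfl fun x _ => ?_
      have g1 : ez (∑ e : Pool.Agent.Y703.CX.prs J3, x.1 e * (lam (p e.1.1) (p e.1.2) - a e)) =
          ez (∑ e : Pool.Agent.Y703.CX.prs J3, x.1 e * (- a e)) *
            ez (∑ e : Pool.Agent.Y703.CX.prs J3, x.1 e * lam (p e.1.1) (p e.1.2)) := by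
        rw [← ez_add, ← Finset.sum_add_distrib]
        congr 1
        refine Finset.sum_congr rfl fun e _ => ?_
        ring
      have g2 : sg (∑ e : E, x.2 e * (nr (p (s e).1) (p (s e).2) - b e)) =
          sg (∑ e : E, x.2 e * (- b e)) *
            sg (∑ e : E, x.2 e * nr (p (s e).1) (p (s e).2)) := by
        rw [← sg_add, ← Finset.sum_add_distrib]
        congr 1
        refine Finset.sum_congr rfl fun e _ => ?_
        ring
      rw [g1, g2]
      ring
    rw [Finset.sum_congr rfl e2, Finset.sum_comm]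
    refine Finset.sum_congr rfl fun γ _ => ?_
    rw [hS, Finset.mul_sum]
  have h2 : S 0 = ((∏ j, ((C j).card : ℝ) : ℝ) : ℂ) := by
    rw [hS]
    simp only [Prod.fst_zero, Prod.snd_zero, Pi.zero_apply, zero_mul, Finset.sum_const_zero,
      ez_zero, sg_zero, Finset.sum_const, nsmul_eq_mul, mul_one]
    rw [Fintype.card_piFinset]
    push_cast
    rfl
  have h3 : ‖((N * (3 ^ m * 2 ^ m') : ℝ) : ℂ) - ((∏ j, ((C j).card : ℝ) : ℝ) : ℂ)‖ ≤
      (3 ^ m * 2 ^ m') * R := by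
    rw [h1, ← h2, ← Finset.add_sum_erase univ _
      (Finset.mem_univ (0 : (Pool.Agent.Y703.CX.prs J3 → ZMod 3) × (E → ZMod 2)))]
    have e0 : ez (∑ e : Pool.Agent.Y703.CX.prs J3,
        (0 : (Pool.Agent.Y703.CX.prs J3 → ZMod 3) × (E → ZMod 2)).1 e * (- a e)) = 1 := by
      simp only [Prod.fst_zero, Pi.zero_apply, zero_mul, Finset.sum_const_zero, ez_zero]
    have e0' : sg (∑ e : E,
        (0 : (Pool.Agent.Y703.CX.prs J3 → ZMod 3) × (E → ZMod 2)).2 e * (- b e)) = 1 := by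
      simp only [Prod.snd_zero, Pi.zero_apply, zero_mul, Finset.sum_const_zero, sg_zero]
    rw [e0, e0', one_mul, one_mul, add_sub_cancel_left]
    refine (norm_sum_le _ _).trans ?_
    have h4 : ∀ x ∈ univ.erase (0 : (Pool.Agent.Y703.CX.prs J3 → ZMod 3) × (E → ZMod 2)),
        ‖ez (∑ e : Pool.Agent.Y703.CX.prs J3, x.1 e * (- a e)) *
          sg (∑ e : E, x.2 e * (- b e)) * S x‖ ≤ R := by
      intro x hx
      rw [norm_mul, norm_mul, norm_ez, norm_sg, one_mul, one_mul]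
      refine norm_S hκ hC HBh hsym hs hs2 x.1 x.2 ?_
      by_contra hcon
      push Not at hcon
      exact (Finset.mem_erase.1 hx).1 (Prod.ext hcon.1 hcon.2)
    refine (Finset.sum_le_card_nsmul _ _ _ h4).trans ?_
    rw [nsmul_eq_mul]
    refine mul_le_mul_of_nonneg_right ?_ hR0
    have h5 : (univ.erase (0 : (Pool.Agent.Y703.CX.prs J3 → ZMod 3) × (E → ZMod 2))).card ≤
        3 ^ m * 2 ^ m' := by
      refine (Finset.card_le_univ _).trans (le_of_eq ?_)
      rw [Fintype.card_prod, Fintype.card_fun, ZMod.card, Fintype.card_coe, Fintype.card_fun,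
        ZMod.card]
    exact_mod_cast h5
  rw [← Complex.ofReal_sub, Complex.norm_real, Real.norm_eq_abs] at h3
  have h4 : N - (∏ j, ((C j).card : ℝ)) / (3 ^ m * 2 ^ m') =
      (N * (3 ^ m * 2 ^ m') - ∏ j, ((C j).card : ℝ)) / (3 ^ m * 2 ^ m') := by
    rw [sub_div, mul_div_cancel_right₀ _ hpow.ne']
  rw [h4, abs_div, abs_of_pos hpow, div_le_iff₀ hpow, mul_comm R]
  exact h3

theorem eq_gen {J3 : Finset ι} {C : ι → Finset ℕ} {X : ι → ℕ} {κ : ℝ} (hκ : 0 ≤ κ)
    (hC : ∀ i, (C i).card ≤ X i) (HBh : HB J3 C X κ)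
    (hsym : ∀ i l, i ≠ l → ∀ x ∈ C i, ∀ y ∈ C l, nr y x = nr x y)
    {s : E → ι × ι} (hs : Function.Injective s) (hs2 : ∀ e e', s e ≠ (s e').swap)
    (Q : (Pool.Agent.Y703.CX.prs J3 → ZMod 3) → Prop) (R : (E → ZMod 2) → Prop) :
    |(((Fintype.piFinset C).filter fun p => Q (fun e => lam (p e.1.1) (p e.1.2)) ∧
        R fun e => nr (p (s e).1) (p (s e).2)).card : ℝ) -
      ((univ.filter Q).card : ℝ) / 3 ^ (Pool.Agent.Y703.CX.prs J3).card *
        (((univ.filter R).card : ℝ) / 2 ^ Fintype.card E) * ∏ j, ((C j).card : ℝ)| ≤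
    3 ^ (Pool.Agent.Y703.CX.prs J3).card * 2 ^ Fintype.card E *
      (κ * ∏ j, (X j : ℝ)) := by
  set T : Finset ((Pool.Agent.Y703.CX.prs J3 → ZMod 3) × (E → ZMod 2)) :=
    (univ.filter Q) ×ˢ (univ.filter R) with hT
  have h1 : (((Fintype.piFinset C).filter fun p => Q (fun e => lam (p e.1.1) (p e.1.2)) ∧
      R fun e => nr (p (s e).1) (p (s e).2)).card : ℝ) =
      ∑ x ∈ T, (((Fintype.piFinset C).filter fun p =>
        (fun e : Pool.Agent.Y703.CX.prs J3 => lam (p e.1.1) (p e.1.2)) = x.1 ∧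
        (fun e : E => nr (p (s e).1) (p (s e).2)) = x.2).card : ℝ) := by
    rw [Finset.card_eq_sum_card_fiberwise (f := fun (p : ι → ℕ) =>
      (((fun e : Pool.Agent.Y703.CX.prs J3 => lam (p e.1.1) (p e.1.2)),
        fun e : E => nr (p (s e).1) (p (s e).2)) :
        (Pool.Agent.Y703.CX.prs J3 → ZMod 3) × (E → ZMod 2))) (t := T) (by
        intro p hp
        rw [Finset.mem_coe, Finset.mem_filter] at hp
        rw [Finset.mem_coe, hT, Finset.mem_product, Finset.mem_filter, Finset.mem_filter]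
        exact ⟨⟨Finset.mem_univ _, hp.2.1⟩, ⟨Finset.mem_univ _, hp.2.2⟩⟩)]
    push_cast
    refine Finset.sum_congr rfl fun a ha => ?_
    rw [hT, Finset.mem_product, Finset.mem_filter, Finset.mem_filter] at ha
    congr 2
    ext p
    simp only [Finset.mem_filter]
    constructor
    · rintro ⟨⟨h2, h3⟩, h4⟩
      exact ⟨h2, congrArg Prod.fst h4, congrArg Prod.snd h4⟩
    · rintro ⟨h2, h3, h4⟩
      exact ⟨⟨h2, by rw [h3]; exact ha.1.2, by rw [h4]; exact ha.2.2⟩, Prod.ext h3 h4⟩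
  have h2 : ((univ.filter Q).card : ℝ) / 3 ^ (Pool.Agent.Y703.CX.prs J3).card *
      (((univ.filter R).card : ℝ) / 2 ^ Fintype.card E) * ∏ j, ((C j).card : ℝ) =
      ∑ a ∈ T, (∏ j, ((C j).card : ℝ)) /
        (3 ^ (Pool.Agent.Y703.CX.prs J3).card * 2 ^ Fintype.card E) := by
    rw [Finset.sum_const, nsmul_eq_mul, hT, Finset.card_product, Nat.cast_mul, div_mul_div_comm,
      div_mul_eq_mul_div, mul_div_assoc]
  rw [h1, h2, ← Finset.sum_sub_distrib]
  refine (Finset.abs_sum_le_sum_abs _ _).trans ?_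
  refine (Finset.sum_le_card_nsmul _ _ _
    (fun a _ => count_one hκ hC HBh hsym hs hs2 a.1 a.2)).trans ?_
  rw [nsmul_eq_mul]
  have hR0 : 0 ≤ κ * ∏ j, (X j : ℝ) :=
    mul_nonneg hκ (Finset.prod_nonneg fun j _ => Nat.cast_nonneg _)
  refine mul_le_mul_of_nonneg_right ?_ hR0
  have h5 : T.card ≤ 3 ^ (Pool.Agent.Y703.CX.prs J3).card * 2 ^ Fintype.card E := by
    refine (Finset.card_le_univ _).trans (le_of_eq ?_)
    rw [Fintype.card_prod, Fintype.card_fun, ZMod.card, Fintype.card_coe, Fintype.card_fun,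
        ZMod.card]
  exact_mod_cast h5

end

theorem eq_dec (ι : Type) [Fintype ι] [inst : DecidableEq ι] {J3 : Finset ι} {C : ι → Finset ℕ}
    {X : ι → ℕ} {κ : ℝ} (hκ : 0 ≤ κ)
    (hC : ∀ i, (C i).card ≤ X i) (HBh : HB J3 C X κ)
    (hsym : ∀ i l, i ≠ l → ∀ x ∈ C i, ∀ y ∈ C l, nr y x = nr x y)
    (J : Finset (ι × ι)) (hs2 : ∀ e ∈ J, ∀ e' ∈ J, e ≠ e'.swap)
    (Q : (Pool.Agent.Y703.CX.prs J3 → ZMod 3) → Prop) (R : (J → ZMod 2) → Prop) :
    |(((Fintype.piFinset C).filter fun p => Q (fun e => lam (p e.1.1) (p e.1.2)) ∧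
        R fun e => nr (p e.1.1) (p e.1.2)).card : ℝ) -
      ((univ.filter Q).card : ℝ) / 3 ^ (Pool.Agent.Y703.CX.prs J3).card *
        (((univ.filter R).card : ℝ) / 2 ^ J.card) * ∏ j, ((C j).card : ℝ)| ≤
    3 ^ (Pool.Agent.Y703.CX.prs J3).card * 2 ^ J.card * (κ * ∏ j, (X j : ℝ)) := by
  have e : inst = fun a b => Classical.propDecidable _ := Subsingleton.elim _ _
  subst e
  have h := eq_gen (E := J) hκ hC HBh hsym (s := fun e => e.1) Subtype.val_injective
    (fun e e' => hs2 e.1 e.2 e'.1 e'.2) Q R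
  rw [Fintype.card_coe] at h
  have e2 : (fun a b : J => Classical.propDecidable (a = b)) =
      (Subtype.instDecidableEq : DecidableEq J) := Subsingleton.elim _ _
  rw [e2] at h
  exact h

theorem t_EQ : S_EQ := by
  intro ι _ _ J3 J2 C X κ hκ hC HBh hsym Q R
  refine eq_dec ι hκ hC HBh hsym (Pool.Agent.Y703.CQ.prs J2) ?_ Q R
  intro e he e' he' h
  obtain ⟨-, h1, h2, h3⟩ := Finset.mem_filter.1 he
  obtain ⟨-, h1', h2', h3'⟩ := Finset.mem_filter.1 he'
  have a1 : e.1 = e'.2 := congrArg Prod.fst h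
  have a2 : e.2 = e'.1 := congrArg Prod.snd h
  have b1 := h3 (a2 ▸ h1')
  have b2 := h3' (a1 ▸ h1)
  rw [a1, a2] at b1
  exact lt_irrefl _ (b1.trans b2)

end Pool.Agent.L0h2.J.EQ
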