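import Pool.Agent.L0h2.J.Stm
import Pool.Agent.R413.SQ.FEW

/-!
# Project J: few sets have few large primes of one of the kinds (after helper362's files)
-/

set_option autoImplicit false

open scoped Classical

namespace Pool.Agent.L0h2.J.FEW

open Finset Filter
open Pool.Agent.Y703.CX (sm la eL zz S_SIE)
open Pool.Agent.R413.SQ renaming mk → mk7
open Pool.Agent.L0h2.J
open Pool.Agent.Y495.CX.Few (PN euler prod_pos' le_of_mem_prod mert eL_tendsto log_small zz_ge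
  loglog_zz rpow_eq)

lemma SS_mem {X : ℕ} {S : Finset ℕ} (h : S ∈ SS X) :
    (∀ p ∈ S, p.Prime ∧ p % 4 = 1) ∧ (S.filter fun p => p % 3 = 2).card = 1 ∧ ∏ p ∈ S, p ≤ X := by
  unfold SS at h
  rw [mem_filter] at h
  exact ⟨h.2.1.1, h.2.1.2.1, h.2.2⟩

/-- sets with many small primes -/
lemma part1 : ∃ C : ℝ, 0 ≤ C ∧ ∀ᶠ X : ℕ in atTop,
    (((SS X).filter fun S => eL X / 80 < ((sm (zz X) S).card : ℝ)).card : ℝ) ≤
      C * X * Real.exp (-(4 / 5) * eL X) := by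
  obtain ⟨C, hC0, hC⟩ := mert
  set κ : ℝ := Real.exp 80 with hκ
  have κ0 : 0 < κ := Real.exp_pos _
  refine ⟨Real.exp (κ * C), (Real.exp_pos _).le, ?_⟩
  filter_upwards [eL_tendsto.eventually (log_small (3 * κ) (1 / 5) (by norm_num)),
    eL_tendsto.eventually (eventually_ge_atTop 2)] with X h1 h2
  have h3 := Pool.Agent.R413.SQ.FEW.moment X (zz X) (SS X)
    (fun S hS => ⟨fun p hp => ((SS_mem hS).1 p hp).1, (SS_mem hS).2.2⟩) κ κ0.le
  have h4 := hC (zz X) (zz_ge h2)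
  have h5 := loglog_zz h2
  have h6 : (((SS X).filter fun S => eL X / 80 < ((sm (zz X) S).card : ℝ)).card : ℝ) *
      Real.exp (eL X) ≤ ∑ S ∈ SS X, κ ^ (sm (zz X) S).card := by
    rw [← nsmul_eq_mul, ← sum_const]
    refine le_trans ?_ (sum_le_sum_of_subset_of_nonneg
      (filter_subset (fun S => eL X / 80 < ((sm (zz X) S).card : ℝ)) (SS X))
      fun S _ _ => by positivity)
    refine sum_le_sum fun S hS => ?_
    rw [mem_filter] at hS
    rw [hκ, ← Real.exp_nat_mul]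
    apply Real.exp_le_exp.2
    linarith [hS.2]
  have h7 := h6.trans h3
  have h8 : κ * ∑ p ∈ PN (zz X), (1 : ℝ) / p ≤ κ * C + 1 / 5 * eL X := by
    have : κ * ∑ p ∈ PN (zz X), (1 : ℝ) / p ≤ κ * (3 * Real.log (eL X) + C) :=
      mul_le_mul_of_nonneg_left (by linarith) κ0.le
    nlinarith
  have h9 : (X : ℝ) * Real.exp (κ * ∑ p ∈ PN (zz X), (1 : ℝ) / p) ≤
      X * (Real.exp (κ * C) * Real.exp (1 / 5 * eL X)) := by
    rw [← Real.exp_add]
    exact mul_le_mul_of_nonneg_left (Real.exp_le_exp.2 h8) (Nat.cast_nonneg _)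
  have h10 := h7.trans h9
  have h11 : (Real.exp (κ * C) * X * Real.exp (-(4 / 5) * eL X)) * Real.exp (eL X) =
      X * (Real.exp (κ * C) * Real.exp (1 / 5 * eL X)) := by
    have : Real.exp (1 / 5 * eL X) = Real.exp (-(4 / 5) * eL X) * Real.exp (eL X) := by
      rw [← Real.exp_add]
      congr 1
      ring
    rw [this]
    ring
  rw [← h11] at h10
  exact le_of_mul_le_mul_right h10 (Real.exp_pos _)

/-- Mertens' theorem for several classes -/
lemma mer_set (hm : S_MER) (A : Finset ℕ) (hA : ∀ a ∈ A, Nat.Coprime a 252 ∧ a % 252 = a) :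
    ∃ C : ℝ, 0 ≤ C ∧ ∀ y : ℕ, 3 ≤ y →
      ∑ p ∈ (PN y).filter (fun p => p % 252 ∈ A), (1 : ℝ) / p ≤
        (A.card : ℝ) / 72 * Real.log (Real.log y) + C := by
  have h1 : ∀ a : ℕ, ∃ C : ℝ, Nat.Coprime a 252 → ∀ y : ℕ, 3 ≤ y →
      |∑ p ∈ (range (y + 1)).filter (fun p => p.Prime ∧ p % 252 = a % 252), (1 : ℝ) / p -
        1 / 72 * Real.log (Real.log y)| ≤ C := by
    intro a
    by_cases h : Nat.Coprime a 252
    · obtain ⟨C, hC⟩ := hm a h
      exact ⟨C, fun _ => hC⟩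
    · exact ⟨0, fun h' => absurd h' h⟩
  choose c hc using h1
  refine ⟨∑ a ∈ A, |c a|, sum_nonneg fun a _ => abs_nonneg _, fun y hy => ?_⟩
  have h2 : ∀ p ∈ (PN y).filter (fun p => p % 252 ∈ A), p % 252 ∈ A := fun p hp =>
    (mem_filter.1 hp).2
  rw [← sum_fiberwise_of_maps_to h2]
  have h3 : ∀ a ∈ A, ∑ p ∈ ((PN y).filter (fun p => p % 252 ∈ A)).filter
      (fun p => p % 252 = a), (1 : ℝ) / p ≤ 1 / 72 * Real.log (Real.log y) + |c a| := by
    intro a ha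
    have h4 := (abs_le.1 (hc a (hA a ha).1 y hy)).2
    have h5 : ∑ p ∈ ((PN y).filter (fun p => p % 252 ∈ A)).filter
        (fun p => p % 252 = a), (1 : ℝ) / p ≤
        ∑ p ∈ (range (y + 1)).filter (fun p => p.Prime ∧ p % 252 = a % 252), (1 : ℝ) / p := by
      refine sum_le_sum_of_subset_of_nonneg ?_ fun p _ _ => by positivity
      intro p hp
      rw [mem_filter, mem_filter, mem_filter, mem_Icc] at hp
      rw [mem_filter, mem_range, (hA a ha).2]
      exact ⟨by omega, hp.1.1.2, hp.2⟩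
    have h6 := le_abs_self (c a)
    linarith
  refine (sum_le_sum h3).trans (le_of_eq ?_)
  rw [sum_add_distrib, sum_const, nsmul_eq_mul]
  ring

/-- the primes `≡ 1` modulo `12` split in `ℚ(√-7)` -/
def Sq (p : ℕ) : Prop := p.Prime ∧ p % 12 = 1 ∧ mk7 p = 1

/-- the primes `≡ 1` modulo `12` not split in `ℚ(√-7)` -/
def Iq (p : ℕ) : Prop := p.Prime ∧ p % 12 = 1 ∧ mk7 p ≠ 1

/-- the classes of the split primes -/
def AS : Finset ℕ := (range 252).filter fun a => a % 12 = 1 ∧ (a % 7 = 1 ∨ a % 7 = 2 ∨ a % 7 = 4)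

/-- the classes of the inert primes -/
def AI : Finset ℕ := (range 252).filter fun a => a % 12 = 1 ∧ (a % 7 = 3 ∨ a % 7 = 5 ∨ a % 7 = 6)

lemma AS_mem {p : ℕ} (h : Sq p) : p % 252 ∈ AS := by
  obtain ⟨_, h2, h1⟩ := h
  have h1' : p % 7 = 1 ∨ p % 7 = 2 ∨ p % 7 = 4 := by
    unfold mk7 at h1
    by_contra hc
    rw [if_neg hc] at h1
    omega
  have e1 : p % 252 % 12 = 1 := by omega
  have e2 : p % 252 % 7 = p % 7 := by omega
  unfold AS
  rw [mem_filter, mem_range, e2]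
  exact ⟨Nat.mod_lt _ (by norm_num), e1, h1'⟩

lemma AI_mem {p : ℕ} (h : Iq p) : p % 252 ∈ AI := by
  obtain ⟨hp, h4, hm⟩ := h
  have h7 : p % 7 ≠ 0 := by
    intro h0
    have h1 : 7 ∣ p := Nat.dvd_of_mod_eq_zero h0
    have h2 := (Nat.prime_dvd_prime_iff_eq (by norm_num) hp).1 h1
    omega
  have h8 : ¬ (p % 7 = 1 ∨ p % 7 = 2 ∨ p % 7 = 4) := by
    intro hc
    apply hm
    unfold mk7
    rw [if_pos hc]
  have e1 : p % 252 % 12 = 1 := by omega
  have e2 : p % 252 % 7 = p % 7 := by omega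
  unfold AI
  rw [mem_filter, mem_range, e2]
  exact ⟨Nat.mod_lt _ (by norm_num), e1, by omega⟩

lemma AS_cop : ∀ a ∈ AS, Nat.Coprime a 252 ∧ a % 252 = a := by
  unfold AS
  decide

lemma AI_cop : ∀ a ∈ AI, Nat.Coprime a 252 ∧ a % 252 = a := by
  unfold AI
  decide

lemma AS_card : AS.card = 9 := by
  unfold AS
  decide

lemma AI_card : AI.card = 9 := by
  unfold AI
  decide

/-- the reciprocals of the split primes -/
lemma mer_S (hm : S_MER) : ∃ C : ℝ, 0 ≤ C ∧ ∀ y : ℕ, 3 ≤ y →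
    ∑ p ∈ (PN y).filter Sq, (1 : ℝ) / p ≤ 1 / 8 * Real.log (Real.log y) + C := by
  obtain ⟨C, hC0, hC⟩ := mer_set hm AS AS_cop
  refine ⟨C, hC0, fun y hy => ?_⟩
  have h1 : (AS.card : ℝ) / 72 = 1 / 8 := by
    rw [AS_card]
    norm_num
  rw [← h1]
  refine le_trans ?_ (hC y hy)
  refine sum_le_sum_of_subset_of_nonneg ?_ fun p _ _ => by positivity
  intro p hp
  rw [mem_filter] at hp ⊢
  exact ⟨hp.1, AS_mem hp.2⟩

/-- the reciprocals of the inert primes -/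
lemma mer_I (hm : S_MER) : ∃ C : ℝ, 0 ≤ C ∧ ∀ y : ℕ, 3 ≤ y →
    ∑ p ∈ (PN y).filter Iq, (1 : ℝ) / p ≤ 1 / 8 * Real.log (Real.log y) + C := by
  obtain ⟨C, hC0, hC⟩ := mer_set hm AI AI_cop
  refine ⟨C, hC0, fun y hy => ?_⟩
  have h1 : (AI.card : ℝ) / 72 = 1 / 8 := by
    rw [AI_card]
    norm_num
  rw [← h1]
  refine le_trans ?_ (hC y hy)
  refine sum_le_sum_of_subset_of_nonneg ?_ fun p _ _ => by positivity
  intro p hp
  rw [mem_filter] at hp ⊢
  exact ⟨hp.1, AI_mem hp.2⟩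

/-- a family of sets of primes of the class with a condition on the large primes -/
noncomputable def LL (X : ℕ) (Q : Finset ℕ → Prop) : Finset (Finset ℕ) :=
  (range (X + 1)).powerset.filter fun S => (∀ p ∈ S, p.Prime ∧ p % 4 = 1) ∧ ∏ p ∈ S, p ≤ X ∧
    (S.filter fun p => p % 3 = 2).card ≤ 1 ∧ Q S

lemma mem_LL {X : ℕ} {Q : Finset ℕ → Prop} {S : Finset ℕ} :
    S ∈ LL X Q ↔ S ⊆ range (X + 1) ∧ (∀ p ∈ S, p.Prime ∧ p % 4 = 1) ∧ ∏ p ∈ S, p ≤ X ∧
      (S.filter fun p => p % 3 = 2).card ≤ 1 ∧ Q S := by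
  unfold LL
  rw [mem_filter, mem_powerset]

lemma LL_sub {X : ℕ} {Q : Finset ℕ → Prop} (hQ : ∀ S, Q S → ∀ T, T ⊆ S → Q T)
    {S T : Finset ℕ} (hS : S ∈ LL X Q) (h : T ⊆ S) : T ∈ LL X Q := by
  rw [mem_LL] at hS ⊢
  obtain ⟨a0, a1, a2, a3, a4⟩ := hS
  refine ⟨h.trans a0, fun p hp => a1 p (h hp), ?_,
    (card_le_card (filter_subset_filter _ h)).trans a3, hQ S a4 T h⟩
  refine le_trans ?_ a2
  exact prod_le_prod_of_subset_of_one_le' h fun p hp _ => (a1 p hp).1.one_lt.le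

lemma mem_LL_of {X : ℕ} {Q : Finset ℕ → Prop} {S : Finset ℕ}
    (hS : S ∈ SS X) (hQ : Q S) : S ∈ LL X Q := by
  obtain ⟨a1, a2, a3⟩ := SS_mem hS
  rw [mem_LL]
  refine ⟨?_, a1, a3, a2.le, hQ⟩
  intro p hp
  rw [mem_range]
  have := le_of_mem_prod (fun p hp => (a1 p hp).1) a3 hp
  omega

/-- the logarithmic density of a family -/
lemma LL_sum (X z : ℕ) (Q : Finset ℕ → Prop) (w : ℕ → ℝ) (M s t Λ : ℝ)
    (hw : ∀ p, 0 ≤ w p) (hM : 0 ≤ M) (hs : 0 ≤ s) (ht : 0 ≤ t) (hΛ : 1 ≤ Λ)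
    (h1w : ∀ S ∈ LL X Q, 1 ≤ M * ∏ p ∈ S, w p) (hz : ∀ p, w p ≤ 1)
    (hS : ∀ p, Sq p → z < p → w p ≤ s) (hI : ∀ p, Iq p → z < p → w p ≤ t) :
    ∑ S ∈ LL X Q, (1 : ℝ) / ((∏ p ∈ S, p : ℕ) : ℝ) ≤ M * Λ *
      Real.exp (∑ p ∈ PN z, (1 : ℝ) / p + s * ∑ p ∈ (PN X).filter Sq, (1 : ℝ) / p +
        t * ∑ p ∈ (PN X).filter Iq, (1 : ℝ) / p + 1 / Λ * ∑ p ∈ PN X, (1 : ℝ) / p) := by
  have Λ0 : 0 < Λ := by linarith
  have hL1 : 1 / Λ ≤ 1 := by rw [div_le_one Λ0]; exact hΛ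
  have hL0 : 0 ≤ 1 / Λ := by positivity
  set v : ℕ → ℝ := fun p => w p * (if ¬ p ≤ z ∧ p % 3 = 2 then 1 / Λ else 1) with hv
  have hv0 : ∀ p, 0 ≤ v p := by
    intro p
    refine mul_nonneg (hw p) ?_
    split_ifs
    · exact hL0
    · exact zero_le_one
  have h1v : ∀ S ∈ LL X Q, 1 ≤ M * Λ * ∏ p ∈ S, v p := by
    intro S hS
    have h2 := h1w S hS
    have h3 : (S.filter fun p => ¬ p ≤ z ∧ p % 3 = 2).card ≤ 1 := by
      refine (card_le_card ?_).trans (mem_LL.1 hS).2.2.2.1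
      intro p hp
      rw [mem_filter] at hp ⊢
      exact ⟨hp.1, hp.2.2⟩
    have h4 : (1 / Λ) ^ 1 ≤ (1 / Λ) ^ (S.filter fun p => ¬ p ≤ z ∧ p % 3 = 2).card :=
      pow_le_pow_of_le_one hL0 hL1 h3
    have h5 : ∏ p ∈ S, v p = (∏ p ∈ S, w p) *
        (1 / Λ) ^ (S.filter fun p => ¬ p ≤ z ∧ p % 3 = 2).card := by
      rw [hv, prod_mul_distrib, ← prod_filter, prod_const]
    rw [h5]
    rw [pow_one] at h4
    have h6 : 0 ≤ ∏ p ∈ S, w p := prod_nonneg fun p _ => hw p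
    calc (1 : ℝ) ≤ M * ∏ p ∈ S, w p := h2
      _ = (M * ∏ p ∈ S, w p) * (Λ * (1 / Λ)) := by
          rw [mul_one_div_cancel Λ0.ne', mul_one]
      _ ≤ (M * ∏ p ∈ S, w p) * (Λ * (1 / Λ) ^ (S.filter fun p => ¬ p ≤ z ∧ p % 3 = 2).card) :=
          mul_le_mul_of_nonneg_left (mul_le_mul_of_nonneg_left h4 Λ0.le) (mul_nonneg hM h6)
      _ = _ := by ring
  have h1 : ∀ S ∈ LL X Q, (1 : ℝ) / ((∏ p ∈ S, p : ℕ) : ℝ) ≤
      (M * Λ) * ∏ p ∈ S, (v p * (1 / p)) := by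
    intro S hS
    have h2 := h1v S hS
    have h3 : (0 : ℝ) ≤ ∏ p ∈ S, (1 : ℝ) / p := prod_nonneg fun p _ => by positivity
    have h4 : (1 : ℝ) / ((∏ p ∈ S, p : ℕ) : ℝ) = ∏ p ∈ S, (1 : ℝ) / p := by
      rw [prod_div_distrib, prod_const_one]
      push_cast
      rfl
    rw [h4, prod_mul_distrib]
    calc ∏ p ∈ S, (1 : ℝ) / p = 1 * ∏ p ∈ S, (1 : ℝ) / p := (one_mul _).symm
      _ ≤ (M * Λ * ∏ p ∈ S, v p) * ∏ p ∈ S, (1 : ℝ) / p :=
          mul_le_mul_of_nonneg_right h2 h3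
      _ = _ := by ring
  refine (sum_le_sum h1).trans ?_
  rw [← mul_sum]
  apply mul_le_mul_of_nonneg_left _ (mul_nonneg hM Λ0.le)
  have hnn : ∀ p : ℕ, 0 ≤ v p * (1 / (p : ℝ)) := fun p => mul_nonneg (hv0 p) (by positivity)
  have h5 : ∑ S ∈ LL X Q, ∏ p ∈ S, (v p * (1 / (p : ℝ))) ≤
      ∑ S ∈ ((PN X).filter fun p => p % 4 = 1).powerset, ∏ p ∈ S, (v p * (1 / (p : ℝ))) := by
    refine sum_le_sum_of_subset_of_nonneg ?_ fun S _ _ => prod_nonneg fun p _ => hnn p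
    intro S hS
    rw [mem_LL] at hS
    rw [mem_powerset]
    intro p hp
    have h6 := (hS.2.1 p hp).1
    rw [mem_filter, mem_filter, mem_Icc]
    exact ⟨⟨⟨h6.one_lt.le, le_of_mem_prod (fun p hp => (hS.2.1 p hp).1) hS.2.2.1 hp⟩, h6⟩,
      (hS.2.1 p hp).2⟩
  refine h5.trans ((euler _ _ fun p _ => hnn p).trans ?_)
  apply Real.exp_le_exp.2
  have hA : ∀ p ∈ (PN X).filter (fun p => p % 4 = 1), v p * (1 / (p : ℝ)) ≤
      (if p ≤ z then (1 : ℝ) / p else 0) + ((if Sq p then s * (1 / (p : ℝ)) else 0) +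
        ((if Iq p then t * (1 / (p : ℝ)) else 0) + 1 / Λ * (1 / (p : ℝ)))) := by
    intro p hp
    have hp0 : (0 : ℝ) ≤ 1 / p := by positivity
    have e1 : (0 : ℝ) ≤ if Sq p then s * (1 / (p : ℝ)) else 0 := by
      split_ifs
      · positivity
      · exact le_refl _
    have e2 : (0 : ℝ) ≤ if Iq p then t * (1 / (p : ℝ)) else 0 := by
      split_ifs
      · positivity
      · exact le_refl _
    have e3 : (0 : ℝ) ≤ 1 / Λ * (1 / (p : ℝ)) := mul_nonneg hL0 hp0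
    by_cases hpz : p ≤ z
    · rw [if_pos hpz]
      have h7 : v p ≤ 1 := by
        rw [hv]
        simp only
        rw [if_neg (fun h => h.1 hpz), mul_one]
        exact hz p
      have := mul_le_mul_of_nonneg_right h7 hp0
      linarith
    · rw [if_neg hpz]
      by_cases h2 : p % 3 = 2
      · have h7 : v p ≤ 1 / Λ := by
          rw [hv]
          simp only
          rw [if_pos ⟨hpz, h2⟩]
          calc w p * (1 / Λ) ≤ 1 * (1 / Λ) := mul_le_mul_of_nonneg_right (hz p) hL0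
            _ = _ := one_mul _
        have := mul_le_mul_of_nonneg_right h7 hp0
        linarith
      · have h7 : v p = w p := by
          rw [hv]
          simp only
          rw [if_neg (fun h => h2 h.2), mul_one]
        rw [h7]
        rw [mem_filter, mem_filter] at hp
        have hp3 : p % 3 ≠ 0 := by
          intro h0
          have h8 := (Nat.prime_dvd_prime_iff_eq Nat.prime_three hp.1.2).1
            (Nat.dvd_of_mod_eq_zero h0)
          omega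
        have h12 : p % 12 = 1 := by omega
        by_cases hm : mk7 p = 1
        · have h8 : Sq p := ⟨hp.1.2, h12, hm⟩
          rw [if_pos h8]
          have := mul_le_mul_of_nonneg_right (hS p h8 (not_le.1 hpz)) hp0
          linarith
        · have h8 : Iq p := ⟨hp.1.2, h12, hm⟩
          rw [if_pos h8]
          have := mul_le_mul_of_nonneg_right (hI p h8 (not_le.1 hpz)) hp0
          linarith
  refine (sum_le_sum hA).trans ?_
  have h7 : ∑ p ∈ (PN X).filter (fun p => p % 4 = 1),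
      ((if p ≤ z then (1 : ℝ) / p else 0) + ((if Sq p then s * (1 / (p : ℝ)) else 0) +
        ((if Iq p then t * (1 / (p : ℝ)) else 0) + 1 / Λ * (1 / (p : ℝ))))) ≤
      ∑ p ∈ PN X, ((if p ≤ z then (1 : ℝ) / p else 0) +
        ((if Sq p then s * (1 / (p : ℝ)) else 0) +
        ((if Iq p then t * (1 / (p : ℝ)) else 0) + 1 / Λ * (1 / (p : ℝ))))) := by
    refine sum_le_sum_of_subset_of_nonneg (filter_subset _ _) fun p _ _ => ?_
    have hp0 : (0 : ℝ) ≤ 1 / p := by positivity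
    have e0 : (0 : ℝ) ≤ if p ≤ z then (1 : ℝ) / p else 0 := by
      split_ifs
      · exact hp0
      · exact le_refl _
    have e1 : (0 : ℝ) ≤ if Sq p then s * (1 / (p : ℝ)) else 0 := by
      split_ifs
      · positivity
      · exact le_refl _
    have e2 : (0 : ℝ) ≤ if Iq p then t * (1 / (p : ℝ)) else 0 := by
      split_ifs
      · positivity
      · exact le_refl _
    have e3 : (0 : ℝ) ≤ 1 / Λ * (1 / (p : ℝ)) := mul_nonneg hL0 hp0
    linarith
  refine h7.trans ?_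
  rw [sum_add_distrib, sum_add_distrib, sum_add_distrib, ← sum_filter, ← sum_filter, ← sum_filter,
    ← mul_sum, ← mul_sum, ← mul_sum]
  have h8 : ∑ p ∈ (PN X).filter (fun p => p ≤ z), (1 : ℝ) / p ≤ ∑ p ∈ PN z, (1 : ℝ) / p := by
    refine sum_le_sum_of_subset_of_nonneg ?_ fun p _ _ => by positivity
    intro p hp
    rw [mem_filter, mem_filter, mem_Icc] at hp
    rw [mem_filter, mem_Icc]
    exact ⟨⟨hp.1.1.1, hp.2⟩, hp.1.2⟩
  linarith

/-- the number of the elements of a family closed under subsets -/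
lemma part2 (hs : S_SIE) (hm : S_MER) (s t e : ℝ) (hs0 : 0 ≤ s)
    (ht0 : 0 ≤ t) (Q : ℕ → Finset ℕ → Prop) (hQ : ∀ X S, Q X S → ∀ T, T ⊆ S → Q X T)
    (w : ℕ → ℕ → ℝ) (hw : ∀ X p, 0 ≤ w X p) (hz : ∀ X p, w X p ≤ 1)
    (hS : ∀ X p, Sq p → zz X < p → w X p ≤ s) (hN : ∀ X p, Iq p → zz X < p → w X p ≤ t)
    (h1w : ∀ X, 2 ≤ eL X → ∀ S ∈ LL X (Q X), 1 ≤ Real.exp (e * eL X) * ∏ p ∈ S, w X p)
    {r : ℝ} (hr : -1 + e + s / 8 + t / 8 < r) :
    ∃ C : ℝ, 0 ≤ C ∧ ∀ᶠ X : ℕ in atTop,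
    ((LL X (Q X)).card : ℝ) ≤ C * X * Real.exp (r * eL X) := by
  obtain ⟨C, hC0, hC⟩ := mert
  obtain ⟨C₁, hC₁0, hC₁⟩ := mer_S hm
  obtain ⟨C₂, hC₂0, hC₂⟩ := mer_I hm
  obtain ⟨C', hC'1, hC'⟩ := hs
  refine ⟨C' * Real.exp (2 * C + 1 + s * C₁ + t * C₂), by positivity, ?_⟩
  have hε : 0 < r - (-1 + e + s / 8 + t / 8) := by linarith
  filter_upwards [eL_tendsto.eventually (log_small 4 _ hε),
    eL_tendsto.eventually (eventually_ge_atTop 2), eventually_ge_atTop 3] with X h1 h2 h3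
  set l := eL X with hl
  have h4 := hC (zz X) (zz_ge h2)
  have h5 := loglog_zz h2
  have h6 := hC₁ X h3
  have h6' := hC₂ X h3
  have h6'' := hC X h3
  rw [← hl] at h5
  change _ ≤ 1 / 8 * l + C₁ at h6
  change _ ≤ 1 / 8 * l + C₂ at h6'
  change _ ≤ l + C at h6''
  have h7 := hC' X (LL X (Q X)) (by omega)
    (fun S hS => ⟨fun p hp => ((mem_LL.1 hS).2.1 p hp).1, (mem_LL.1 hS).2.2.1⟩)
    (fun S hS T hT => LL_sub (hQ X) hS hT)
  have h8 := LL_sum X (zz X) (Q X) (w X) (Real.exp (e * l)) s t l (hw X) (Real.exp_pos _).le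
    hs0 ht0 (by linarith) (h1w X h2) (hz X) (hS X) (hN X)
  have hlX : Real.log X = Real.exp l := by
    have := rpow_eq (X := X) h2 1
    rwa [Real.rpow_one, one_mul] at this
  rw [hlX] at h7
  have h9 : s * ∑ p ∈ (PN X).filter Sq, (1 : ℝ) / p ≤ s * (1 / 8 * l + C₁) :=
    mul_le_mul_of_nonneg_left h6 hs0
  have h10 : t * ∑ p ∈ (PN X).filter Iq, (1 : ℝ) / p ≤ t * (1 / 8 * l + C₂) :=
    mul_le_mul_of_nonneg_left h6' ht0
  have h11 : 1 / l * ∑ p ∈ PN X, (1 : ℝ) / p ≤ 1 + C := by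
    have e1 : 1 / l * ∑ p ∈ PN X, (1 : ℝ) / p ≤ 1 / l * (l + C) :=
      mul_le_mul_of_nonneg_left h6'' (by positivity)
    have e2 : 1 / l * (l + C) ≤ 1 + C := by
      rw [mul_add, one_div_mul_cancel (by linarith)]
      have : 1 / l ≤ 1 := by rw [div_le_one (by linarith)]; linarith
      have := mul_le_mul_of_nonneg_right this hC0
      linarith
    exact e1.trans e2
  have hle : l = Real.exp (Real.log l) := (Real.exp_log (by linarith)).symm
  have h12 : Real.exp (e * l) * l * Real.exp (∑ p ∈ PN (zz X), (1 : ℝ) / p +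
      s * ∑ p ∈ (PN X).filter Sq, (1 : ℝ) / p +
        t * ∑ p ∈ (PN X).filter Iq, (1 : ℝ) / p + 1 / l * ∑ p ∈ PN X, (1 : ℝ) / p) ≤
      Real.exp (2 * C + 1 + s * C₁ + t * C₂) * Real.exp ((r + 1) * l) := by
    have hle2 : Real.exp (e * l) * l = Real.exp (e * l + Real.log l) := by
      rw [Real.exp_add, ← hle]
    rw [hle2, ← Real.exp_add, ← Real.exp_add]
    apply Real.exp_le_exp.2
    have e1 : ∑ p ∈ PN (zz X), (1 : ℝ) / p ≤ 3 * Real.log l + C := by linarith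
    calc e * l + Real.log l + (∑ p ∈ PN (zz X), (1 : ℝ) / p +
        s * ∑ p ∈ (PN X).filter Sq, (1 : ℝ) / p +
        t * ∑ p ∈ (PN X).filter Iq, (1 : ℝ) / p + 1 / l * ∑ p ∈ PN X, (1 : ℝ) / p)
        ≤ e * l + ((r - (-1 + e + s / 8 + t / 8)) * l + C +
          s * (1 / 8 * l + C₁) + t * (1 / 8 * l + C₂)) + (1 + C) := by linarith
      _ = 2 * C + 1 + s * C₁ + t * C₂ + (r + 1) * l := by ring
  have h13 : ((LL X (Q X)).card : ℝ) * Real.exp l ≤
      C' * X * (Real.exp (2 * C + 1 + s * C₁ + t * C₂) * Real.exp ((r + 1) * l)) := by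
    refine h7.trans ?_
    exact mul_le_mul_of_nonneg_left (h8.trans h12) (by positivity)
  have h14 : (C' * Real.exp (2 * C + 1 + s * C₁ + t * C₂) * X * Real.exp (r * l)) * Real.exp l =
      C' * X * (Real.exp (2 * C + 1 + s * C₁ + t * C₂) * Real.exp ((r + 1) * l)) := by
    have : Real.exp ((r + 1) * l) = Real.exp (r * l) * Real.exp l := by
      rw [← Real.exp_add]
      congr 1
      ring
    rw [this]
    ring
  rw [← h14] at h13
  exact le_of_mul_le_mul_right h13 (Real.exp_pos _)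

/-- sets whose large primes are split -/
lemma part3 (hs : S_SIE) (hm : S_MER) {r : ℝ} (hr : -1 + 1 / 8 < r) :
    ∃ C : ℝ, 0 ≤ C ∧ ∀ᶠ X : ℕ in atTop,
    ((LL X fun S => ∀ p ∈ la (zz X) S, mk7 p = 1).card : ℝ) ≤ C * X * Real.exp (r * eL X) := by
  refine part2 hs hm 1 0 0 zero_le_one le_rfl (fun X S => ∀ p ∈ la (zz X) S, mk7 p = 1) ?_
    (fun X p => if ¬ p ≤ zz X ∧ mk7 p ≠ 1 then 0 else 1) ?_ ?_ ?_ ?_ ?_ ?_
  · intro X S h T hT p hp
    refine h p ?_
    unfold la at hp ⊢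
    rw [mem_filter] at hp ⊢
    exact ⟨hT hp.1, hp.2⟩
  · intro X p
    split_ifs <;> norm_num
  · intro X p
    split_ifs <;> norm_num
  · intro X p _ _
    split_ifs <;> norm_num
  · intro X p h h'
    have h8 : mk7 p ≠ 1 := h.2.2
    rw [if_pos ⟨not_le.2 h', h8⟩]
  · intro X _ S hS
    rw [mem_LL] at hS
    rw [zero_mul, Real.exp_zero, one_mul]
    refine le_of_eq (Eq.symm (prod_eq_one fun p hp => ?_))
    rw [if_neg]
    rintro ⟨h1, h2⟩
    exact h2 (hS.2.2.2.2 p (mem_filter.2 ⟨hp, h1⟩))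
  · linarith

lemma four_pow {l : ℝ} (hl : 0 ≤ l) :
    1 ≤ Real.exp (Real.log 4 / 32 * l) * (1 / 4 : ℝ) ^ ⌊l / 32⌋₊ := by
  have h3 : Real.exp (-(Real.log 4 / 32 * l)) ≤ (1 / 4 : ℝ) ^ ⌊l / 32⌋₊ := by
    have e1 : (1 / 4 : ℝ) = Real.exp (-Real.log 4) := by
      rw [Real.exp_neg, Real.exp_log (by norm_num)]
      norm_num
    rw [e1, ← Real.exp_nat_mul]
    apply Real.exp_le_exp.2
    have e2 : ((⌊l / 32⌋₊ : ℕ) : ℝ) ≤ l / 32 := Nat.floor_le (by linarith)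
    have e4 : 0 ≤ Real.log 4 := Real.log_nonneg (by norm_num)
    have e5 := mul_le_mul_of_nonneg_right e2 e4
    linarith
  calc (1 : ℝ) = Real.exp (Real.log 4 / 32 * l) * Real.exp (-(Real.log 4 / 32 * l)) := by
        rw [← Real.exp_add, add_neg_cancel, Real.exp_zero]
    _ ≤ _ := mul_le_mul_of_nonneg_left h3 (Real.exp_pos _).le

lemma log4 : Real.log 4 / 32 < 11 / 250 := by
  have h1 : (4 : ℝ) = 2 ^ 2 := by norm_num
  rw [h1, Real.log_pow]
  have := Real.log_two_lt_d9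
  push_cast
  linarith

/-- sets with few large primes of a kind -/
lemma part4 (hs : S_SIE) (hm : S_MER) (P : ℕ → Prop) [DecidablePred P] (s t : ℝ) (hs0 : 0 ≤ s) (ht0 : 0 ≤ t)
    (hS : ∀ p, Sq p → P p ∨ 1 ≤ s) (hS' : 1 / 4 ≤ s)
    (hI : ∀ p, Iq p → P p ∨ 1 ≤ t) (hI' : 1 / 4 ≤ t) {r : ℝ}
    (hr : -1 + 11 / 250 + s / 8 + t / 8 ≤ r) : ∃ C : ℝ, 0 ≤ C ∧ ∀ᶠ X : ℕ in atTop,
    ((LL X fun S => ((la (zz X) S).filter P).card ≤ ⌊eL X / 32⌋₊).card : ℝ) ≤
      C * X * Real.exp (r * eL X) := by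
  have hl4 := log4
  refine part2 hs hm s t (Real.log 4 / 32) hs0 ht0
    (fun X S => ((la (zz X) S).filter P).card ≤ ⌊eL X / 32⌋₊) ?_
    (fun X p => if ¬ p ≤ zz X ∧ P p then 1 / 4 else 1) ?_ ?_ ?_ ?_ ?_ ?_
  · intro X S h T hT
    refine (card_le_card (filter_subset_filter _ ?_)).trans h
    unfold la
    exact filter_subset_filter _ hT
  · intro X p
    split_ifs <;> norm_num
  · intro X p
    split_ifs <;> norm_num
  · intro X p h h'
    rcases hS p h with h8 | h8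
    · rw [if_pos ⟨not_le.2 h', h8⟩]
      exact hS'
    · refine le_trans ?_ h8
      split_ifs <;> norm_num
  · intro X p h h'
    rcases hI p h with h8 | h8
    · rw [if_pos ⟨not_le.2 h', h8⟩]
      exact hI'
    · refine le_trans ?_ h8
      split_ifs <;> norm_num
  · intro X hX S hS
    rw [mem_LL] at hS
    rw [← prod_filter, prod_const]
    have h1 : (S.filter fun p => ¬ p ≤ zz X ∧ P p).card ≤ ⌊eL X / 32⌋₊ := by
      refine (card_le_card ?_).trans hS.2.2.2.2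
      intro p hp
      rw [mem_filter] at hp
      unfold la
      rw [mem_filter, mem_filter]
      exact ⟨⟨hp.1, hp.2.1⟩, hp.2.2⟩
    have h2 : (1 / 4 : ℝ) ^ ⌊eL X / 32⌋₊ ≤
        (1 / 4 : ℝ) ^ (S.filter fun p => ¬ p ≤ zz X ∧ P p).card :=
      pow_le_pow_of_le_one (by norm_num) (by norm_num) h1
    have h3 := four_pow (l := eL X) (by linarith)
    exact h3.trans (mul_le_mul_of_nonneg_left h2 (Real.exp_pos _).le)
  · linarith

theorem t_FEW (hs : S_SIE) (hm : S_MER) : S_FEW := by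
  intro V
  set r : ℝ := -(19 / 25) with hr
  obtain ⟨C₁, hC₁, h1⟩ := part1
  obtain ⟨C₂, hC₂, h2⟩ := part3 hs hm (r := r) (by linarith)
  obtain ⟨C₃, hC₃, h3⟩ := part4 hs hm (fun p => mk7 p = 1) (1 / 4) 1 (by norm_num) zero_le_one
    (fun p h => Or.inl h.2.2) le_rfl (fun p _ => Or.inr le_rfl) (by norm_num) (r := r) (by linarith)
  obtain ⟨C₄, hC₄, h4⟩ := part4 hs hm (fun p => p % 3 = 1) (1 / 4) (1 / 4) (by norm_num)
    (by norm_num) (fun p h => Or.inl (by have := h.2.1; omega)) le_rfl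
    (fun p h => Or.inl (by have := h.2.1; omega)) le_rfl (r := r) (by linarith)
  have h5 := (((h1.and h2).and h3).and h4).and
    (eL_tendsto.eventually (eventually_ge_atTop (max 2 (160 * (V : ℝ)))))
  rw [eventually_atTop] at h5
  obtain ⟨X₀, hX₀⟩ := h5
  refine ⟨C₁ + C₂ + C₃ + C₄, X₀, fun X hX => ?_⟩
  obtain ⟨⟨⟨⟨h5, h6⟩, h7⟩, h7'⟩, h8⟩ := hX₀ X hX
  have h9 : 2 ≤ eL X := (le_max_left _ _).trans h8
  have h10 : 160 * (V : ℝ) ≤ eL X := (le_max_right _ _).trans h8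
  rw [rpow_eq h9]
  have h11 : ((SS X).filter fun S =>
      ((la (zz X) S).filter fun p => p % 3 = 1).card ≤ (sm (zz X) S).card + V ∨
      ((la (zz X) S).filter fun p => mk7 p = 1).card ≤ 2 * (sm (zz X) S).card + V ∨
      ∀ p ∈ la (zz X) S, mk7 p = 1) ⊆
      ((SS X).filter fun S => eL X / 80 < ((sm (zz X) S).card : ℝ)) ∪
        ((LL X (fun S => ∀ p ∈ la (zz X) S, mk7 p = 1) ∪
        LL X fun S => ((la (zz X) S).filter fun p => mk7 p = 1).card ≤ ⌊eL X / 32⌋₊) ∪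
        LL X fun S => ((la (zz X) S).filter fun p => p % 3 = 1).card ≤ ⌊eL X / 32⌋₊) := by
    intro S hS
    rw [mem_filter] at hS
    rw [mem_union, mem_union, mem_union, mem_filter]
    by_cases hc : eL X / 80 < ((sm (zz X) S).card : ℝ)
    · exact Or.inl ⟨hS.1, hc⟩
    · right
      rw [not_lt] at hc
      rcases hS.2 with h | h | h
      · right
        refine mem_LL_of hS.1 ?_
        apply Nat.le_floor
        have h12 : ((((la (zz X) S).filter fun p => p % 3 = 1).card : ℕ) : ℝ) ≤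
            ((sm (zz X) S).card : ℝ) + V := by exact_mod_cast h
        linarith
      · left
        right
        refine mem_LL_of hS.1 ?_
        apply Nat.le_floor
        have h12 : ((((la (zz X) S).filter fun p => mk7 p = 1).card : ℕ) : ℝ) ≤
            2 * ((sm (zz X) S).card : ℝ) + V := by exact_mod_cast h
        linarith
      · left
        left
        exact mem_LL_of hS.1 h
  have h12 : (((SS X).filter fun S =>
      ((la (zz X) S).filter fun p => p % 3 = 1).card ≤ (sm (zz X) S).card + V ∨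
      ((la (zz X) S).filter fun p => mk7 p = 1).card ≤ 2 * (sm (zz X) S).card + V ∨
      ∀ p ∈ la (zz X) S, mk7 p = 1).card : ℝ) ≤
      (((SS X).filter fun S => eL X / 80 < ((sm (zz X) S).card : ℝ)).card : ℝ) +
      ((((LL X fun S => ∀ p ∈ la (zz X) S, mk7 p = 1).card : ℝ) +
      ((LL X fun S => ((la (zz X) S).filter fun p => mk7 p = 1).card ≤
        ⌊eL X / 32⌋₊).card : ℝ)) +
      ((LL X fun S => ((la (zz X) S).filter fun p => p % 3 = 1).card ≤
        ⌊eL X / 32⌋₊).card : ℝ)) := by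
    have e1 := card_union_le ((SS X).filter fun S => eL X / 80 < ((sm (zz X) S).card : ℝ))
      ((LL X (fun S => ∀ p ∈ la (zz X) S, mk7 p = 1) ∪
        LL X fun S => ((la (zz X) S).filter fun p => mk7 p = 1).card ≤ ⌊eL X / 32⌋₊) ∪
        LL X fun S => ((la (zz X) S).filter fun p => p % 3 = 1).card ≤ ⌊eL X / 32⌋₊)
    have e2 := card_union_le (LL X (fun S => ∀ p ∈ la (zz X) S, mk7 p = 1) ∪
        LL X fun S => ((la (zz X) S).filter fun p => mk7 p = 1).card ≤ ⌊eL X / 32⌋₊)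
        (LL X fun S => ((la (zz X) S).filter fun p => p % 3 = 1).card ≤ ⌊eL X / 32⌋₊)
    have e3 := card_union_le (LL X (fun S => ∀ p ∈ la (zz X) S, mk7 p = 1))
        (LL X fun S => ((la (zz X) S).filter fun p => mk7 p = 1).card ≤ ⌊eL X / 32⌋₊)
    have e4 := (card_le_card h11).trans (e1.trans (Nat.add_le_add_left
      (e2.trans (Nat.add_le_add_right e3 _)) _))
    exact_mod_cast e4
  have h13 : C₁ * X * Real.exp (-(4 / 5) * eL X) ≤ C₁ * X * Real.exp (r * eL X) := by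
    apply mul_le_mul_of_nonneg_left _ (by positivity)
    apply Real.exp_le_exp.2
    apply mul_le_mul_of_nonneg_right _ (by linarith)
    linarith
  refine h12.trans ((add_le_add (h5.trans h13) (add_le_add (add_le_add h6 h7) h7')).trans
    (le_of_eq ?_))
  ring

end Pool.Agent.L0h2.J.FEW
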