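import Pool.Agent.L0h2.J.Stm
import Pool.Agent.Y495.CX.HAL

/-!
# Project J: the logarithmic density for a nontrivial cubic character, with both cancellations
-/

set_option autoImplicit false
set_option linter.unusedVariables false

open scoped Classical

namespace Pool.Agent.L0h2.J.HAL3

open Finset
open Pool.Agent.Y692.QS (Ei w nr toC)
open Pool.Agent.Y699.E
open Pool.Agent.Y703.CX (LamP HD pp)
open Pool.Agent.Y495.CX (HD_sq g_nonneg g_le)
open scoped ComplexConjugate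

/-! ### summation by parts -/

theorem abel_real (d f : ℕ → ℝ) (hD : ∀ v, 0 ≤ ∑ m ∈ range v, d m) (hf : Antitone f) :
    ∀ v, (∑ m ∈ range v, d m) * f v ≤ ∑ m ∈ range v, d m * f m := by
  intro v
  induction v with
  | zero => simp
  | succ v ih =>
    rw [sum_range_succ (fun m => d m * f m)]
    have h1 : (∑ m ∈ range (v + 1), d m) * f (v + 1) ≤ (∑ m ∈ range (v + 1), d m) * f v :=
      mul_le_mul_of_nonneg_left (hf (Nat.le_succ v)) (hD _)
    have h2 : (∑ m ∈ range (v + 1), d m) * f v = (∑ m ∈ range v, d m) * f v + d v * f v := by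
      rw [sum_range_succ, add_mul]
    linarith

theorem abel_cpx (a : ℕ → ℂ) (f : ℕ → ℝ) (B : ℝ) (hA : ∀ v, ‖∑ m ∈ range v, a m‖ ≤ B)
    (hf : Antitone f) (hf0 : ∀ v, 0 ≤ f v) (v : ℕ) :
    ‖∑ m ∈ range v, a m * (f m : ℂ)‖ ≤ B * f 0 := by
  have h1 : ∀ v : ℕ, ∑ m ∈ range v, a m * (f m : ℂ) = (∑ m ∈ range v, a m) * (f v : ℂ) +
      ∑ m ∈ range v, (∑ i ∈ range (m + 1), a i) * ((f m - f (m + 1) : ℝ) : ℂ) := by
    intro v
    induction v with
    | zero => simp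
    | succ v ih =>
      rw [sum_range_succ (fun m => a m * (f m : ℂ)), ih,
        sum_range_succ (fun m => (∑ i ∈ range (m + 1), a i) * ((f m - f (m + 1) : ℝ) : ℂ)),
        sum_range_succ a]
      push_cast
      ring
  rw [h1]
  refine (norm_add_le _ _).trans ?_
  have h2 : ‖(∑ m ∈ range v, a m) * (f v : ℂ)‖ ≤ B * f v := by
    rw [norm_mul, Complex.norm_real, Real.norm_of_nonneg (hf0 v)]
    exact mul_le_mul_of_nonneg_right (hA v) (hf0 v)
  have h3 : ‖∑ m ∈ range v, (∑ i ∈ range (m + 1), a i) * ((f m - f (m + 1) : ℝ) : ℂ)‖ ≤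
      B * (f 0 - f v) := by
    refine (norm_sum_le _ _).trans ?_
    have h4 : ∀ m ∈ range v, ‖(∑ i ∈ range (m + 1), a i) * ((f m - f (m + 1) : ℝ) : ℂ)‖ ≤
        B * (f m - f (m + 1)) := by
      intro m _
      have h5 : 0 ≤ f m - f (m + 1) := sub_nonneg.2 (hf (Nat.le_succ m))
      rw [norm_mul, Complex.norm_real, Real.norm_of_nonneg h5]
      exact mul_le_mul_of_nonneg_right (hA _) h5
    refine (sum_le_sum h4).trans (le_of_eq ?_)
    rw [← mul_sum, sum_range_sub']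
  linarith

/-! ### the weights -/

/-- the weight -/
noncomputable def wt (s : ℝ) (m : ℕ) : ℝ := ((max m 1 : ℕ) : ℝ) ^ (-s)

theorem wt_anti {s : ℝ} (hs : 0 ≤ s) : Antitone (wt s) := by
  intro a b hab
  unfold wt
  apply Real.rpow_le_rpow_of_nonpos
  · exact_mod_cast lt_of_lt_of_le one_pos (le_max_right a 1)
  · exact_mod_cast max_le_max hab le_rfl
  · linarith

theorem wt_nonneg (s : ℝ) (m : ℕ) : 0 ≤ wt s m := Real.rpow_nonneg (Nat.cast_nonneg _) _

theorem wt_zero (s : ℝ) : wt s 0 = 1 := by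
  unfold wt
  simp

theorem wt_one (s : ℝ) : wt s 1 = 1 := by
  unfold wt
  simp

theorem wt_of {s : ℝ} {m : ℕ} (hm : 1 ≤ m) : wt s m = (m : ℝ) ^ (-s) := by
  unfold wt
  rw [max_eq_left hm]

theorem wt_mul {s : ℝ} {m n : ℕ} (hm : 1 ≤ m) (hn : 1 ≤ n) : wt s (m * n) = wt s m * wt s n := by
  rw [wt_of hm, wt_of hn, wt_of (Nat.mul_pos hm hn), Nat.cast_mul,
    Real.mul_rpow (Nat.cast_nonneg _) (Nat.cast_nonneg _)]

theorem wt_tel {δ : ℝ} (hδ : 0 < δ) {m : ℕ} (hm : 1 ≤ m) :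
    δ * wt (1 + δ) (m + 1) ≤ wt δ m - wt δ (m + 1) := by
  have h0 : (0 : ℝ) < m := by exact_mod_cast hm
  have h1 : (0 : ℝ) < (m : ℝ) + 1 := by linarith
  rw [wt_of hm, wt_of (Nat.le_add_left 1 m), wt_of (Nat.le_add_left 1 m)]
  push_cast
  have e1 : ((m : ℝ) + 1) ^ (-(1 + δ)) = ((m : ℝ) + 1) ^ (-δ) * (1 / (m + 1)) := by
    rw [show -(1 + δ) = -δ + -1 by ring, Real.rpow_add h1, Real.rpow_neg_one, one_div]
  have e2 : (m : ℝ) ^ (-δ) = ((m : ℝ) + 1) ^ (-δ) * ((m : ℝ) / (m + 1)) ^ (-δ) := by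
    rw [← Real.mul_rpow h1.le (by positivity)]
    congr 1
    field_simp
  have e3 : 1 + δ * (1 / (m + 1)) ≤ ((m : ℝ) / (m + 1)) ^ (-δ) := by
    rw [Real.rpow_def_of_pos (by positivity)]
    have h2 : Real.log ((m : ℝ) / (m + 1)) ≤ -(1 / (m + 1)) := by
      have h3 := Real.log_le_sub_one_of_pos (show (0 : ℝ) < (m : ℝ) / (m + 1) by positivity)
      have h4 : (m : ℝ) / (m + 1) - 1 = -(1 / (m + 1)) := by
        field_simp
        ring
      linarith
    have h3 := Real.add_one_le_exp (Real.log ((m : ℝ) / (m + 1)) * -δ)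
    nlinarith
  rw [e1, e2]
  have h5 : 0 < ((m : ℝ) + 1) ^ (-δ) := Real.rpow_pos_of_pos h1 _
  nlinarith

theorem wt_sum {δ : ℝ} (hδ : 0 < δ) (V : ℕ) :
    ∑ m ∈ range V, wt (1 + δ) m ≤ 2 + 1 / δ := by
  have h1 : ∀ V : ℕ, ∑ m ∈ range (V + 2), wt (1 + δ) m ≤ 2 + 1 / δ * (1 - wt δ (V + 1)) := by
    intro V
    induction V with
    | zero =>
      rw [sum_range_succ, sum_range_succ, sum_range_zero, wt_zero, wt_one, wt_one]
      norm_num
    | succ V ih =>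
      rw [sum_range_succ]
      have h2 := wt_tel hδ (m := V + 1) (by omega)
      have h3 : wt (1 + δ) (V + 2) ≤ 1 / δ * (wt δ (V + 1) - wt δ (V + 2)) := by
        rw [one_div, ← div_eq_inv_mul, le_div_iff₀ hδ]
        linarith
      have e1 : V + 1 + 1 = V + 2 := rfl
      rw [e1]
      have h4 : 1 / δ * (1 - wt δ (V + 2)) = 1 / δ * (1 - wt δ (V + 1)) +
          1 / δ * (wt δ (V + 1) - wt δ (V + 2)) := by ring
      linarith
  have h2 : ∑ m ∈ range V, wt (1 + δ) m ≤ ∑ m ∈ range (V + 2), wt (1 + δ) m :=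
    sum_le_sum_of_subset_of_nonneg (range_subset_range.2 (by omega)) fun _ _ _ => wt_nonneg _ _
  refine h2.trans ((h1 V).trans ?_)
  have h3 := wt_nonneg δ (V + 1)
  have h4 : 0 < 1 / δ := by positivity
  nlinarith

/-- the weight of an element -/
noncomputable def u (δ : ℝ) (x : Ei) : ℝ := wt (1 + δ) (nrm x)

theorem u_nonneg (δ : ℝ) (x : Ei) : 0 ≤ u δ x := wt_nonneg _ _

theorem u_mul {δ : ℝ} {x y : Ei} (hx : x ≠ 0) (hy : y ≠ 0) : u δ (x * y) = u δ x * u δ y := by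
  unfold u
  rw [nrm_mul, wt_mul (nrm_pos' hx) (nrm_pos' hy)]

theorem u_eq {δ : ℝ} {x : Ei} (hx : x ≠ 0) : u δ x = wt δ (nrm x) / nrm x := by
  have h0 : (0 : ℝ) < nrm x := by exact_mod_cast nrm_pos' hx
  unfold u
  rw [wt_of (nrm_pos' hx), wt_of (nrm_pos' hx), show -(1 + δ) = -δ + -1 by ring,
    Real.rpow_add h0, Real.rpow_neg_one, div_eq_mul_inv]

/-- fibres over the norm -/
theorem fib {M : Type} [AddCommMonoid M] (V : ℕ) (F : Ei → M) :
    ∑ x ∈ PB V, F x = ∑ m ∈ range (V + 1), ∑ x ∈ (PB V).filter (fun x => nrm x = m), F x := by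
  rw [sum_fiberwise_of_maps_to]
  intro x hx
  rw [mem_range]
  have := (mem_PB.1 hx).1
  omega

theorem fib_lt {M : Type} [AddCommMonoid M] (V v : ℕ) (F : Ei → M) :
    ∑ m ∈ range (v + 1), ∑ x ∈ (PB V).filter (fun x => nrm x = m), F x =
      ∑ x ∈ PB (min V v), F x := by
  have h1 : PB (min V v) = (PB V).filter (fun x => nrm x ≤ v) := by
    ext x
    rw [mem_filter, mem_PB, mem_PB, le_min_iff]
    tauto
  rw [h1, ← sum_fiberwise_of_maps_to (s := (PB V).filter (fun x => nrm x ≤ v))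
    (t := range (v + 1)) (g := nrm)]
  · refine sum_congr rfl fun m hm => sum_congr ?_ fun _ _ => rfl
    ext x
    rw [mem_range] at hm
    simp only [mem_filter]
    constructor
    · rintro ⟨h2, h3⟩
      exact ⟨⟨h2, by omega⟩, h3⟩
    · rintro ⟨⟨h2, -⟩, h3⟩
      exact ⟨h2, h3⟩
  · intro x hx
    rw [mem_range]
    have := (mem_filter.1 hx).2
    omega

theorem PB_zero : PB 0 = ∅ := by
  rw [eq_empty_iff_forall_notMem]
  intro x hx
  rw [mem_PB] at hx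
  have := nrm_pos' (prm_ne_zero hx.2)
  omega

theorem card_PB (V : ℕ) : ((PB V).card : ℝ) ≤ 16 * V := by
  rcases Nat.eq_zero_or_pos V with h | h
  · rw [h, PB_zero]
    simp
  · exact card_PB_le h

/-- the sum of the weights -/
theorem u_sum {δ : ℝ} (hδ : 0 < δ) (V : ℕ) : ∑ x ∈ PB V, u δ x ≤ 16 * (2 + 1 / δ) := by
  set c : ℕ → ℝ := fun m => (((PB V).filter (fun x => nrm x = m)).card : ℝ) with hc
  have h1 : ∑ x ∈ PB V, u δ x = ∑ m ∈ range (V + 1), c m * wt (1 + δ) m := by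
    rw [fib]
    refine sum_congr rfl fun m _ => ?_
    rw [hc, ← nsmul_eq_mul, ← sum_const]
    refine sum_congr rfl fun x hx => ?_
    unfold u
    rw [(mem_filter.1 hx).2]
  have h2 : ∀ v, ∑ m ∈ range v, c m ≤ 16 * v := by
    intro v
    rcases Nat.eq_zero_or_pos v with h | h
    · rw [h]
      simp
    · obtain ⟨k, rfl⟩ : ∃ k, v = k + 1 := ⟨v - 1, by omega⟩
      have h3 : ∑ m ∈ range (k + 1), c m = ((PB (min V k)).card : ℝ) := by
        have h4 := fib_lt (M := ℝ) V k (fun _ => (1 : ℝ))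
        simp only [sum_const, nsmul_eq_mul, mul_one] at h4
        exact h4
      rw [h3]
      refine (card_PB _).trans ?_
      have h5 : ((min V k : ℕ) : ℝ) ≤ ((k + 1 : ℕ) : ℝ) := by
        exact_mod_cast (min_le_right V k).trans (Nat.le_succ k)
      linarith
  have h3 := abel_real (fun m => 16 - c m) (wt (1 + δ)) (fun v => by
      rw [sum_sub_distrib, sum_const, card_range, nsmul_eq_mul]
      have := h2 v
      linarith) (wt_anti (by linarith)) (V + 1)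
  have h4 : 0 ≤ (∑ m ∈ range (V + 1), (16 - c m)) * wt (1 + δ) (V + 1) := by
    refine mul_nonneg ?_ (wt_nonneg _ _)
    rw [sum_sub_distrib, sum_const, card_range, nsmul_eq_mul]
    have := h2 (V + 1)
    linarith
  have h5 : ∑ m ∈ range (V + 1), (16 - c m) * wt (1 + δ) m =
      16 * ∑ m ∈ range (V + 1), wt (1 + δ) m - ∑ m ∈ range (V + 1), c m * wt (1 + δ) m := by
    rw [mul_sum, ← sum_sub_distrib]
    refine sum_congr rfl fun m _ => by ring
  have h6 := wt_sum hδ (V + 1)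
  rw [h1]
  linarith

/-- the partial sums of the L-function to the right of 1 -/
theorem chi_sum {χ : Ei → ℂ} {B : ℝ} (hB : ∀ Y : ℕ, ‖∑ d ∈ PB Y, χ d / nrm d‖ ≤ B) {δ : ℝ}
    (hδ : 0 < δ) (V : ℕ) : ‖∑ x ∈ PB V, χ x * u δ x‖ ≤ B := by
  set a : ℕ → ℂ := fun m => ∑ x ∈ (PB V).filter (fun x => nrm x = m), χ x / nrm x with ha
  have h1 : ∑ x ∈ PB V, χ x * u δ x = ∑ m ∈ range (V + 1), a m * (wt δ m : ℂ) := by
    rw [fib]
    refine sum_congr rfl fun m _ => ?_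
    rw [ha, sum_mul]
    refine sum_congr rfl fun x hx => ?_
    obtain ⟨h2, h3⟩ := mem_filter.1 hx
    rw [u_eq (prm_ne_zero (mem_PB.1 h2).2), h3]
    push_cast
    ring
  rw [h1]
  have h2 := abel_cpx a (wt δ) B (fun v => by
    rcases Nat.eq_zero_or_pos v with h | h
    · rw [h, sum_range_zero, norm_zero]
      exact (norm_nonneg _).trans (hB 0)
    · obtain ⟨k, rfl⟩ : ∃ k, v = k + 1 := ⟨v - 1, by omega⟩
      rw [ha, fib_lt]
      exact hB _) (wt_anti hδ.le) (wt_nonneg δ) (V + 1)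
  rwa [wt_zero, mul_one] at h2

/-! ### the convolution -/

theorem PB_div {V : ℕ} {k : Ei} (hk : k ≠ 0) :
    PB (V / nrm k) = (PB V).filter (fun x => nrm k * nrm x ≤ V) := by
  ext x
  rw [mem_filter, mem_PB, mem_PB, Nat.le_div_iff_mul_le (nrm_pos' hk)]
  constructor
  · rintro ⟨h1, h2⟩
    rw [mul_comm] at h1
    refine ⟨⟨le_trans ?_ h1, h2⟩, h1⟩
    exact Nat.le_mul_of_pos_left _ (nrm_pos' hk)
  · rintro ⟨⟨-, h2⟩, h3⟩
    rw [mul_comm] at h3
    exact ⟨h3, h2⟩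

/-- the summand of the triple sum -/
noncomputable def FF (χ : Ei → ℂ) (δ : ℝ) (x : Ei × Ei × Ei) : ℂ :=
  (u δ x.1 : ℂ) * ((χ x.2.1 * u δ x.2.1) * conj (χ x.2.2 * u δ x.2.2))

/-- the norm of a triple -/
noncomputable def n3 (x : Ei × Ei × Ei) : ℕ := nrm x.1 * (nrm x.2.1 * nrm x.2.2)

theorem conv3 {χ : Ei → ℂ} (h : CH χ) (δ : ℝ) (V : ℕ) :
    ∑ n ∈ PB V, cs2 χ n * u δ n =
      ∑ x ∈ (PB V ×ˢ PB V ×ˢ PB V).filter (fun x => n3 x ≤ V), FF χ δ x := by
  have e3 : ∑ n ∈ PB V, cs2 χ n * u δ n = ∑ k ∈ PB V, (u δ k : ℂ) *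
      ∑ d ∈ PB (V / nrm k), χ d * cs1 χ d * u δ d := by
    have e4 := conv_sum (fun n d => χ d * cs1 χ d * (u δ n : ℂ)) V
    have e5 : ∑ n ∈ PB V, cs2 χ n * u δ n =
        ∑ n ∈ PB V, ∑ d ∈ DP n, χ d * cs1 χ d * (u δ n : ℂ) := by
      refine sum_congr rfl fun n _ => ?_
      unfold cs2
      rw [sum_mul]
    rw [e5, e4]
    refine sum_congr rfl fun k hk => ?_
    rw [mul_sum]
    refine sum_congr rfl fun d hd => ?_
    rw [u_mul (prm_ne_zero (mem_PB.1 hd).2) (prm_ne_zero (mem_PB.1 hk).2)]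
    push_cast
    ring
  have e7 : ∀ Y : ℕ, ∑ d ∈ PB Y, χ d * cs1 χ d * u δ d = ∑ b ∈ PB Y, (χ b * u δ b) *
      ∑ c ∈ PB (Y / nrm b), conj (χ c * u δ c) := by
    intro Y
    have e4 := conv_sum (fun n d => χ n * χ d * (u δ n : ℂ)) Y
    have e5 : ∑ d ∈ PB Y, χ d * cs1 χ d * u δ d =
        ∑ n ∈ PB Y, ∑ d ∈ DP n, χ n * χ d * (u δ n : ℂ) := by
      refine sum_congr rfl fun n _ => ?_
      unfold cs1
      rw [mul_sum, sum_mul]
    rw [e5, e4]
    refine sum_congr rfl fun b hb => ?_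
    rw [mul_sum]
    refine sum_congr rfl fun c hc => ?_
    rw [map_mul, ← h.sq, h.mul, u_mul (prm_ne_zero (mem_PB.1 hc).2) (prm_ne_zero (mem_PB.1 hb).2),
      Complex.conj_ofReal]
    push_cast
    ring
  rw [e3, sum_filter, sum_product]
  refine sum_congr rfl fun k hk => ?_
  have hk0 := prm_ne_zero (mem_PB.1 hk).2
  rw [e7, PB_div hk0, sum_product, mul_sum, sum_filter]
  refine sum_congr rfl fun b hb => ?_
  have hb0 := prm_ne_zero (mem_PB.1 hb).2
  by_cases h1 : nrm k * nrm b ≤ V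
  · rw [if_pos h1]
    have e8 : V / nrm k / nrm b = V / nrm (k * b) := by
      rw [nrm_mul, Nat.div_div_eq_div_mul]
    rw [e8, PB_div (mul_ne_zero hk0 hb0), mul_sum, mul_sum, sum_filter]
    refine sum_congr rfl fun c _ => ?_
    unfold n3 FF
    rw [nrm_mul]
    simp only [mul_assoc]
  · rw [if_neg h1]
    symm
    refine sum_eq_zero fun c hc => ?_
    have hc0 := nrm_pos' (prm_ne_zero (mem_PB.1 hc).2)
    rw [if_neg]
    unfold n3
    simp only
    intro h2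
    apply h1
    refine le_trans ?_ h2
    rw [← mul_assoc]
    exact Nat.le_mul_of_pos_right _ hc0

theorem conv_full {χ : Ei → ℂ} (δ : ℝ) (V : ℕ) :
    ∑ x ∈ PB V ×ˢ PB V ×ˢ PB V, FF χ δ x =
      ((∑ k ∈ PB V, u δ k : ℝ) : ℂ) * ((∑ b ∈ PB V, χ b * u δ b) *
        conj (∑ c ∈ PB V, χ c * u δ c)) := by
  rw [sum_product, map_sum, sum_mul_sum, Complex.ofReal_sum, sum_mul]
  refine sum_congr rfl fun k _ => ?_
  rw [sum_product, mul_sum]
  refine sum_congr rfl fun b _ => ?_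
  rw [mul_sum]
  rfl

/-- the bound for the sum of the convolution -/
theorem conv_bd {χ : Ei → ℂ} (h : CH χ) {B : ℝ}
    (hB : ∀ Y : ℕ, ‖∑ d ∈ PB Y, χ d / nrm d‖ ≤ B) {δ : ℝ} (hδ : 0 < δ) {V : ℕ} (hV : 1 ≤ V) :
    ‖∑ n ∈ PB V, cs2 χ n * u δ n‖ ≤ 16 * (2 + 1 / δ) * B ^ 2 +
      wt (δ / 2) V * (16 * (2 + 1 / (δ / 2))) ^ 3 := by
  set TT := PB V ×ˢ PB V ×ˢ PB V with hTT
  have hB0 : 0 ≤ B := (norm_nonneg _).trans (hB 0)
  have e1 : ∑ n ∈ PB V, cs2 χ n * u δ n = ∑ x ∈ TT, FF χ δ x -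
      ∑ x ∈ TT.filter (fun x => ¬ n3 x ≤ V), FF χ δ x := by
    rw [conv3 h, ← sum_filter_add_sum_filter_not TT (fun x => n3 x ≤ V), add_sub_cancel_right]
  rw [e1]
  refine (norm_sub_le _ _).trans (add_le_add ?_ ?_)
  · rw [conv_full, norm_mul, norm_mul, Complex.norm_conj, Complex.norm_real, sq]
    have h1 := chi_sum hB hδ V
    have h2 := u_sum hδ V
    have h3 : 0 ≤ ∑ k ∈ PB V, u δ k := sum_nonneg fun _ _ => u_nonneg _ _
    rw [Real.norm_of_nonneg h3]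
    apply mul_le_mul h2 _ (by positivity) (by positivity)
    exact mul_le_mul h1 h1 (norm_nonneg _) hB0
  · have hδ2 : 0 < δ / 2 := by linarith
    have h1 : ∀ x ∈ TT.filter (fun x => ¬ n3 x ≤ V), ‖FF χ δ x‖ ≤
        wt (δ / 2) V * (u (δ / 2) x.1 * (u (δ / 2) x.2.1 * u (δ / 2) x.2.2)) := by
      intro x hx
      rw [mem_filter, hTT, mem_product, mem_product] at hx
      obtain ⟨⟨m1, m2, m3⟩, m4⟩ := hx
      have z1 := prm_ne_zero (mem_PB.1 m1).2
      have z2 := prm_ne_zero (mem_PB.1 m2).2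
      have z3 := prm_ne_zero (mem_PB.1 m3).2
      have p1 := nrm_pos' z1
      have p2 := nrm_pos' z2
      have p3 := nrm_pos' z3
      have hN : 1 ≤ n3 x := Nat.mul_pos p1 (Nat.mul_pos p2 p3)
      have a1 : ‖FF χ δ x‖ ≤ wt (1 + δ) (n3 x) := by
        unfold FF n3
        rw [wt_mul p1 (Nat.mul_pos p2 p3), wt_mul p2 p3, norm_mul, norm_mul, Complex.norm_conj,
          norm_mul, norm_mul, Complex.norm_real, Complex.norm_real, Complex.norm_real,
          Real.norm_of_nonneg (u_nonneg _ _), Real.norm_of_nonneg (u_nonneg _ _),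
          Real.norm_of_nonneg (u_nonneg _ _)]
        have b1 := h.norm_le x.2.1
        have b2 := h.norm_le x.2.2
        have c1 : ‖χ x.2.1‖ * u δ x.2.1 ≤ u δ x.2.1 := mul_le_of_le_one_left (u_nonneg _ _) b1
        have c2 : ‖χ x.2.2‖ * u δ x.2.2 ≤ u δ x.2.2 := mul_le_of_le_one_left (u_nonneg _ _) b2
        exact mul_le_mul_of_nonneg_left (mul_le_mul c1 c2
          (mul_nonneg (norm_nonneg _) (u_nonneg _ _)) (u_nonneg _ _)) (u_nonneg _ _)
      have a2 : wt (1 + δ) (n3 x) = wt (δ / 2) (n3 x) * wt (1 + δ / 2) (n3 x) := by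
        have hNr : (0 : ℝ) < n3 x := by exact_mod_cast hN
        rw [wt_of hN, wt_of hN, wt_of hN, ← Real.rpow_add hNr]
        congr 1
        ring
      have a3 : wt (1 + δ / 2) (n3 x) = u (δ / 2) x.1 * (u (δ / 2) x.2.1 * u (δ / 2) x.2.2) := by
        unfold n3 u
        rw [wt_mul p1 (Nat.mul_pos p2 p3), wt_mul p2 p3]
      rw [a2, a3] at a1
      refine a1.trans (mul_le_mul_of_nonneg_right (wt_anti hδ2.le (by omega)) ?_)
      exact mul_nonneg (u_nonneg _ _) (mul_nonneg (u_nonneg _ _) (u_nonneg _ _))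
    refine (norm_sum_le _ _).trans ((sum_le_sum h1).trans ?_)
    rw [← mul_sum]
    refine mul_le_mul_of_nonneg_left ?_ (wt_nonneg _ _)
    have h2 : ∑ x ∈ TT.filter (fun x => ¬ n3 x ≤ V),
        (u (δ / 2) x.1 * (u (δ / 2) x.2.1 * u (δ / 2) x.2.2)) ≤
        ∑ x ∈ TT, (u (δ / 2) x.1 * (u (δ / 2) x.2.1 * u (δ / 2) x.2.2)) :=
      sum_le_sum_of_subset_of_nonneg (filter_subset _ _) fun _ _ _ =>
        mul_nonneg (u_nonneg _ _) (mul_nonneg (u_nonneg _ _) (u_nonneg _ _))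
    refine h2.trans ?_
    have h3 : ∑ x ∈ TT, (u (δ / 2) x.1 * (u (δ / 2) x.2.1 * u (δ / 2) x.2.2)) =
        (∑ k ∈ PB V, u (δ / 2) k) ^ 3 := by
      rw [hTT, pow_succ', sq, sum_mul_sum, sum_product, sum_mul]
      refine sum_congr rfl fun k _ => ?_
      rw [sum_product, mul_sum]
      refine sum_congr rfl fun b _ => ?_
      rw [mul_sum]
    rw [h3]
    exact pow_le_pow_left₀ (sum_nonneg fun _ _ => u_nonneg _ _) (u_sum hδ2 V) 3

theorem wt_tendsto {s : ℝ} (hs : 0 < s) : Filter.Tendsto (wt s) Filter.atTop (nhds 0) := by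
  have h1 : Filter.Tendsto (fun m : ℕ => (m : ℝ) ^ (-s)) Filter.atTop (nhds 0) :=
    (tendsto_rpow_neg_atTop hs).comp tendsto_natCast_atTop_atTop
  refine h1.congr' ?_
  filter_upwards [Filter.eventually_ge_atTop 1] with m hm
  rw [wt_of hm]

/-- the bound, without the error term -/
theorem mf_bd {χ : Ei → ℂ} (h : CH χ) {B : ℝ}
    (hB : ∀ Y : ℕ, ‖∑ d ∈ PB Y, χ d / nrm d‖ ≤ B) {δ : ℝ} (hδ : 0 < δ) (V₀ : ℕ) :
    ∑ n ∈ PB V₀, mf (fun π => 1 + 2 * (χ π).re) n * u δ n ≤ 16 * (2 + 1 / δ) * B ^ 2 := by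
  choose! r hr1 hr2 using conv_le h
  have h0 : ∀ n, 0 ≤ mf (fun π => 1 + 2 * (χ π).re) n :=
    mf_nonneg fun π => re_nonneg (h.val π)
  have h1 : ∀ V : ℕ, V₀ ≤ V → 1 ≤ V →
      ∑ n ∈ PB V₀, mf (fun π => 1 + 2 * (χ π).re) n * u δ n ≤ 16 * (2 + 1 / δ) * B ^ 2 +
        wt (δ / 2) V * (16 * (2 + 1 / (δ / 2))) ^ 3 := by
    intro V hV hV1
    have e1 : ∑ n ∈ PB V₀, mf (fun π => 1 + 2 * (χ π).re) n * u δ n ≤
        ∑ n ∈ PB V, mf (fun π => 1 + 2 * (χ π).re) n * u δ n := by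
      refine sum_le_sum_of_subset_of_nonneg ?_ fun n _ _ => mul_nonneg (h0 n) (u_nonneg _ _)
      intro x hx
      rw [mem_PB] at hx ⊢
      exact ⟨hx.1.trans hV, hx.2⟩
    have e2 : ∑ n ∈ PB V, mf (fun π => 1 + 2 * (χ π).re) n * u δ n ≤
        ‖∑ n ∈ PB V, cs2 χ n * u δ n‖ := by
      have e3 : ∑ n ∈ PB V, cs2 χ n * u δ n = ((∑ n ∈ PB V, r n * u δ n : ℝ) : ℂ) := by
        rw [Complex.ofReal_sum]
        refine sum_congr rfl fun n hn => ?_
        rw [hr1 n (mem_PB.1 hn).2]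
        push_cast
        rfl
      rw [e3, Complex.norm_real]
      refine le_trans (sum_le_sum fun n hn => ?_) (le_abs_self _)
      exact mul_le_mul_of_nonneg_right (hr2 n (mem_PB.1 hn).2) (u_nonneg _ _)
    exact e1.trans (e2.trans (conv_bd h hB hδ hV1))
  have h2 : Filter.Tendsto (fun V : ℕ => 16 * (2 + 1 / δ) * B ^ 2 +
      wt (δ / 2) V * (16 * (2 + 1 / (δ / 2))) ^ 3) Filter.atTop
      (nhds (16 * (2 + 1 / δ) * B ^ 2 + 0 * (16 * (2 + 1 / (δ / 2))) ^ 3)) :=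
    tendsto_const_nhds.add ((wt_tendsto (by linarith)).mul_const _)
  rw [zero_mul, add_zero] at h2
  refine ge_of_tendsto h2 ?_
  filter_upwards [Filter.eventually_ge_atTop (max V₀ 1)] with V hV
  exact h1 V ((le_max_left _ _).trans hV) ((le_max_right _ _).trans hV)

theorem t_HA : S_HA := by
  intro L
  refine ⟨10 ^ 5, by norm_num, fun A B T hA hB h1 hT => ?_⟩
  have hch := xab_ch hA hB
  have hl := one_le_lg (nrm A * nrm B)
  have hTr : (2 : ℝ) ≤ T := by exact_mod_cast hT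
  have hT0 : (0 : ℝ) < T := by linarith
  have hlog2 : (0.6931471803 : ℝ) < Real.log 2 := Real.log_two_gt_d9
  have lT2 : Real.log 2 ≤ Real.log T := Real.log_le_log (by norm_num) hTr
  have lT : 0 < Real.log T := by linarith
  have h2 := HD_sq L hA hB T
  have h3 := hall3 (g_nonneg hA hB) (g_le hA hB) (T ^ 2)
  set δ : ℝ := 1 / Real.log T with hδ
  have hδ0 : 0 < δ := by positivity
  have h4 := mf_bd hch (chs_log hA hB h1) hδ0 ((T ^ 2) ^ 3)
  have e1 : (fun π : Ei => 3 * ((1 + 2 * (xab A B π).re) / 3)) =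
      fun π => 1 + 2 * (xab A B π).re := by
    funext π; ring
  rw [e1] at h3
  -- Rankin
  have h5 : ∑ n ∈ PB ((T ^ 2) ^ 3), mf (fun π => 1 + 2 * (xab A B π).re) n / nrm n ≤
      Real.exp 6 * ∑ n ∈ PB ((T ^ 2) ^ 3), mf (fun π => 1 + 2 * (xab A B π).re) n * u δ n := by
    rw [mul_sum]
    refine sum_le_sum fun n hn => ?_
    rw [mem_PB] at hn
    have n0 := prm_ne_zero hn.2
    have np := nrm_pos' n0
    have npr : (0 : ℝ) < nrm n := by exact_mod_cast np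
    have hm := mf_nonneg (fun π => re_nonneg (hch.val π)) n
    rw [u_eq n0, wt_of np]
    have k1 : (nrm n : ℝ) ^ δ ≤ Real.exp 6 := by
      have k2 : (nrm n : ℝ) ≤ (T : ℝ) ^ 6 := by
        have := hn.1
        rw [← pow_mul] at this
        exact_mod_cast this
      calc (nrm n : ℝ) ^ δ ≤ ((T : ℝ) ^ 6) ^ δ := Real.rpow_le_rpow npr.le k2 hδ0.le
        _ = Real.exp 6 := by
            rw [Real.rpow_def_of_pos (by positivity), Real.log_pow, hδ]
            congr 1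
            push_cast
            field_simp
    have k3 : 1 ≤ Real.exp 6 * (nrm n : ℝ) ^ (-δ) := by
      rw [Real.rpow_neg npr.le, ← div_eq_mul_inv, le_div_iff₀ (Real.rpow_pos_of_pos npr _), one_mul]
      exact k1
    calc mf (fun π => 1 + 2 * (xab A B π).re) n / nrm n =
        1 * (mf (fun π => 1 + 2 * (xab A B π).re) n / nrm n) := (one_mul _).symm
      _ ≤ (Real.exp 6 * (nrm n : ℝ) ^ (-δ)) * (mf (fun π => 1 + 2 * (xab A B π).re) n / nrm n) :=
          mul_le_mul_of_nonneg_right k3 (div_nonneg hm npr.le)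
      _ = _ := by ring
  generalize hH : ∑ S ∈ HD A B T, (1 : ℝ) / ((∏ p ∈ S, p : ℕ) : ℝ) = H at h2 ⊢
  have H0 : 0 ≤ H := by
    rw [← hH]
    exact sum_nonneg fun S _ => by positivity
  generalize lg (nrm A * nrm B) = N at h4 hl ⊢
  have N0 : 0 < N := by linarith
  have hexp : Real.exp 6 ≤ 3 ^ 6 := by
    have : Real.exp 6 = Real.exp 1 ^ 6 := by
      rw [← Real.exp_nat_mul]
      norm_num
    rw [this]
    exact pow_le_pow_left₀ (Real.exp_pos _).le (Real.exp_one_lt_d9.le.trans (by norm_num)) 6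
  have h6 : H ^ 6 ≤ 3 ^ 6 * (16 * (2 + 1 / δ) * (264 * N) ^ 2) := by
    have e2 : H ^ 6 = (H ^ 2) ^ 3 := by ring
    rw [e2]
    refine (pow_le_pow_left₀ (by positivity) h2 3).trans (h3.trans (h5.trans ?_))
    have h7 : 0 ≤ ∑ n ∈ PB ((T ^ 2) ^ 3), mf (fun π => 1 + 2 * (xab A B π).re) n * u δ n :=
      sum_nonneg fun n _ => mul_nonneg (mf_nonneg (fun π => re_nonneg (hch.val π)) n)
        (u_nonneg _ _)
    exact mul_le_mul hexp h4 h7 (by positivity)
  apply le_of_pow_le_pow_left₀ (n := 6) (by norm_num) (by positivity)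
  refine h6.trans ?_
  have e1 : (10 ^ 5 * N ^ (1 / 3 : ℝ) * Real.log T ^ (1 / 6 : ℝ)) ^ 6 =
      (10 ^ 5) ^ 6 * (N ^ 2 * Real.log T) := by
    have a1 : (N ^ (1 / 3 : ℝ)) ^ 6 = N ^ 2 := by
      rw [← Real.rpow_natCast (N ^ (1 / 3 : ℝ)), ← Real.rpow_mul N0.le, ← Real.rpow_natCast N 2]
      norm_num
    have a2 : (Real.log T ^ (1 / 6 : ℝ)) ^ 6 = Real.log T := by
      rw [← Real.rpow_natCast (Real.log T ^ (1 / 6 : ℝ)), ← Real.rpow_mul lT.le]
      norm_num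
    rw [mul_pow, mul_pow, a1, a2]
    ring
  rw [e1]
  have h8 : 2 + 1 / δ ≤ 4 * Real.log T := by
    rw [hδ, one_div_one_div]
    linarith
  calc (3 : ℝ) ^ 6 * (16 * (2 + 1 / δ) * (264 * N) ^ 2) ≤
      3 ^ 6 * (16 * (4 * Real.log T) * (264 * N) ^ 2) := by gcongr
    _ = (3 ^ 6 * 16 * 4 * 264 ^ 2) * (N ^ 2 * Real.log T) := by ring
    _ ≤ (10 ^ 5) ^ 6 * (N ^ 2 * Real.log T) := by
        apply mul_le_mul_of_nonneg_right _ (by positivity)
        norm_num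

end Pool.Agent.L0h2.J.HAL3
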