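import Pool.Agent.L0h2.J.Stm
import Pool.Agent.Y911.CX.KEY
import Pool.Agent.R413.SQ.KEY
import Pool.Agent.R413.SQ.BOX

/-! Project J: the sum over the boxes. -/

set_option autoImplicit false

open scoped Classical

namespace Pool.Agent.L0h2.J.KEY

open Finset
open Pool.Agent.L0h2.J
open Pool.Agent.Y699.E (ez)
open Pool.Agent.Y703.CX (lam LamP sm la jj XX eL zz kk c3)
open Pool.Agent.Y703.CQ (nr sg c2)
open Pool.Agent.R413.SQ renaming mk → mk7
open Pool.Agent.Y911.CX (le_XX sm_la_card sm_la_prod root12 card_sub TT mem_TT harm_TT)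

/-- the class of a large prime -/
noncomputable def ph (H p : ℕ) : ℕ × ℕ := (jj H p, p % 252)

/-- the key of a set -/
noncomputable def ky (z H : ℕ) (S : Finset ℕ) : Finset ℕ × Finset (ℕ × ℕ) :=
  (sm z S, (la z S).image (ph H))

/-- the keys which occur -/
structure KP (X z H K V : ℕ) (S₀ : Finset ℕ) (J : Finset (ℕ × ℕ)) : Prop where
  pr : ∀ q ∈ S₀, q.Prime ∧ q % 4 = 1
  le : ∀ q ∈ S₀, q ≤ z
  ne : ∀ e ∈ J, e.2 % 3 ≠ 0 ∧ e.2 % 4 = 1
  one : (S₀.filter fun p => p % 3 = 2).card + (J.filter fun e => e.2 % 3 = 2).card = 1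
  m1 : ((∏ p ∈ S₀, p) * ∏ e ∈ J, e.2) % 9 ≠ 1
  m8 : ((∏ p ∈ S₀, p) * ∏ e ∈ J, e.2) % 9 ≠ 8
  inj : Set.InjOn Prod.fst (J : Set (ℕ × ℕ))
  card : S₀.card + J.card ≤ K
  prod : (∏ p ∈ S₀, p) * ∏ e ∈ J, XX H e.1 ≤ X
  few3 : S₀.card + V < (J.filter fun e => e.2 % 3 = 1).card
  few2 : 2 * S₀.card + V < (J.filter fun e => mk7 e.2 = 1).card
  ine : ∃ e ∈ J, mk7 e.2 ≠ 1

theorem mod3 (p : ℕ) : p % 252 % 3 = p % 3 := Nat.mod_mod_of_dvd p (by norm_num)
theorem mod4 (p : ℕ) : p % 252 % 4 = p % 4 := Nat.mod_mod_of_dvd p (by norm_num)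
theorem mod9 (p : ℕ) : p % 252 % 9 = p % 9 := Nat.mod_mod_of_dvd p (by norm_num)
theorem modm (p : ℕ) : mk7 (p % 252) = mk7 p := by
  unfold mk7
  rw [Nat.mod_mod_of_dvd p (by norm_num : 7 ∣ 252)]

theorem rr_iff {X z H K V : ℕ} (hH : 1 ≤ H) {S : Finset ℕ} (hS : ∀ q ∈ S, q.Prime)
    (hi : Set.InjOn (ph H) (la z S : Set ℕ)) :
    S ∈ RR X z H K V ↔ KP X z H K V (ky z H S).1 (ky z H S).2 := by
  set J := (la z S).image (ph H) with hJ
  have hky : ky z H S = (sm z S, J) := rfl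
  rw [hky]
  have f2 : J.card = (la z S).card := Finset.card_image_of_injOn hi
  have f3 : ∀ c, (J.filter fun e => e.2 % 3 = c).card =
      ((la z S).filter fun p => p % 3 = c).card := by
    intro c
    rw [hJ, Finset.filter_image, Finset.card_image_of_injOn]
    · congr 1
      refine Finset.filter_congr fun x _ => ?_
      unfold ph
      rw [mod3]
    · intro a ha b hb hab
      exact hi (Finset.mem_coe.2 (Finset.mem_filter.1 (Finset.mem_coe.1 ha)).1)
        (Finset.mem_coe.2 (Finset.mem_filter.1 (Finset.mem_coe.1 hb)).1) hab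
  have f3' : (J.filter fun e => mk7 e.2 = 1).card =
      ((la z S).filter fun p => mk7 p = 1).card := by
    rw [hJ, Finset.filter_image, Finset.card_image_of_injOn]
    · congr 1
      refine Finset.filter_congr fun x _ => ?_
      unfold ph
      rw [modm]
    · intro a ha b hb hab
      exact hi (Finset.mem_coe.2 (Finset.mem_filter.1 (Finset.mem_coe.1 ha)).1)
        (Finset.mem_coe.2 (Finset.mem_filter.1 (Finset.mem_coe.1 hb)).1) hab
  have f4 : (S.filter fun p => p % 3 = 2).card = ((sm z S).filter fun p => p % 3 = 2).card +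
      ((la z S).filter fun p => p % 3 = 2).card := by
    rw [← sm_la_card z (S.filter fun p => p % 3 = 2)]
    unfold sm la
    rw [Finset.filter_comm, Finset.filter_comm (fun p => p % 3 = 2) (fun p => ¬ p ≤ z)]
  have f6 : (∏ e ∈ J, e.2) % 9 = (∏ p ∈ la z S, p) % 9 := by
    have h1 : ∏ e ∈ J, e.2 = ∏ p ∈ la z S, p % 252 := by
      rw [hJ, Finset.prod_image hi]
      rfl
    rw [h1, Finset.prod_nat_mod (la z S) 9 (fun p => p % 252),
      Finset.prod_nat_mod (la z S) 9 (fun p => p)]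
    congr 1
    refine Finset.prod_congr rfl fun p _ => ?_
    rw [mod9]
  have f7 : (∏ p ∈ S, p) % 9 = ((∏ p ∈ sm z S, p) * ∏ e ∈ J, e.2) % 9 := by
    rw [← sm_la_prod z S, Nat.mul_mod, ← f6, ← Nat.mul_mod]
  have f8 : ∏ e ∈ J, XX H e.1 = ∏ p ∈ la z S, XX H (jj H p) := by
    rw [hJ, Finset.prod_image hi]
    rfl
  have f9 : Set.InjOn (jj H) (la z S : Set ℕ) ↔ Set.InjOn Prod.fst (J : Set (ℕ × ℕ)) := by
    constructor
    · intro h a ha b hb hab
      rw [Finset.mem_coe, hJ, Finset.mem_image] at ha hb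
      obtain ⟨p, hp, rfl⟩ := ha
      obtain ⟨q, hq, rfl⟩ := hb
      rw [h (Finset.mem_coe.2 hp) (Finset.mem_coe.2 hq) hab]
    · intro h p hp q hq hpq
      exact hi hp hq (h (Finset.mem_coe.2 (Finset.mem_image_of_mem _ (Finset.mem_coe.1 hp)))
        (Finset.mem_coe.2 (Finset.mem_image_of_mem _ (Finset.mem_coe.1 hq))) hpq)
  have f10 : (∃ e ∈ J, mk7 e.2 ≠ 1) ↔ ∃ p ∈ la z S, mk7 p ≠ 1 := by
    constructor
    · rintro ⟨e, he, h⟩
      rw [hJ, Finset.mem_image] at he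
      obtain ⟨p, hp, rfl⟩ := he
      refine ⟨p, hp, fun h' => h ?_⟩
      show mk7 (p % 252) = 1
      rw [modm]
      exact h'
    · rintro ⟨p, hp, h⟩
      refine ⟨ph H p, Finset.mem_image_of_mem _ hp, fun h' => h ?_⟩
      have : mk7 (p % 252) = 1 := h'
      rwa [modm] at this
  have hsm : sm z S ⊆ S := Finset.filter_subset _ _
  have hla : la z S ⊆ S := Finset.filter_subset _ _
  constructor
  · intro h
    unfold RR at h
    rw [Finset.mem_filter] at h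
    obtain ⟨h1, h2, h3, h4, h5, h5', h5''⟩ := h
    unfold SS at h1
    rw [Finset.mem_filter] at h1
    obtain ⟨-, ⟨h6, h7, h8, h9⟩, h10⟩ := h1
    refine ⟨fun q hq => h6 q (hsm hq), fun q hq => (Finset.mem_filter.1 hq).2, ?_, ?_, ?_, ?_,
      f9.1 h2, ?_, ?_, ?_, ?_, f10.2 h5''⟩
    · intro e he
      rw [hJ, Finset.mem_image] at he
      obtain ⟨p, hp, rfl⟩ := he
      unfold ph
      rw [mod3, mod4]
      have h11 := h6 p (hla hp)
      refine ⟨fun h0 => ?_, h11.2⟩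
      have := (Nat.prime_dvd_prime_iff_eq Nat.prime_three h11.1).1 (Nat.dvd_of_mod_eq_zero h0)
      omega
    · rw [f3, ← f4]
      exact h7
    · rw [← f7]
      exact h8
    · rw [← f7]
      exact h9
    · rw [f2, sm_la_card]
      exact h3
    · rw [f8]
      exact h4
    · rw [f3]
      exact h5
    · rw [f3']
      exact h5'
  · rintro ⟨k1, k2, k3, k4, k5, k6, k7, k8, k9, k10, k11, k12⟩
    have hprod : ∏ p ∈ S, p ≤ X := by
      rw [← sm_la_prod z S]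
      refine le_trans (Nat.mul_le_mul_left _ ?_) k9
      rw [f8]
      refine Finset.prod_le_prod' fun p hp => le_XX hH (hS p (hla hp)).one_le
    unfold RR SS
    rw [Finset.mem_filter, Finset.mem_filter, Finset.mem_powerset]
    refine ⟨⟨?_, ⟨?_, ?_, ?_, ?_⟩, hprod⟩, f9.2 k7, ?_, ?_, ?_, ?_, f10.1 k12⟩
    · intro q hq
      rw [Finset.mem_range]
      have h1 : q ∣ ∏ p ∈ S, p := Finset.dvd_prod_of_mem _ hq
      have h2 : 0 < ∏ p ∈ S, p := Finset.prod_pos fun p hp => (hS p hp).pos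
      have := Nat.le_of_dvd h2 h1
      omega
    · intro q hq
      refine ⟨hS q hq, ?_⟩
      by_cases h : q ≤ z
      · exact (k1 q (Finset.mem_filter.2 ⟨hq, h⟩)).2
      · have := (k3 (ph H q) (Finset.mem_image_of_mem _ (Finset.mem_filter.2 ⟨hq, h⟩))).2
        unfold ph at this
        rw [mod4] at this
        exact this
    · rw [f4, ← f3]
      exact k4
    · rw [f7]
      exact k5
    · rw [f7]
      exact k6
    · rw [← sm_la_card z S, ← f2]
      exact k8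
    · rw [← f8]
      exact k9
    · rw [← f3]
      exact k10
    · rw [← f3']
      exact k11

/-- the primes of a block -/
noncomputable def CC (z H : ℕ) (e : ℕ × ℕ) : Finset ℕ :=
  (Icc 1 (XX H e.1)).filter fun p => p.Prime ∧ z < p ∧ ph H p = e

theorem mem_CC {z H : ℕ} (hH : 1 ≤ H) {e : ℕ × ℕ} {p : ℕ} :
    p ∈ CC z H e ↔ p.Prime ∧ z < p ∧ ph H p = e := by
  unfold CC
  rw [Finset.mem_filter, Finset.mem_Icc]
  constructor
  · exact fun h => h.2
  · intro h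
    refine ⟨⟨h.1.one_le, ?_⟩, h⟩
    have := le_XX hH h.1.one_le
    have h2 : jj H p = e.1 := congrArg Prod.fst h.2.2
    rw [h2] at this
    exact this

section fill
variable {z H : ℕ} {S₀ : Finset ℕ} {J : Finset (ℕ × ℕ)} {p : J → ℕ}

theorem sm_fill (hH : 1 ≤ H) (h₀ : ∀ q ∈ S₀, q ≤ z) (hp : ∀ i : J, p i ∈ CC z H i) :
    sm z (S₀ ∪ univ.image p) = S₀ := by
  ext q
  unfold sm
  rw [Finset.mem_filter, Finset.mem_union, Finset.mem_image]
  constructor
  · rintro ⟨h | ⟨i, -, rfl⟩, h2⟩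
    · exact h
    · have := ((mem_CC hH).1 (hp i)).2.1
      omega
  · exact fun h => ⟨Or.inl h, h₀ q h⟩

theorem la_fill (hH : 1 ≤ H) (h₀ : ∀ q ∈ S₀, q ≤ z) (hp : ∀ i : J, p i ∈ CC z H i) :
    la z (S₀ ∪ univ.image p) = univ.image p := by
  ext q
  unfold la
  rw [Finset.mem_filter, Finset.mem_union, Finset.mem_image]
  constructor
  · rintro ⟨h | h, h2⟩
    · exact absurd (h₀ q h) h2
    · exact h
  · rintro ⟨i, -, rfl⟩
    have := ((mem_CC hH).1 (hp i)).2.1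
    exact ⟨Or.inr ⟨i, Finset.mem_univ _, rfl⟩, by omega⟩

theorem ph_fill (hH : 1 ≤ H) (hp : ∀ i : J, p i ∈ CC z H i) (i : J) : ph H (p i) = i :=
  ((mem_CC hH).1 (hp i)).2.2

theorem im_fill (hH : 1 ≤ H) (hp : ∀ i : J, p i ∈ CC z H i) :
    (univ.image p).image (ph H) = J := by
  ext k
  rw [Finset.mem_image]
  constructor
  · rintro ⟨q, hq, rfl⟩
    rw [Finset.mem_image] at hq
    obtain ⟨i, -, rfl⟩ := hq
    rw [ph_fill hH hp]
    exact i.2
  · intro hk
    exact ⟨p ⟨k, hk⟩, Finset.mem_image_of_mem _ (Finset.mem_univ _), ph_fill hH hp ⟨k, hk⟩⟩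

theorem ky_fill (hH : 1 ≤ H) (h₀ : ∀ q ∈ S₀, q ≤ z) (hp : ∀ i : J, p i ∈ CC z H i) :
    ky z H (S₀ ∪ univ.image p) = (S₀, J) := by
  unfold ky
  rw [sm_fill hH h₀ hp, la_fill hH h₀ hp, im_fill hH hp]

theorem inj_fill (hH : 1 ≤ H) (h₀ : ∀ q ∈ S₀, q ≤ z) (hp : ∀ i : J, p i ∈ CC z H i) :
    Set.InjOn (ph H) (la z (S₀ ∪ univ.image p) : Set ℕ) := by
  rw [la_fill hH h₀ hp]
  intro a ha b hb hab
  rw [Finset.mem_coe, Finset.mem_image] at ha hb
  obtain ⟨i, -, rfl⟩ := ha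
  obtain ⟨j, -, rfl⟩ := hb
  rw [ph_fill hH hp, ph_fill hH hp] at hab
  rw [Subtype.ext hab]

end fill

theorem rr_facts {X z H K V : ℕ} {S : Finset ℕ} (hS : S ∈ RR X z H K V) :
    (∀ q ∈ S, q.Prime) ∧ Set.InjOn (jj H) (la z S : Set ℕ) ∧ ∏ p ∈ S, p ≤ X := by
  unfold RR SS at hS
  rw [Finset.mem_filter, Finset.mem_filter] at hS
  exact ⟨fun q hq => (hS.1.2.1.1 q hq).1, hS.2.1, hS.1.2.2⟩

theorem inj_ph {H : ℕ} {A : Set ℕ} (h : Set.InjOn (jj H) A) : Set.InjOn (ph H) A :=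
  fun _ ha _ hb hab => h ha hb (congrArg Prod.fst hab)

theorem key_bij {X z H K V : ℕ} (hH : 1 ≤ H) {S₀ : Finset ℕ} {J : Finset (ℕ × ℕ)}
    (hkey : KP X z H K V S₀ J) (P : Finset ℕ → Prop) [DecidablePred P] [DecidableEq J] :
    ((Fintype.piFinset fun i : J => CC z H i).filter fun p => P (S₀ ∪ univ.image p)).card =
      ((RR X z H K V).filter fun S => ky z H S = (S₀, J) ∧ P S).card := by
  have h₀ := hkey.le
  apply Finset.card_bij (fun (p : J → ℕ) _ => S₀ ∪ univ.image p)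
  · intro p hp
    rw [Finset.mem_filter, Fintype.mem_piFinset] at hp
    obtain ⟨hp, hP⟩ := hp
    have hk := ky_fill hH h₀ hp
    rw [Finset.mem_filter]
    refine ⟨?_, hk, hP⟩
    rw [rr_iff hH _ (inj_fill hH h₀ hp), hk]
    · exact hkey
    · intro q hq
      rw [Finset.mem_union, Finset.mem_image] at hq
      rcases hq with hq | ⟨i, -, rfl⟩
      · exact (hkey.pr q hq).1
      · exact ((mem_CC hH).1 (hp i)).1
  · intro p hp p' hp' h
    rw [Finset.mem_filter, Fintype.mem_piFinset] at hp hp'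
    have h1 := la_fill hH h₀ hp.1
    rw [h, la_fill hH h₀ hp'.1] at h1
    funext i
    have h2 : p i ∈ univ.image p' := by
      rw [h1]
      exact Finset.mem_image_of_mem _ (Finset.mem_univ _)
    rw [Finset.mem_image] at h2
    obtain ⟨j, -, hj⟩ := h2
    have h3 := ph_fill hH hp.1 i
    have h4 := ph_fill hH hp'.1 j
    rw [hj, h3] at h4
    rw [← hj, Subtype.ext h4]
  · intro S hS
    rw [Finset.mem_filter] at hS
    obtain ⟨hSR, hSk, hSP⟩ := hS
    obtain ⟨hSO, hSI, -⟩ := rr_facts hSR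
    have hk1 : sm z S = S₀ := congrArg Prod.fst hSk
    have hk2 : (la z S).image (ph H) = J := congrArg Prod.snd hSk
    have hex : ∀ i : J, ∃ q ∈ la z S, ph H q = i := by
      rintro ⟨i, hi⟩
      rw [← hk2, Finset.mem_image] at hi
      exact hi
    choose p hp1 hp2 using hex
    have him : univ.image p = la z S := by
      ext q
      rw [Finset.mem_image]
      constructor
      · rintro ⟨i, -, rfl⟩
        exact hp1 i
      · intro hq
        have hjq : ph H q ∈ J := by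
          rw [← hk2]
          exact Finset.mem_image_of_mem _ hq
        exact ⟨⟨ph H q, hjq⟩, Finset.mem_univ _, inj_ph hSI (Finset.mem_coe.2 (hp1 _))
          (Finset.mem_coe.2 hq) (hp2 ⟨ph H q, hjq⟩)⟩
    have hSe : S₀ ∪ univ.image p = S := by
      rw [him, ← hk1]
      unfold sm la
      exact Finset.filter_union_filter_not_eq _ _
    refine ⟨p, ?_, hSe⟩
    rw [Finset.mem_filter, Fintype.mem_piFinset, hSe]
    refine ⟨fun i => (mem_CC hH).2 ⟨hSO _ (Finset.mem_filter.1 (hp1 i)).1,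
      not_le.1 (Finset.mem_filter.1 (hp1 i)).2, hp2 i⟩, hSP⟩

theorem CC_facts {z H : ℕ} (hH : 1 ≤ H) {e : ℕ × ℕ} {p : ℕ} (hp : p ∈ CC z H e) :
    p.Prime ∧ z < p ∧ p ≤ XX H e.1 ∧ p % 3 = e.2 % 3 ∧ p % 4 = e.2 % 4 ∧ mk7 p = mk7 e.2 := by
  obtain ⟨h1, h2, h3⟩ := (mem_CC hH).1 hp
  have h4 : p % 252 = e.2 := congrArg Prod.snd h3
  refine ⟨h1, h2, ?_, ?_, ?_, ?_⟩
  · unfold CC at hp
    exact (Finset.mem_Icc.1 (Finset.mem_filter.1 hp).1).2
  · rw [← h4, mod3]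
  · rw [← h4, mod4]
  · rw [← h4, modm]

theorem CC_disj {z H : ℕ} (hH : 1 ≤ H) {J : Finset (ℕ × ℕ)} (i l : J)
    (hil : i ≠ l) : Disjoint (CC z H i) (CC z H l) := by
  rw [Finset.disjoint_left]
  intro p hp hp'
  have h5 := ((mem_CC hH).1 hp).2.2
  have h6 := ((mem_CC hH).1 hp').2.2
  exact hil (Subtype.ext (h5.symm.trans h6))

theorem hb_box (hL : LamP) {C₁ C₂ C₃ C₄ C₅ : ℝ}
    (h1 : ∀ (P Q : Finset ℕ) (A B z : ℕ) (c d : ℕ → ℂ) (a b : ZMod 3),
      (∀ p ∈ P, p.Prime ∧ p % 3 = 1 ∧ p ≤ A) → (∀ q ∈ Q, q.Prime ∧ q % 3 = 1 ∧ q ≤ B) →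
      Disjoint P Q → (a ≠ 0 ∨ b ≠ 0) → 1 ≤ z → z ≤ A → z ≤ B →
      (∀ p, ‖c p‖ ≤ 1) → (∀ q, ‖d q‖ ≤ 1) →
      ‖∑ p ∈ P, ∑ q ∈ Q, c p * d q * ez (a * lam p q + b * lam q p)‖ ^ 12 * z ≤
        C₁ * ((A : ℝ) * B) ^ 12)
    (h2 : ∀ (P Q : Finset ℕ) (A B z : ℕ) (c d : ℕ → ℂ) (a : ZMod 3),
      (∀ p ∈ P, p.Prime ∧ p % 3 = 1 ∧ p ≤ A) → (∀ q ∈ Q, q.Prime ∧ q % 3 = 2 ∧ q ≤ B) →
      a ≠ 0 → 1 ≤ z → z ≤ A → z ≤ B → (∀ p, ‖c p‖ ≤ 1) → (∀ q, ‖d q‖ ≤ 1) →
      ‖∑ p ∈ P, ∑ q ∈ Q, c p * d q * ez (a * lam p q)‖ ^ 12 * z ≤ C₂ * ((A : ℝ) * B) ^ 12)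
    (h3 : ∀ (P Q : Finset ℕ) (A B z : ℕ) (c d : ℕ → ℂ),
      (∀ p ∈ P, p.Prime ∧ p % 4 = 1 ∧ p ≤ A) → (∀ q ∈ Q, q.Prime ∧ q ≠ 2 ∧ q ≤ B) →
      Disjoint P Q → 1 ≤ z → z ≤ A → z ≤ B →
      (∀ p, ‖c p‖ ≤ 1) → (∀ q, ‖d q‖ ≤ 1) →
      ‖∑ p ∈ P, ∑ q ∈ Q, c p * d q * sg (nr p q)‖ ^ 12 * z ≤
        C₃ * ((A : ℝ) * B) ^ 12)
    (h4 : ∀ (P Q : Finset ℕ) (A B z : ℕ) (c d : ℕ → ℂ) (a b : ZMod 3),
      (∀ p ∈ P, (p.Prime ∧ p % 4 = 1) ∧ p % 3 = 1 ∧ p ≤ A) →
      (∀ q ∈ Q, (q.Prime ∧ q % 4 = 1) ∧ q % 3 = 1 ∧ q ≤ B) →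
      Disjoint P Q → (a ≠ 0 ∨ b ≠ 0) → 1 ≤ z → z ≤ A → z ≤ B →
      (∀ p, ‖c p‖ ≤ 1) → (∀ q, ‖d q‖ ≤ 1) →
      ‖∑ p ∈ P, ∑ q ∈ Q, c p * d q * (ez (a * lam p q + b * lam q p) * sg (nr p q))‖ ^ 12 * z ≤
        C₄ * ((A : ℝ) * B) ^ 12)
    (h5 : ∀ (P Q : Finset ℕ) (A B z : ℕ) (c d : ℕ → ℂ) (a : ZMod 3),
      (∀ p ∈ P, (p.Prime ∧ p % 4 = 1) ∧ p % 3 = 1 ∧ p ≤ A) →
      (∀ q ∈ Q, (q.Prime ∧ q % 4 = 1) ∧ q % 3 = 2 ∧ q ≤ B) →
      a ≠ 0 → 1 ≤ z → z ≤ A → z ≤ B → (∀ p, ‖c p‖ ≤ 1) → (∀ q, ‖d q‖ ≤ 1) →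
      ‖∑ p ∈ P, ∑ q ∈ Q, c p * d q * (ez (a * lam p q) * sg (nr p q))‖ ^ 12 * z ≤
        C₅ * ((A : ℝ) * B) ^ 12)
    {z H : ℕ} (hH : 1 ≤ H) (hz : 1 ≤ z) {κ : ℝ} (hκ : 0 ≤ κ) (hκ1 : C₁ ≤ κ ^ 12 * z)
    (hκ2 : C₂ ≤ κ ^ 12 * z) (hκ3 : C₃ ≤ κ ^ 12 * z) (hκ4 : C₄ ≤ κ ^ 12 * z)
    (hκ5 : C₅ ≤ κ ^ 12 * z) {J : Finset (ℕ × ℕ)} (hne : ∀ e ∈ J, e.2 % 3 ≠ 0 ∧ e.2 % 4 = 1) :
    HB (univ.filter fun e : J => e.1.2 % 3 = 1) (fun i : J => CC z H i)
      (fun i => XX H i.1.1) κ := by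
  intro i l hil a b e c d hab ha hb hc hd
  show ‖∑ x ∈ CC z H i, ∑ y ∈ CC z H l, c x * d y *
      (ez (a * lam x y + b * lam y x) * sg (e * nr x y))‖ ≤
    κ * ((XX H i.1.1 : ℝ) * (XX H l.1.1 : ℝ))
  have hz0 : (0 : ℝ) < z := by exact_mod_cast hz
  have hk0 : (0 : ℝ) ≤ κ * ((XX H i.1.1 : ℝ) * (XX H l.1.1 : ℝ)) := by positivity
  rcases (CC z H i).eq_empty_or_nonempty with he | ⟨p₀, hp₀⟩
  · rw [he, Finset.sum_empty, norm_zero]
    exact hk0
  rcases (CC z H l).eq_empty_or_nonempty with he | ⟨q₀, hq₀⟩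
  · rw [he]
    simp only [Finset.sum_empty, Finset.sum_const_zero, norm_zero]
    exact hk0
  have hzi : z ≤ XX H i.1.1 := by
    have := CC_facts hH hp₀
    omega
  have hzl : z ≤ XX H l.1.1 := by
    have := CC_facts hH hq₀
    omega
  have m0 : ∀ e : J, ∀ p ∈ CC z H e, p.Prime ∧ p % 4 = 1 := by
    intro e p hp
    obtain ⟨h3, -, -, -, h5, -⟩ := CC_facts hH hp
    exact ⟨h3, h5.trans (hne e e.2).2⟩
  have m1 : ∀ e : J, e ∈ (univ.filter fun e : J => e.1.2 % 3 = 1) → ∀ p ∈ CC z H e,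
      (p.Prime ∧ p % 4 = 1) ∧ p % 3 = 1 ∧ p ≤ XX H e.1.1 := by
    intro e he p hp
    obtain ⟨h3, -, h4, h5, -, -⟩ := CC_facts hH hp
    exact ⟨m0 e p hp, h5.trans (Finset.mem_filter.1 he).2, h4⟩
  have m2 : ∀ e : J, e ∉ (univ.filter fun e : J => e.1.2 % 3 = 1) → ∀ p ∈ CC z H e,
      (p.Prime ∧ p % 4 = 1) ∧ p % 3 = 2 ∧ p ≤ XX H e.1.1 := by
    intro e he p hp
    obtain ⟨h3, -, h4, h5, -, -⟩ := CC_facts hH hp
    have h6 : ¬ e.1.2 % 3 = 1 := fun h => he (Finset.mem_filter.2 ⟨Finset.mem_univ _, h⟩)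
    have h7 := (hne e e.2).1
    exact ⟨m0 e p hp, by omega, h4⟩
  have hdis := CC_disj (z := z) hH i l hil
  have sg0 : ∀ x y : ℕ, sg (0 * nr x y) = 1 := by
    intro x y
    rw [zero_mul]
    unfold sg
    rw [if_pos rfl]
  have hsym : ∀ x ∈ CC z H i, ∀ y ∈ CC z H l, nr x y = nr y x := by
    intro x hx y hy
    exact Pool.Agent.R413.SQ.BOX.nr_symm (m0 i x hx).1 (m0 i x hx).2 (m0 l y hy).1
      (by have := (m0 l y hy).2; omega)
  have dn : ∀ {P : ℕ → Prop} {A : ℕ} {r : ℕ} {x : ℕ}, (x.Prime ∧ x % 4 = 1) ∧ x % 3 = r ∧ x ≤ A →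
      x.Prime ∧ x % 3 = r ∧ x ≤ A := fun h => ⟨h.1.1, h.2⟩
  rcases (show ∀ e : ZMod 2, e = 0 ∨ e = 1 by decide) e with he | he
  · -- only the cubic symbols
    subst he
    have hab' : a ≠ 0 ∨ b ≠ 0 := by
      rcases hab with h | h | h
      · exact Or.inl h
      · exact Or.inr h
      · exact absurd rfl h
    simp only [sg0, mul_one]
    by_cases hi : i ∈ (univ.filter fun e : J => e.1.2 % 3 = 1)
    · by_cases hl : l ∈ (univ.filter fun e : J => e.1.2 % 3 = 1)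
      · have g := h1 (CC z H i) (CC z H l) (XX H i.1.1) (XX H l.1.1) z c d a b
          (fun p hp => ⟨(m1 i hi p hp).1.1, (m1 i hi p hp).2⟩)
          (fun p hp => ⟨(m1 l hl p hp).1.1, (m1 l hl p hp).2⟩)
          hdis hab' hz hzi hzl hc hd
        exact root12 (norm_nonneg _) hκ (Nat.cast_nonneg _) (Nat.cast_nonneg _) hz0 g hκ1
      · have hb0 := hb hl
        have ha0 : a ≠ 0 := by
          rcases hab' with h | h
          · exact h
          · exact absurd hb0 h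
        have g := h2 (CC z H i) (CC z H l) (XX H i.1.1) (XX H l.1.1) z c d a
          (fun p hp => ⟨(m1 i hi p hp).1.1, (m1 i hi p hp).2⟩)
          (fun p hp => ⟨(m2 l hl p hp).1.1, (m2 l hl p hp).2⟩)
          ha0 hz hzi hzl hc hd
        have g' := root12 (norm_nonneg _) hκ (Nat.cast_nonneg _) (Nat.cast_nonneg _) hz0 g hκ2
        rw [hb0]
        simp only [zero_mul, add_zero]
        exact g'
    · have ha0 := ha hi
      have hb0 : b ≠ 0 := by
        rcases hab' with h | h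
        · exact absurd ha0 h
        · exact h
      have hl : l ∈ (univ.filter fun e : J => e.1.2 % 3 = 1) := by
        by_contra hl
        exact hb0 (hb hl)
      have g := h2 (CC z H l) (CC z H i) (XX H l.1.1) (XX H i.1.1) z d c b
        (fun p hp => ⟨(m1 l hl p hp).1.1, (m1 l hl p hp).2⟩)
        (fun p hp => ⟨(m2 i hi p hp).1.1, (m2 i hi p hp).2⟩)
        hb0 hz hzl hzi hd hc
      have g' := root12 (norm_nonneg _) hκ (Nat.cast_nonneg _) (Nat.cast_nonneg _) hz0 g hκ2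
      rw [ha0]
      simp only [zero_mul, zero_add]
      rw [Finset.sum_comm, mul_comm (XX H i.1.1 : ℝ)]
      have g5 : ∑ y ∈ CC z H l, ∑ x ∈ CC z H i, c x * d y * ez (b * lam y x) =
          ∑ y ∈ CC z H l, ∑ x ∈ CC z H i, d y * c x * ez (b * lam y x) := by
        refine Finset.sum_congr rfl fun y _ => Finset.sum_congr rfl fun x _ => ?_
        rw [mul_comm (c x)]
      rw [g5]
      exact g'
  · subst he
    simp only [one_mul]
    by_cases hab' : a ≠ 0 ∨ b ≠ 0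
    · -- both symbols
      by_cases hi : i ∈ (univ.filter fun e : J => e.1.2 % 3 = 1)
      · by_cases hl : l ∈ (univ.filter fun e : J => e.1.2 % 3 = 1)
        · have g := h4 (CC z H i) (CC z H l) (XX H i.1.1) (XX H l.1.1) z c d a b
            (m1 i hi) (m1 l hl) hdis hab' hz hzi hzl hc hd
          exact root12 (norm_nonneg _) hκ (Nat.cast_nonneg _) (Nat.cast_nonneg _) hz0 g hκ4
        · have hb0 := hb hl
          have ha0 : a ≠ 0 := by
            rcases hab' with h | h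
            · exact h
            · exact absurd hb0 h
          have g := h5 (CC z H i) (CC z H l) (XX H i.1.1) (XX H l.1.1) z c d a
            (m1 i hi) (m2 l hl) ha0 hz hzi hzl hc hd
          have g' := root12 (norm_nonneg _) hκ (Nat.cast_nonneg _) (Nat.cast_nonneg _) hz0 g hκ5
          rw [hb0]
          simp only [zero_mul, add_zero]
          exact g'
      · have ha0 := ha hi
        have hb0 : b ≠ 0 := by
          rcases hab' with h | h
          · exact absurd ha0 h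
          · exact h
        have hl : l ∈ (univ.filter fun e : J => e.1.2 % 3 = 1) := by
          by_contra hl
          exact hb0 (hb hl)
        have g := h5 (CC z H l) (CC z H i) (XX H l.1.1) (XX H i.1.1) z d c b
          (m1 l hl) (m2 i hi) hb0 hz hzl hzi hd hc
        have g' := root12 (norm_nonneg _) hκ (Nat.cast_nonneg _) (Nat.cast_nonneg _) hz0 g hκ5
        rw [ha0]
        simp only [zero_mul, zero_add]
        rw [Finset.sum_comm, mul_comm (XX H i.1.1 : ℝ)]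
        have g5 : ∑ y ∈ CC z H l, ∑ x ∈ CC z H i, c x * d y * (ez (b * lam y x) * sg (nr x y)) =
            ∑ y ∈ CC z H l, ∑ x ∈ CC z H i, d y * c x * (ez (b * lam y x) * sg (nr y x)) := by
          refine Finset.sum_congr rfl fun y hy => Finset.sum_congr rfl fun x hx => ?_
          rw [mul_comm (c x), hsym x hx y hy]
        rw [g5]
        exact g'
    · -- only the quadratic symbol
      push Not at hab'
      rw [hab'.1, hab'.2]
      simp only [zero_mul, add_zero, Pool.Agent.Y699.E.ez_zero, one_mul]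
      have g := h3 (CC z H i) (CC z H l) (XX H i.1.1) (XX H l.1.1) z c d
        (fun p hp => ⟨(m0 i p hp).1, (m0 i p hp).2, (CC_facts hH hp).2.2.1⟩)
        (fun p hp => ⟨(m0 l p hp).1, by have := (m0 l p hp).2; omega, (CC_facts hH hp).2.2.1⟩)
        hdis hz hzi hzl hc hd
      exact root12 (norm_nonneg _) hκ (Nat.cast_nonneg _) (Nat.cast_nonneg _) hz0 g hκ3

theorem box_dec (hBOX : S_BOX) (hEQ : S_EQ) (hLA3 : Pool.Agent.Y703.CX.S_LA)
    (hLA2 : Pool.Agent.Y703.CQ.S_LA) (f : ℕ → ZMod 2) (b : Bool × Bool) (ι : Type) [Fintype ι]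
    [inst : DecidableEq ι] (lo : LinearOrder ι) (J3 J2 : Finset ι)
    (C : ι → Finset ℕ) (X : ι → ℕ) (κ : ℝ) (S₀ : Finset ℕ) (h1 : 0 ≤ κ)
    (h2 : ∀ i, (C i).card ≤ X i) (h3 : HB J3 C X κ) (h4 : ∀ u ∈ S₀, u.Prime ∧ u % 4 = 1)
    (h5 : ∀ i, ∀ p ∈ C i, (p.Prime ∧ p % 4 = 1) ∧ p ∉ S₀ ∧ (i ∈ J3 → p % 3 = 1) ∧
      (i ∉ J3 → p % 3 = 2) ∧ (i ∈ J2 ↔ mk7 p = 1))
    (h6 : ∀ i l, i ≠ l → Disjoint (C i) (C l)) (h7 : J3.Nonempty) (h7' : ∃ i, i ∉ J2)
    (h8 : (S₀.filter fun p => p % 3 = 2).card + (J3ᶜ).card = 1) :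
    |(((Fintype.piFinset C).filter fun p => Nd S₀ (univ.image p) ∧
        Gd f b (S₀ ∪ univ.image p)).card : ℝ) -
      cc b * (((Fintype.piFinset C).filter fun p => Nd S₀ (univ.image p)).card : ℝ)| ≤
    (2 * (3 ^ S₀.card / 3 ^ J3.card) + 2 * (4 ^ S₀.card / 2 ^ J2.card)) *
      (((Fintype.piFinset C).filter fun p => Nd S₀ (univ.image p)).card : ℝ) +
    3 ^ (2 * S₀.card * Fintype.card ι + (Pool.Agent.Y703.CX.prs J3).card) *
      2 ^ ((2 * S₀.card + 1) * Fintype.card ι + (Pool.Agent.Y703.CQ.prs J2).card) *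
      (κ * ∏ j, (X j : ℝ)) := by
  have e : inst = fun a b => lo.toDecidableEq a b := Subsingleton.elim _ _
  subst e
  exact hBOX hEQ hLA3 hLA2 f b ι J3 J2 C X κ S₀ h1 h2 h3 h4 h5 h6 h7 h7' h8

theorem per_key (hBOX : S_BOX) (hEQ : S_EQ) (hLA3 : Pool.Agent.Y703.CX.S_LA)
    (hLA2 : Pool.Agent.Y703.CQ.S_LA) (f : ℕ → ZMod 2) (b : Bool × Bool) {X z H K V : ℕ}
    (hH : 1 ≤ H)
    {κ : ℝ} (hκ : 0 ≤ κ) {S₀ : Finset ℕ} {J : Finset (ℕ × ℕ)} (hk : KP X z H K V S₀ J)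
    (hHB : HB (univ.filter fun e : J => e.1.2 % 3 = 1) (fun i : J => CC z H i)
      (fun i => XX H i.1.1) κ) :
    |(((RR X z H K V).filter fun S => ky z H S = (S₀, J) ∧
        (Nd (sm z S) (la z S) ∧ Gd f b S)).card : ℝ) -
      cc b * (((RR X z H K V).filter fun S => ky z H S = (S₀, J) ∧
        Nd (sm z S) (la z S)).card : ℝ)| ≤
    4 * (1 / 2 : ℝ) ^ V * (((RR X z H K V).filter fun S => ky z H S = (S₀, J)).card : ℝ) +
      (3 ^ (8 * K ^ 2) * κ) * (X / ((∏ p ∈ S₀, p : ℕ) : ℝ)) := by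
  set J3 : Finset J := univ.filter fun e : J => e.1.2 % 3 = 1 with hJ3
  set J2 : Finset J := univ.filter fun e : J => mk7 e.1.2 = 1 with hJ2
  have c1 : ∀ (P : ℕ × ℕ → Prop) [DecidablePred P], (univ.filter fun e : J => P e.1).card =
      (J.filter P).card := by
    intro P _
    rw [← Finset.card_map (Function.Embedding.subtype (· ∈ J))]
    congr 1
    ext x
    simp only [Finset.mem_map, Finset.mem_filter, Finset.mem_univ, true_and,
      Function.Embedding.coe_subtype]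
    constructor
    · rintro ⟨u, hu, rfl⟩
      exact ⟨u.2, hu⟩
    · rintro ⟨h, h'⟩
      exact ⟨⟨x, h⟩, h', rfl⟩
  have hfew3 : S₀.card + V < J3.card := by
    rw [hJ3, c1 (fun e => e.2 % 3 = 1)]
    exact hk.few3
  have hfew2 : 2 * S₀.card + V < J2.card := by
    rw [hJ2, c1 (fun e => mk7 e.2 = 1)]
    exact hk.few2
  have c2 : J3ᶜ = univ.filter fun e : J => e.1.2 % 3 = 2 := by
    ext e
    rw [Finset.mem_compl, hJ3, Finset.mem_filter, Finset.mem_filter]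
    have := (hk.ne e e.2).1
    simp only [Finset.mem_univ, true_and]
    omega
  have hinj : Function.Injective (fun i : J => i.1.1) := by
    intro a b hab
    exact Subtype.ext (hk.inj (Finset.mem_coe.2 a.2) (Finset.mem_coe.2 b.2) hab)
  let lo : LinearOrder J := LinearOrder.lift' (fun i : J => i.1.1) hinj
  have hbox := box_dec hBOX hEQ hLA3 hLA2 f b J lo J3 J2 (fun i => CC z H i)
    (fun i => XX H i.1.1) κ S₀ hκ
    (fun i => by
      refine (Finset.card_filter_le _ _).trans ?_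
      rw [Nat.card_Icc]
      omega)
    hHB hk.pr
    (fun i p hp => by
      obtain ⟨h3, h3', h4, h5, h6, h7⟩ := CC_facts hH hp
      refine ⟨⟨h3, h6.trans (hk.ne i i.2).2⟩, fun h => ?_, fun h => ?_, fun h => ?_, ?_⟩
      · have := hk.le p h
        omega
      · exact h5.trans (Finset.mem_filter.1 h).2
      · have h6 : ¬ i.1.2 % 3 = 1 := fun h' => h (Finset.mem_filter.2 ⟨Finset.mem_univ _, h'⟩)
        have h7 := (hk.ne i i.2).1
        omega
      · rw [hJ2, Finset.mem_filter, h7]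
        simp)
    (fun i l hil => CC_disj hH i l hil)
    (by
      rw [← Finset.card_pos]
      omega)
    (by
      obtain ⟨e, he, h1⟩ := hk.ine
      exact ⟨⟨e, he⟩, fun h => h1 (Finset.mem_filter.1 h).2⟩)
    (by
      rw [c2, c1 (fun e => e.2 % 3 = 2)]
      exact hk.one)
  have e1 : ((Fintype.piFinset fun i : J => CC z H i).filter fun p => Nd S₀ (univ.image p) ∧
      Gd f b (S₀ ∪ univ.image p)).card = ((RR X z H K V).filter fun S => ky z H S = (S₀, J) ∧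
        (Nd (sm z S) (la z S) ∧ Gd f b S)).card := by
    rw [← key_bij hH hk (fun S => Nd (sm z S) (la z S) ∧ Gd f b S)]
    congr 1
    refine Finset.filter_congr fun p hp => ?_
    rw [Fintype.mem_piFinset] at hp
    rw [sm_fill hH hk.le hp, la_fill hH hk.le hp]
  have e2 : ((Fintype.piFinset fun i : J => CC z H i).filter fun p =>
      Nd S₀ (univ.image p)).card = ((RR X z H K V).filter fun S => ky z H S = (S₀, J) ∧
        Nd (sm z S) (la z S)).card := by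
    rw [← key_bij hH hk (fun S => Nd (sm z S) (la z S))]
    congr 1
    refine Finset.filter_congr fun p hp => ?_
    rw [Fintype.mem_piFinset] at hp
    rw [sm_fill hH hk.le hp, la_fill hH hk.le hp]
  rw [e1, e2] at hbox
  refine hbox.trans (add_le_add ?_ ?_)
  · have h3 : ((3 : ℝ) ^ S₀.card / 3 ^ J3.card) ≤ (1 / 2) ^ V := by
      rw [div_le_iff₀ (by positivity)]
      have h4 : (3 : ℝ) ^ (S₀.card + V) ≤ 3 ^ J3.card :=
        pow_le_pow_right₀ (by norm_num) hfew3.le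
      have h5 : (1 / 3 : ℝ) ^ V * 3 ^ (S₀.card + V) = 3 ^ S₀.card := by
        rw [pow_add, mul_comm, mul_assoc, ← mul_pow]
        norm_num
      have h6 : (1 / 3 : ℝ) ^ V ≤ (1 / 2) ^ V := pow_le_pow_left₀ (by norm_num) (by norm_num) V
      calc (3 : ℝ) ^ S₀.card = (1 / 3 : ℝ) ^ V * 3 ^ (S₀.card + V) := h5.symm
        _ ≤ _ := by gcongr
    have h3' : ((4 : ℝ) ^ S₀.card / 2 ^ J2.card) ≤ (1 / 2) ^ V := by
      rw [div_le_iff₀ (by positivity)]
      have h4 : (2 : ℝ) ^ (2 * S₀.card + V) ≤ 2 ^ J2.card :=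
        pow_le_pow_right₀ (by norm_num) hfew2.le
      have h5 : (1 / 2 : ℝ) ^ V * 2 ^ (2 * S₀.card + V) = 4 ^ S₀.card := by
        rw [pow_add, mul_comm, mul_assoc, ← mul_pow, pow_mul]
        norm_num
      calc (4 : ℝ) ^ S₀.card = (1 / 2 : ℝ) ^ V * 2 ^ (2 * S₀.card + V) := h5.symm
        _ ≤ _ := by gcongr
    have h4 : (((RR X z H K V).filter fun S => ky z H S = (S₀, J) ∧
        Nd (sm z S) (la z S)).card : ℝ) ≤
        (((RR X z H K V).filter fun S => ky z H S = (S₀, J)).card : ℝ) := by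
      have : (RR X z H K V).filter (fun S => ky z H S = (S₀, J) ∧ Nd (sm z S) (la z S)) ⊆
          (RR X z H K V).filter fun S => ky z H S = (S₀, J) := by
        intro S hS
        rw [Finset.mem_filter] at hS ⊢
        exact ⟨hS.1, hS.2.1⟩
      exact_mod_cast Finset.card_le_card this
    have h6 : 2 * ((3 : ℝ) ^ S₀.card / 3 ^ J3.card) + 2 * ((4 : ℝ) ^ S₀.card / 2 ^ J2.card) ≤
        4 * (1 / 2) ^ V := by linarith
    gcongr
  · have hcJ : Fintype.card J = J.card := Fintype.card_coe J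
    have hcard := hk.card
    have hJK : J.card ≤ K := by omega
    have hSK : S₀.card ≤ K := by omega
    have hpr3 : (Pool.Agent.Y703.CX.prs J3).card ≤ K * K := by
      refine (Pool.Agent.Y911.CX.prs_card J3).trans ?_
      rw [hcJ]
      exact Nat.mul_le_mul hJK hJK
    obtain ⟨m, hm⟩ : ∃ m : ℕ, m = (@Pool.Agent.Y703.CQ.prs J _ lo J2).card := ⟨_, rfl⟩
    have hpr : m ≤ K * K := by
      rw [hm]
      refine (@Pool.Agent.R413.SQ.KEY.prs_card J _ lo J2).trans ?_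
      rw [hcJ]
      exact Nat.mul_le_mul hJK hJK
    rw [← hm]
    have hexp3 : 2 * S₀.card * Fintype.card J + (Pool.Agent.Y703.CX.prs J3).card ≤ 3 * K ^ 2 := by
      rw [hcJ]
      have h5 : S₀.card * J.card ≤ K * K := Nat.mul_le_mul hSK hJK
      calc 2 * S₀.card * J.card + (Pool.Agent.Y703.CX.prs J3).card ≤ 2 * (K * K) + K * K := by
            rw [mul_assoc]
            omega
        _ = 3 * K ^ 2 := by ring
    have h5a : (3 : ℝ) ^ (2 * S₀.card * Fintype.card J + (Pool.Agent.Y703.CX.prs J3).card) ≤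
        3 ^ (3 * K ^ 2) := pow_le_pow_right₀ (by norm_num) hexp3
    have h5b : (2 : ℝ) ^ ((2 * S₀.card + 1) * Fintype.card J + m) ≤ 3 ^ (5 * K ^ 2) := by
      rcases Nat.eq_zero_or_pos K with hk0 | hk0
      · have h6 : J.card = 0 := by omega
        have h7 : m = 0 := by
          rw [hk0] at hpr
          omega
        rw [hcJ, h6, h7]
        simp [hk0]
      · have hexp : (2 * S₀.card + 1) * Fintype.card J + m ≤ 5 * K ^ 2 := by
          rw [hcJ]
          have h6 : S₀.card * J.card ≤ K * K := Nat.mul_le_mul hSK hJK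
          have h7 : K ≤ K * K := Nat.le_mul_of_pos_left K hk0
          calc (2 * S₀.card + 1) * J.card + m = 2 * (S₀.card * J.card) + J.card + m := by ring
            _ ≤ 2 * (K * K) + K * K + K * K := by omega
            _ ≤ 5 * K ^ 2 := by nlinarith
        calc (2 : ℝ) ^ ((2 * S₀.card + 1) * Fintype.card J + m) ≤ 2 ^ (5 * K ^ 2) :=
              pow_le_pow_right₀ (by norm_num) hexp
          _ ≤ 3 ^ (5 * K ^ 2) := by
              apply pow_le_pow_left₀ <;> norm_num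
    have hN0 : (0 : ℝ) < ((∏ p ∈ S₀, p : ℕ) : ℝ) := by
      exact_mod_cast Finset.prod_pos fun p hp => (hk.pr p hp).1.pos
    have hprod : ∏ j : J, (XX H j.1.1 : ℝ) ≤ X / ((∏ p ∈ S₀, p : ℕ) : ℝ) := by
      have h5 : ∏ j : J, (XX H j.1.1 : ℝ) = ((∏ k ∈ J, XX H k.1 : ℕ) : ℝ) := by
        rw [← Finset.prod_coe_sort J (fun k => XX H k.1)]
        push_cast
        rfl
      rw [h5, le_div_iff₀ hN0, mul_comm]
      exact_mod_cast hk.prod
    have h8 : (3 : ℝ) ^ (8 * K ^ 2) = 3 ^ (3 * K ^ 2) * 3 ^ (5 * K ^ 2) := by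
      rw [← pow_add]
      congr 1
      ring
    calc (3 : ℝ) ^ (2 * S₀.card * Fintype.card J + (Pool.Agent.Y703.CX.prs J3).card) *
        2 ^ ((2 * S₀.card + 1) * Fintype.card J + m) *
        (κ * ∏ j : J, (XX H j.1.1 : ℝ)) ≤
        3 ^ (3 * K ^ 2) * 3 ^ (5 * K ^ 2) * (κ * (X / ((∏ p ∈ S₀, p : ℕ) : ℝ))) := by gcongr
      _ = _ := by rw [h8]; ring

/-- **J-KEY.** -/
theorem t_KEY : S_KEY := by
  intro hL hB1 hB2 hB3 hB4 hB5 hEQ hLA3 hLA2 hBOX
  obtain ⟨C₁, hC₁, h1⟩ := hB1 hL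
  obtain ⟨C₂, hC₂, h2⟩ := hB2 hL
  obtain ⟨C₃, hC₃, h3⟩ := hB3
  obtain ⟨C₄, hC₄, h4⟩ := hB4 hL
  obtain ⟨C₅, hC₅, h5⟩ := hB5 hL
  refine ⟨C₁ + C₂ + C₃ + C₄ + C₅, by linarith, ?_⟩
  intro f b X z H K V N κ hX hH hz hκ hκz hN
  set T := (RR X z H K V).image (ky z H) with hT
  set B : ℝ := 3 ^ (8 * K ^ 2) * κ with hB
  have hB0 : 0 ≤ B := by positivity
  have hfib : ∀ (P : Finset ℕ → Prop) [DecidablePred P], (((RR X z H K V).filter fun S => P S).card : ℝ) =
      ∑ k ∈ T, (((RR X z H K V).filter fun S => ky z H S = k ∧ P S).card : ℝ) := by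
    intro P _
    rw [Finset.card_eq_sum_card_fiberwise (f := ky z H) (t := T) (by
      intro S hS
      rw [Finset.mem_coe, Finset.mem_filter] at hS
      exact Finset.mem_coe.2 (Finset.mem_image_of_mem _ hS.1))]
    push_cast
    refine Finset.sum_congr rfl fun k _ => ?_
    congr 2
    ext S
    simp only [Finset.mem_filter]
    tauto
  have hKP : ∀ k ∈ T, KP X z H K V k.1 k.2 := by
    intro k hk
    rw [hT, Finset.mem_image] at hk
    obtain ⟨S, hS, rfl⟩ := hk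
    obtain ⟨f1, f2, f3⟩ := rr_facts hS
    exact (rr_iff hH f1 (inj_ph f2)).1 hS
  have hf1 := hfib fun S => Nd (sm z S) (la z S) ∧ Gd f b S
  have hf2 := hfib fun S => Nd (sm z S) (la z S)
  have hf3 := hfib fun _ => True
  simp only [and_true, Finset.filter_true] at hf3
  rw [hf1, hf2, hf3, Finset.mul_sum, ← Finset.sum_sub_distrib]
  refine (Finset.abs_sum_le_sum_abs _ _).trans ?_
  have h3 : ∀ k ∈ T, |(((RR X z H K V).filter fun S => ky z H S = k ∧
        (Nd (sm z S) (la z S) ∧ Gd f b S)).card : ℝ) -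
      cc b * (((RR X z H K V).filter fun S => ky z H S = k ∧
        Nd (sm z S) (la z S)).card : ℝ)| ≤
      4 * (1 / 2 : ℝ) ^ V * (((RR X z H K V).filter fun S => ky z H S = k).card : ℝ) +
      B * (X / ((∏ p ∈ k.1, p : ℕ) : ℝ)) := by
    intro k hk
    obtain ⟨S₀, J⟩ := k
    have hk' := hKP _ hk
    exact per_key hBOX hEQ hLA3 hLA2 f b hH hκ hk' (hb_box hL h1 h2 h3 h4 h5 hH hz hκ
      (by linarith) (by linarith) (by linarith) (by linarith) (by linarith) hk'.ne)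
  refine (Finset.sum_le_sum h3).trans ?_
  rw [Finset.sum_add_distrib, ← Finset.mul_sum]
  refine add_le_add le_rfl ?_
  have hsub : T ⊆ (TT X) ×ˢ ((range N ×ˢ range 252).powerset.filter fun J => J.card ≤ K) := by
    intro k hk
    have hk' := hKP k hk
    rw [hT, Finset.mem_image] at hk
    obtain ⟨S, hS, rfl⟩ := hk
    obtain ⟨f1, f2, f3⟩ := rr_facts hS
    rw [Finset.mem_product, Finset.mem_filter, Finset.mem_powerset]
    refine ⟨mem_TT (fun q hq => (hk'.pr q hq).1) ?_, ?_, ?_⟩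
    · refine le_trans ?_ f3
      exact Nat.le_of_dvd (Finset.prod_pos fun p hp => (f1 p hp).pos)
        (Finset.prod_dvd_prod_of_subset _ _ _ (Finset.filter_subset _ _))
    · intro e he
      unfold ky at he
      rw [Finset.mem_image] at he
      obtain ⟨q, hq, rfl⟩ := he
      have hqS := (Finset.mem_filter.1 hq).1
      have hq0 := (f1 q hqS).pos
      have hqX : q ≤ X := by
        refine le_trans ?_ f3
        exact Nat.le_of_dvd (Finset.prod_pos fun p hp => (f1 p hp).pos)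
          (Finset.dvd_prod_of_mem _ hqS)
      unfold ph
      rw [Finset.mem_product, Finset.mem_range, Finset.mem_range]
      refine ⟨?_, Nat.mod_lt _ (by norm_num)⟩
      have h3 : ((jj H q : ℕ) : ℝ) < N := by
        refine lt_of_le_of_lt (Nat.floor_le (mul_nonneg (Nat.cast_nonneg _)
          (Real.log_nonneg (by exact_mod_cast hq0)))) ?_
        refine lt_of_le_of_lt ?_ hN
        refine mul_le_mul_of_nonneg_left ?_ (Nat.cast_nonneg _)
        exact Real.log_le_log (by exact_mod_cast hq0) (by exact_mod_cast hqX)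
      exact_mod_cast h3
    · have := hk'.card
      omega
  refine (Finset.sum_le_sum_of_subset_of_nonneg hsub fun _ _ _ => by positivity).trans ?_
  rw [Finset.sum_product]
  simp only [Finset.sum_const, nsmul_eq_mul]
  rw [← Finset.mul_sum]
  have h4 : ((((range N ×ˢ range 252).powerset.filter fun J => J.card ≤ K).card : ℕ) : ℝ) ≤
      (252 * N + 252 : ℝ) ^ K := by
    have h5 := card_sub (range N ×ˢ range 252) K
    rw [Finset.card_product, Finset.card_range, Finset.card_range] at h5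
    calc ((((range N ×ˢ range 252).powerset.filter fun J => J.card ≤ K).card : ℕ) : ℝ) ≤
          (((N * 252 + 1) ^ K : ℕ) : ℝ) := by exact_mod_cast h5
      _ = (N * 252 + 1 : ℝ) ^ K := by push_cast; ring
      _ ≤ _ := by
        apply pow_le_pow_left₀ (by positivity)
        linarith
  have h5 : ∑ S ∈ TT X, B * (X / ((∏ p ∈ S, p : ℕ) : ℝ)) ≤ B * (X * (1 + Real.log X)) := by
    have h6 : ∀ S ∈ TT X, B * ((X : ℝ) / ((∏ p ∈ S, p : ℕ) : ℝ)) =
        B * X * (1 / ((∏ p ∈ S, p : ℕ) : ℝ)) := by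
      intro S _
      ring
    rw [Finset.sum_congr rfl h6, ← Finset.mul_sum]
    have h7 := mul_le_mul_of_nonneg_left (harm_TT X) (mul_nonneg hB0 (Nat.cast_nonneg X))
    refine h7.trans (le_of_eq ?_)
    ring
  have h6 : 0 ≤ ∑ S ∈ TT X, B * ((X : ℝ) / ((∏ p ∈ S, p : ℕ) : ℝ)) :=
    Finset.sum_nonneg fun _ _ => by positivity
  rw [mul_assoc]
  gcongr

end Pool.Agent.L0h2.J.KEY
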