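import Pool.Agent.L0h2.J.Stm
import Pool.Agent.Y302.CQ.LowA
import Pool.Agent.Y461.CX.LOW

/-!
# Project J: the lower bound for the size of the class (after the files of helper302 and helper461)
-/

set_option autoImplicit false

open scoped Classical

namespace Pool.Agent.L0h2.J.LOW

open Finset
open Pool.Agent.L0h2.J
open Pool.Agent.Y302.CQ (P2 M1 G1_lower)
open Pool.Agent.Y461.CX (prod_mod_three)

/-- the class -/
def cls (p : ℕ) : Prop := p % 12 = 1

/-- the residues modulo `252` outside the class -/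
def Res : Finset ℕ := (range 252).filter fun a => Nat.Coprime a 252 ∧ ¬ a % 12 = 1

theorem card_Res : Res.card = 54 := by decide +kernel

/-- Mertens' theorem for the primes outside the class. -/
theorem mert (hM : S_MER) : ∃ C : ℝ, ∀ y : ℕ, 3 ≤ y →
    ∑ p ∈ P2 cls y, (1 : ℝ) / p ≤ 3 / 4 * Real.log (Real.log y) + C := by
  have hM' : ∀ a : ℕ, ∃ C : ℝ, Nat.Coprime a 252 → ∀ y : ℕ, 3 ≤ y →
      |∑ p ∈ (range (y + 1)).filter (fun p => p.Prime ∧ p % 252 = a % 252), (1 : ℝ) / p -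
        1 / 72 * Real.log (Real.log y)| ≤ C := by
    intro a
    by_cases ha : Nat.Coprime a 252
    · obtain ⟨C, hC⟩ := hM a ha
      exact ⟨C, fun _ => hC⟩
    · exact ⟨0, fun h => absurd h ha⟩
  choose C hC using hM'
  refine ⟨∑ p ∈ ({2, 3, 7} : Finset ℕ), (1 : ℝ) / p + ∑ a ∈ Res, C a, ?_⟩
  intro y hy
  have h1 := Finset.sum_filter_add_sum_filter_not (P2 cls y)
    (fun p => p ∈ ({2, 3, 7} : Finset ℕ)) (fun p => (1 : ℝ) / p)
  have h2 : ∑ p ∈ (P2 cls y).filter (fun p => p ∈ ({2, 3, 7} : Finset ℕ)), (1 : ℝ) / p ≤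
      ∑ p ∈ ({2, 3, 7} : Finset ℕ), (1 : ℝ) / p := by
    apply Finset.sum_le_sum_of_subset_of_nonneg
    · intro p hp
      exact (mem_filter.mp hp).2
    · intro p _ _
      positivity
  have hmaps : ∀ p ∈ (P2 cls y).filter (fun p => ¬ p ∈ ({2, 3, 7} : Finset ℕ)),
      p % 252 ∈ Res := by
    intro p hp
    rw [mem_filter, P2, mem_filter] at hp
    obtain ⟨⟨_, hpp, hpc⟩, hp4⟩ := hp
    simp only [mem_insert, mem_singleton, not_or] at hp4
    obtain ⟨h_2, h_3, h_7⟩ := hp4
    rw [Res, mem_filter, mem_range]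
    refine ⟨Nat.mod_lt _ (by norm_num), ?_, ?_⟩
    · have h3 : Nat.Coprime p 252 := by
        rw [Nat.Prime.coprime_iff_not_dvd hpp]
        intro h4
        rw [show (252 : ℕ) = 2 ^ 2 * (3 ^ 2 * 7) by norm_num, hpp.dvd_mul, hpp.dvd_mul] at h4
        rcases h4 with h4 | h4 | h4
        · have := hpp.dvd_of_dvd_pow h4
          exact h_2 ((Nat.prime_dvd_prime_iff_eq hpp Nat.prime_two).mp this)
        · have := hpp.dvd_of_dvd_pow h4
          exact h_3 ((Nat.prime_dvd_prime_iff_eq hpp Nat.prime_three).mp this)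
        · exact h_7 ((Nat.prime_dvd_prime_iff_eq hpp (by norm_num)).mp h4)
      have h4 : Nat.gcd 252 p = Nat.gcd (p % 252) 252 := Nat.gcd_rec 252 p
      unfold Nat.Coprime at h3 ⊢
      rw [← h4, Nat.gcd_comm]
      exact h3
    · rw [Nat.mod_mod_of_dvd p (by norm_num : 12 ∣ 252)]
      exact hpc
  have h3 : ∑ p ∈ (P2 cls y).filter (fun p => ¬ p ∈ ({2, 3, 7} : Finset ℕ)), (1 : ℝ) / p ≤
      ∑ a ∈ Res, (1 / 72 * Real.log (Real.log y) + C a) := by
    rw [← Finset.sum_fiberwise_of_maps_to hmaps]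
    apply Finset.sum_le_sum
    intro a ha
    have hco : Nat.Coprime a 252 := by
      rw [Res, mem_filter] at ha
      exact ha.2.1
    have ha56 : a % 252 = a := by
      rw [Res, mem_filter, mem_range] at ha
      exact Nat.mod_eq_of_lt ha.1
    have h4 := (abs_le.mp (hC a hco y hy)).2
    have h5 : ∑ p ∈ ((P2 cls y).filter (fun p => ¬ p ∈ ({2, 3, 7} : Finset ℕ))).filter
        (fun p => p % 252 = a), (1 : ℝ) / p ≤
        ∑ p ∈ (range (y + 1)).filter (fun p => p.Prime ∧ p % 252 = a % 252), (1 : ℝ) / p := by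
      apply Finset.sum_le_sum_of_subset_of_nonneg
      · intro p hp
        rw [mem_filter, mem_filter, P2, mem_filter] at hp
        rw [mem_filter, ha56]
        exact ⟨hp.1.1.1, hp.1.1.2.1, hp.2⟩
      · intro p _ _
        positivity
    linarith
  rw [← h1]
  have h4 : ∑ a ∈ Res, (1 / 72 * Real.log (Real.log y) + C a) =
      3 / 4 * Real.log (Real.log y) + ∑ a ∈ Res, C a := by
    rw [Finset.sum_add_distrib, Finset.sum_const, nsmul_eq_mul, card_Res]
    push_cast
    ring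
  rw [h4] at h3
  linarith

theorem mem_M1 {y : ℕ} {S : Finset ℕ} (h : S ∈ M1 cls y) :
    (∀ p ∈ S, p.Prime ∧ p % 12 = 1 ∧ p ≤ y) ∧ ∏ p ∈ S, p ≤ y := by
  rw [M1, mem_filter, mem_powerset] at h
  refine ⟨fun p hp => ?_, h.2⟩
  have := h.1 hp
  rw [mem_filter, mem_range] at this
  exact ⟨this.2.1, this.2.2, by omega⟩

/-- the class modulo `252` of the additional prime -/
def bb (m : ℕ) : ℕ := if m % 9 = 4 then 113 else 29

theorem bb_cop (m : ℕ) : Nat.Coprime (bb m) 252 := by
  unfold bb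
  split_ifs <;> decide

theorem bb_mod (m : ℕ) : bb m % 252 = bb m := by
  unfold bb
  split_ifs <;> rfl

theorem bb_or (m : ℕ) : bb m = 29 ∨ bb m = 113 := by
  unfold bb; split_ifs <;> simp

/-- the pairs -/
noncomputable def DD (X y : ℕ) : Finset (Σ _ : Finset ℕ, ℕ) :=
  (M1 cls y).sigma fun S => (range (X / (∏ p ∈ S, p) + 1)).filter
    fun q => q.Prime ∧ q % 252 = bb (∏ p ∈ S, p)

theorem card_DD_le (X y : ℕ) (hy : y ≤ X) : (DD X y).card ≤ (SS X).card := by
  refine Finset.card_le_card_of_injOn (fun t => insert t.2 t.1) ?_ ?_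
  · rintro ⟨S, q⟩ ht
    rw [mem_coe, DD, mem_sigma, mem_filter, mem_range] at ht
    obtain ⟨hS, hq, hqp, hq9⟩ := ht
    obtain ⟨h1, h2⟩ := mem_M1 hS
    simp only at hq hqp hq9
    have hqq : q % 252 = 29 ∨ q % 252 = 113 := by rw [hq9]; exact bb_or _
    have hq3 : q % 3 = 2 := by omega
    have hq4 : q % 4 = 1 := by omega
    have hqS : q ∉ S := fun h => by have := (h1 q h).2.1; omega
    have hm0 : 0 < ∏ p ∈ S, p := Finset.prod_pos fun p hp => (h1 p hp).1.pos
    have hqm : q * ∏ p ∈ S, p ≤ X := by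
      have : q ≤ X / ∏ p ∈ S, p := by omega
      exact (Nat.le_div_iff_mul_le hm0).mp this
    have hm3 := prod_mod_three S fun p hp => by have := (h1 p hp).2.1; omega
    have hq9' : q % 9 = if (∏ p ∈ S, p) % 9 = 4 then 5 else 2 := by
      unfold bb at hq9
      split_ifs at hq9 ⊢ <;> omega
    rw [mem_coe, SS, mem_filter, mem_powerset]
    refine ⟨?_, ⟨?_, ?_, ?_, ?_⟩, ?_⟩
    · intro p hp
      rw [mem_insert] at hp
      rw [mem_range]
      rcases hp with rfl | hp
      · have : p ≤ p * ∏ p ∈ S, p := Nat.le_mul_of_pos_right _ hm0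
        omega
      · have := (h1 p hp).2.2; omega
    · intro p hp
      rw [mem_insert] at hp
      rcases hp with rfl | hp
      · exact ⟨hqp, hq4⟩
      · have := h1 p hp
        exact ⟨this.1, by omega⟩
    · rw [Finset.card_eq_one]
      refine ⟨q, ?_⟩
      ext p
      simp only [mem_filter, mem_insert, mem_singleton]
      constructor
      · rintro ⟨rfl | hp, h3⟩
        · rfl
        · have := (h1 p hp).2.1; omega
      · rintro rfl
        exact ⟨Or.inl rfl, hq3⟩
    · rw [Finset.prod_insert hqS, Nat.mul_mod, hq9']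
      have : (∏ p ∈ S, p) % 9 = 1 ∨ (∏ p ∈ S, p) % 9 = 4 ∨ (∏ p ∈ S, p) % 9 = 7 := by omega
      rcases this with h | h | h <;> rw [h] <;> norm_num
    · rw [Finset.prod_insert hqS, Nat.mul_mod, hq9']
      have : (∏ p ∈ S, p) % 9 = 1 ∨ (∏ p ∈ S, p) % 9 = 4 ∨ (∏ p ∈ S, p) % 9 = 7 := by omega
      rcases this with h | h | h <;> rw [h] <;> norm_num
    · rw [Finset.prod_insert hqS]
      exact hqm
  · rintro ⟨S, q⟩ ht ⟨S', q'⟩ ht' he
    rw [mem_coe, DD, mem_sigma, mem_filter, mem_range] at ht ht'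
    obtain ⟨hS, hq, hqp, hq9⟩ := ht
    obtain ⟨hS', hq', hqp', hq9'⟩ := ht'
    obtain ⟨h1, h2⟩ := mem_M1 hS
    obtain ⟨h1', h2'⟩ := mem_M1 hS'
    simp only at hq hqp hq9 hq' hqp' hq9' he h1 h1'
    have hq3 : q % 3 = 2 := by
      have : q % 252 = 29 ∨ q % 252 = 113 := by rw [hq9]; exact bb_or _
      omega
    have hq3' : q' % 3 = 2 := by
      have : q' % 252 = 29 ∨ q' % 252 = 113 := by rw [hq9']; exact bb_or _
      omega
    have hqq : q = q' := by
      have : q ∈ insert q' S' := by rw [← he]; exact mem_insert_self _ _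
      rw [mem_insert] at this
      rcases this with h | h
      · exact h
      · have := (h1' q h).2.1; omega
    subst hqq
    have hSS : S = S' := by
      have e1 : ∀ (T : Finset ℕ), (∀ p ∈ T, p % 12 = 1) →
          (insert q T).filter (fun p => p % 3 = 1) = T := by
        intro T hT
        ext p
        simp only [mem_filter, mem_insert]
        constructor
        · rintro ⟨rfl | h, h3⟩
          · omega
          · exact h
        · intro h; exact ⟨Or.inr h, by have := hT p h; omega⟩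
      rw [← e1 S fun p hp => (h1 p hp).2.1, he, e1 S' fun p hp => (h1' p hp).2.1]
    subst hSS
    rfl

theorem t_LOW (hM : S_MER) (hche : S_CHE) : S_LOW := by
  obtain ⟨C, hC⟩ := mert hM
  obtain ⟨c, Y₀, hc, hche⟩ := hche
  refine ⟨c / 2 * (1 / 2 * Real.exp (-C) / 4), (max 3 (Y₀ + 3)) ^ 2, by positivity, ?_⟩
  intro X hX
  obtain ⟨y, hy⟩ : ∃ y, y = Nat.sqrt X := ⟨_, rfl⟩
  have hyM : max 3 (Y₀ + 3) ≤ y := by
    rw [hy]
    rw [← Nat.sqrt_eq' (max 3 (Y₀ + 3))]
    exact Nat.sqrt_le_sqrt hX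
  have hy3 : 3 ≤ y := (le_max_left _ _).trans hyM
  have hyY : Y₀ + 3 ≤ y := (le_max_right _ _).trans hyM
  have hyX : y * y ≤ X := by rw [hy]; exact Nat.sqrt_le X
  have hXy : X < (y + 1) * (y + 1) := by rw [hy]; exact Nat.lt_succ_sqrt X
  have hyX1 : y ≤ X := le_trans (Nat.le_mul_of_pos_left y (by omega)) hyX
  have hX4 : X ≤ y ^ 4 := by
    have : (y + 1) * (y + 1) ≤ y ^ 4 := by
      have h1 : y + 1 ≤ y * y := by nlinarith
      calc (y + 1) * (y + 1) ≤ (y * y) * (y * y) := Nat.mul_le_mul h1 h1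
        _ = y ^ 4 := by ring
    omega
  have hy1 : (1 : ℝ) < y := by exact_mod_cast (show 1 < y by omega)
  have hX1 : (1 : ℝ) < X := by exact_mod_cast (show 1 < X by omega)
  have hlogy : 0 < Real.log y := Real.log_pos hy1
  have hlogX : 0 < Real.log X := Real.log_pos hX1
  have hlog4 : Real.log X ≤ 4 * Real.log y := by
    have : Real.log X ≤ Real.log ((y : ℝ) ^ 4) := by
      apply Real.log_le_log (by linarith)
      exact_mod_cast hX4
    rwa [Real.log_pow] at this
  -- the sum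
  have hsum : ∑ S ∈ M1 cls y, c / 2 * (X / Real.log X) * ((1 : ℝ) / ((∏ p ∈ S, p : ℕ) : ℝ)) ≤
      ((DD X y).card : ℝ) := by
    rw [DD, Finset.card_sigma, Nat.cast_sum]
    refine Finset.sum_le_sum fun S hS => ?_
    obtain ⟨h1, h2⟩ := mem_M1 hS
    obtain ⟨m, hm⟩ : ∃ m, m = ∏ p ∈ S, p := ⟨_, rfl⟩
    rw [← hm]
    rw [← hm] at h2
    have hm0 : 0 < m := by rw [hm]; exact Finset.prod_pos fun p hp => (h1 p hp).1.pos
    have hYy : y ≤ X / m := by
      rw [Nat.le_div_iff_mul_le hm0]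
      exact (Nat.mul_le_mul_left y h2).trans hyX
    have h3 := hche (X / m) (by omega) (bb m) (bb_cop m)
    rw [bb_mod] at h3
    refine le_trans ?_ h3
    have hYX : X / m ≤ X := Nat.div_le_self _ _
    have hY1 : (1 : ℝ) < ((X / m : ℕ) : ℝ) := by exact_mod_cast (show 1 < X / m by omega)
    have hlY : 0 < Real.log ((X / m : ℕ) : ℝ) := Real.log_pos hY1
    have hlYX : Real.log ((X / m : ℕ) : ℝ) ≤ Real.log X :=
      Real.log_le_log (by linarith) (by exact_mod_cast hYX)
    have hhalf : (X : ℝ) / (2 * m) ≤ ((X / m : ℕ) : ℝ) := by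
      have h4 : X < m * (X / m) + m := by
        have := Nat.div_add_mod X m
        have := Nat.mod_lt X hm0
        omega
      have h5 : (X : ℝ) < m * ((X / m : ℕ) : ℝ) + m := by exact_mod_cast h4
      have hm' : (0 : ℝ) < m := by exact_mod_cast hm0
      rw [div_le_iff₀ (by positivity)]
      nlinarith
    calc c / 2 * (X / Real.log X) * ((1 : ℝ) / (m : ℝ)) = c * ((X : ℝ) / (2 * m)) / Real.log X := by
          have hm' : (m : ℝ) ≠ 0 := by exact_mod_cast hm0.ne'
          field_simp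
      _ ≤ c * ((X / m : ℕ) : ℝ) / Real.log X := by
          apply div_le_div_of_nonneg_right _ hlogX.le
          exact mul_le_mul_of_nonneg_left hhalf hc.le
      _ ≤ c * ((X / m : ℕ) : ℝ) / Real.log ((X / m : ℕ) : ℝ) := by
          apply div_le_div_of_nonneg_left (by positivity) hlY hlYX
  rw [← Finset.mul_sum] at hsum
  have hG := G1_lower cls (3 / 4) C y hy3 (hC y hy3)
  have hdl : (1 : ℝ) - 3 / 4 = 1 / 4 := by norm_num
  rw [hdl] at hG
  have hcard : ((DD X y).card : ℝ) ≤ ((SS X).card : ℝ) := by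
    exact_mod_cast card_DD_le X y hyX1
  refine le_trans ?_ (hsum.trans hcard)
  have h6 : 0 ≤ c / 2 * (X / Real.log X) := by positivity
  refine le_trans ?_ (mul_le_mul_of_nonneg_left hG h6)
  -- the power of the logarithm
  have h7 : (Real.log X) ^ (1 / 4 : ℝ) ≤ 4 * (Real.log y) ^ (1 / 4 : ℝ) := by
    have h8 : (Real.log X) ^ (1 / 4 : ℝ) ≤ (4 * Real.log y) ^ (1 / 4 : ℝ) :=
      Real.rpow_le_rpow hlogX.le hlog4 (by norm_num)
    rw [Real.mul_rpow (by norm_num) hlogy.le] at h8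
    have h9 : (4 : ℝ) ^ (1 / 4 : ℝ) ≤ 4 := by
      calc (4 : ℝ) ^ (1 / 4 : ℝ) ≤ 4 ^ (1 : ℝ) :=
            Real.rpow_le_rpow_of_exponent_le (by norm_num) (by norm_num)
        _ = 4 := Real.rpow_one _
    exact h8.trans (mul_le_mul_of_nonneg_right h9 (by positivity))
  have h10 : (Real.log X) ^ (-(3 / 4) : ℝ) = (Real.log X) ^ (1 / 4 : ℝ) / Real.log X := by
    rw [eq_div_iff hlogX.ne']
    nth_rewrite 2 [← Real.rpow_one (Real.log X)]
    rw [← Real.rpow_add hlogX]
    norm_num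
  rw [h10]
  have hee : 0 < Real.exp (-C) := Real.exp_pos _
  calc c / 2 * (1 / 2 * Real.exp (-C) / 4) * X * ((Real.log X) ^ (1 / 4 : ℝ) / Real.log X)
      = c / 2 * (X / Real.log X) * (1 / 2 * Real.exp (-C) / 4 * (Real.log X) ^ (1 / 4 : ℝ)) := by
        ring
    _ ≤ c / 2 * (X / Real.log X) *
        (1 / 2 * Real.exp (-C) / 4 * (4 * (Real.log y) ^ (1 / 4 : ℝ))) := by
        apply mul_le_mul_of_nonneg_left _ h6
        apply mul_le_mul_of_nonneg_left h7 (by positivity)
    _ = c / 2 * (X / Real.log X) * (1 / 2 * Real.exp (-C) * (Real.log y) ^ (1 / 4 : ℝ)) := by ring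

end Pool.Agent.L0h2.J.LOW
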