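import Pool.Agent.L0h2.J.Stm
import Pool.Agent.Y405.CQ.MER
import Pool.Agent.TH423.SH.PAIP

/-!
# Project J: Mertens' theorem modulo `252`; many primes in the classes modulo `252`
-/

set_option autoImplicit false

open Finset Filter

namespace Pool.Agent.L0h2.J.MER

lemma tot252 : Nat.totient 252 = 72 := by decide +kernel

theorem t_MER : Pool.Agent.L0h2.J.S_MER := by
  intro a ha
  have ha' : (a % 252).Coprime 252 := by
    rw [Nat.coprime_iff_gcd_eq_one, ← Nat.gcd_rec, Nat.gcd_comm]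
    exact ha
  obtain ⟨C, -, hC⟩ := Pool.Agent.Y405.CQ.mertens_ap 252 (by norm_num) (a % 252)
    (Nat.mod_lt _ (by norm_num)) ha'
  refine ⟨C, fun y hy => ?_⟩
  have h1 := hC y hy
  rw [tot252] at h1
  have h3 : (range (y + 1)).filter (fun p => p.Prime ∧ p % 252 = a % 252) =
      (Icc 1 y).filter (fun p => p.Prime ∧ p % 252 = a % 252) := by
    ext p
    rw [mem_filter, mem_filter, mem_range, mem_Icc]
    constructor
    · rintro ⟨g1, g2, g3⟩
      exact ⟨⟨g2.one_lt.le, by omega⟩, g2, g3⟩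
    · rintro ⟨⟨g0, g1⟩, g2, g3⟩
      exact ⟨by omega, g2, g3⟩
  rw [h3]
  exact_mod_cast h1

theorem che_main : ∃ (c : ℝ) (Y₀ : ℕ), 0 < c ∧ ∀ Y : ℕ, Y₀ ≤ Y → ∀ a : ℕ, Nat.Coprime a 252 →
    c * Y / Real.log Y ≤
      (((range (Y + 1)).filter fun p => p.Prime ∧ p % 252 = a % 252).card : ℝ) := by
  obtain ⟨x₀, hx₀⟩ := Pool.Agent.TH423.SH.pai 252 (by norm_num) (1 / 2) (1 / 4) (by norm_num)
    (by norm_num)
  refine ⟨1 / 576, max 4 ⌈x₀⌉₊, by norm_num, ?_⟩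
  intro Y hY a hco
  have hY4 : 4 ≤ Y := le_trans (le_max_left _ _) hY
  have hYx : x₀ ≤ (Y : ℝ) := (Nat.le_ceil x₀).trans (by exact_mod_cast (le_max_right _ _).trans hY)
  have hY4' : (4 : ℝ) ≤ Y := by exact_mod_cast hY4
  have hdiv1 : ((Y / 2 : ℕ) : ℝ) ≤ (Y : ℝ) / 2 := Nat.cast_div_le
  have hdiv2 : (Y : ℝ) / 2 ≤ ((Y / 2 + 1 : ℕ) : ℝ) := by
    have : Y < 2 * (Y / 2 + 1) := by omega
    have : (Y : ℝ) < 2 * ((Y / 2 + 1 : ℕ) : ℝ) := by exact_mod_cast this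
    linarith
  have hlog : 0 < Real.log Y := Real.log_pos (by linarith)
  have h := hx₀ Y hYx (Y / 2 + 1) Y a hdiv2 (by linarith)
    (by push_cast; linarith) hco
  rw [tot252] at h
  have h1 := (abs_le.mp h).1
  have hsub : (Ioc (Y / 2 + 1) Y).filter (fun q => q.Prime ∧ q % 252 = a % 252) ⊆
      (range (Y + 1)).filter fun p => p.Prime ∧ p % 252 = a % 252 := by
    intro q hq
    rw [mem_filter, mem_Ioc] at hq
    rw [mem_filter, mem_range]
    exact ⟨by omega, hq.2⟩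
  have hcard : (((Ioc (Y / 2 + 1) Y).filter (fun q => q.Prime ∧ q % 252 = a % 252)).card : ℝ) ≤
      (((range (Y + 1)).filter fun p => p.Prime ∧ p % 252 = a % 252).card : ℝ) := by
    exact_mod_cast Finset.card_le_card hsub
  refine le_trans ?_ hcard
  have h2 : (1 / 2 : ℝ) * (((Y : ℝ) - ((Y / 2 + 1 : ℕ) : ℝ)) / ((72 : ℕ) * Real.log Y)) ≤
      (((Ioc (Y / 2 + 1) Y).filter (fun q => q.Prime ∧ q % 252 = a % 252)).card : ℝ) := by
    linarith
  refine le_trans ?_ h2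
  have h3 : (Y : ℝ) / 4 ≤ (Y : ℝ) - ((Y / 2 + 1 : ℕ) : ℝ) := by push_cast; linarith
  have h4 : (Y : ℝ) / 4 / ((72 : ℕ) * Real.log Y) ≤
      ((Y : ℝ) - ((Y / 2 + 1 : ℕ) : ℝ)) / ((72 : ℕ) * Real.log Y) := by
    apply div_le_div_of_nonneg_right h3
    positivity
  calc (1 / 576 : ℝ) * Y / Real.log Y = 1 / 2 * ((Y : ℝ) / 4 / ((72 : ℕ) * Real.log Y)) := by
        push_cast; field_simp; ring
    _ ≤ _ := by linarith

theorem t_CHE : Pool.Agent.L0h2.J.S_CHE := che_main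

end Pool.Agent.L0h2.J.MER
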