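import Pool.Agent.L0h2.J.Asy
import Pool.Agent.L0h2.J.BIL
import Pool.Agent.L0h2.J.EQ
import Pool.Agent.L0h2.J.BOX
import Pool.Agent.L0h2.J.KEY
import Pool.Agent.L0h2.J.HAL3
import Pool.Agent.L0h2.J.HAL2
import Pool.Agent.L0h2.J.FEW
import Pool.Agent.L0h2.J.MER
import Pool.Agent.L0h2.J.LOW
import Pool.Agent.Y703.CX.Fin
import Pool.Agent.R413.SQ.Fin

/-!
# Project J: the four proportions
-/

set_option autoImplicit false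

namespace Pool.Agent.L0h2.J

theorem t_DQ_all : S_DQ :=
  t_DQ Pool.Agent.Y333.CX.t_LAM KEY.t_KEY Pool.Agent.Y261.CX.t_BIL1 Pool.Agent.Y779.CX.t_BIL2
    Pool.Agent.R413.SQ.BIL.t_BIL BIL.t_BA BIL.t_BB EQ.t_EQ
    (Pool.Agent.Y759.CX.t_LA Pool.Agent.Y461.CX.t_C3)
    (Pool.Agent.Y219.CQ.t_LA Pool.Agent.Y839.CQ.t_SYM Pool.Agent.Y948.CQ.t_C2)
    BOX.t_BOX t_CNT
    (t_BAD Pool.Agent.Y333.CX.t_LAM Pool.Agent.Y488.CX.t_SIE HAL3.t_HA HAL2.t_HQ MER.t_MER)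
    (FEW.t_FEW Pool.Agent.Y488.CX.t_SIE MER.t_MER) (LOW.t_LOW MER.t_MER MER.t_CHE)
    Pool.Agent.Y461.CX.t_C3 Pool.Agent.Y948.CQ.t_C2

end Pool.Agent.L0h2.J
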