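import Pool.Agent.L0h2.J.Fin

/-!
# Project J: translation between the numbers `D` and the sets of primes
-/

set_option autoImplicit false

open scoped Classical

namespace Pool.Agent.L0h2.J

open Finset

theorem card_eq (X : ℕ) (Q : Finset ℕ → Prop) :
    ((Icc 1 X).filter fun D => Squarefree D ∧ Cl D.primeFactors ∧ Q D.primeFactors).card =
      ((SS X).filter Q).card := by
  refine Finset.card_bij (fun D _ => D.primeFactors) ?_ ?_ ?_
  · intro D hD
    obtain ⟨h1, h2, hcl, h4⟩ := Finset.mem_filter.1 hD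
    obtain ⟨h5, h6⟩ := Finset.mem_Icc.1 h1
    refine Finset.mem_filter.2 ⟨Finset.mem_filter.2 ⟨?_, hcl, ?_⟩, h4⟩
    · rw [Finset.mem_powerset]
      intro p hp
      have := Nat.le_of_dvd (by omega) (Nat.dvd_of_mem_primeFactors hp)
      exact Finset.mem_range.2 (by omega)
    · rw [Nat.prod_primeFactors_of_squarefree h2]
      exact h6
  · intro D hD E hE h
    have h2 := (Finset.mem_filter.1 hD).2.1
    have h3 := (Finset.mem_filter.1 hE).2.1
    have h' : D.primeFactors = E.primeFactors := h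
    rw [← Nat.prod_primeFactors_of_squarefree h2, ← Nat.prod_primeFactors_of_squarefree h3, h']
  · intro S hS
    obtain ⟨h1, h2⟩ := Finset.mem_filter.1 hS
    obtain ⟨h3, h4, h5⟩ := Finset.mem_filter.1 h1
    have hpr : ∀ p ∈ S, p.Prime := fun p hp => (h4.1 p hp).1
    have hpf : (∏ p ∈ S, p).primeFactors = S := Nat.primeFactors_prod hpr
    have hsq : Squarefree (∏ p ∈ S, p) := by
      refine Finset.squarefree_prod_of_pairwise_isCoprime (fun p hp q hq hpq => ?_)
        fun p hp => (hpr p hp).squarefree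
      show IsRelPrime p q
      rw [← Nat.coprime_iff_isRelPrime]
      exact (Nat.coprime_primes (hpr p hp) (hpr q hq)).mpr hpq
    refine ⟨∏ p ∈ S, p, ?_, hpf⟩
    have hcl : Cl (∏ p ∈ S, p).primeFactors := by rw [hpf]; exact h4
    refine Finset.mem_filter.2 ⟨Finset.mem_Icc.2 ⟨?_, h5⟩, hsq, hcl, ?_⟩
    · exact Nat.one_le_iff_ne_zero.2 hsq.ne_zero
    · rw [hpf]
      exact h2

theorem card_all (X : ℕ) :
    ((Icc 1 X).filter fun D => Squarefree D ∧ Cl D.primeFactors).card = (SS X).card := by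
  have e2 := card_eq X (fun _ => True)
  rw [Finset.filter_true] at e2
  simp only [and_true] at e2
  exact e2

/-- the number of the `D ≤ X` of the class with a property -/
noncomputable def num (Q : ℕ → Prop) (X : ℕ) : ℕ :=
  ((Icc 1 X).filter fun D => (Squarefree D ∧ Cl D.primeFactors) ∧ Q D).card

theorem num_eq {Q : ℕ → Prop} {R : Finset ℕ → Prop}
    (h : ∀ D, Squarefree D → Cl D.primeFactors → (Q D ↔ R D.primeFactors)) (X : ℕ) :
    num Q X = ((SS X).filter R).card := by
  rw [← card_eq]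
  unfold num
  refine congrArg Finset.card (Finset.ext fun D => ?_)
  rw [Finset.mem_filter, Finset.mem_filter, and_assoc]
  refine and_congr_right fun _ => and_congr_right fun h1 => and_congr_right fun h2 => h D h1 h2

/-- the four proportions -/
theorem law {Q : ℕ → Prop} (f : ℕ → ZMod 2) (b : Bool × Bool)
    (h : ∀ D, Squarefree D → Cl D.primeFactors → (Q D ↔ Gd f b D.primeFactors)) :
    Filter.Tendsto (fun X : ℕ => (num Q X : ℝ) / (num (fun _ => True) X : ℝ)) Filter.atTop
      (nhds (cc b)) := by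
  have h1 := t_DQ_all f b
  refine h1.congr fun X => ?_
  rw [num_eq h, num_eq (Q := fun _ => True) (R := fun _ => True) (fun _ _ _ => Iff.rfl),
    Finset.filter_true]

/-- many `D` -/
theorem low_of {Q : ℕ → Prop} {c : ℝ} (hc : 0 < c) (h : Filter.Tendsto
    (fun X : ℕ => (num Q X : ℝ) / (num (fun _ => True) X : ℝ)) Filter.atTop (nhds c)) :
    ∃ (a : ℝ) (X₀ : ℕ), 0 < a ∧ ∀ X : ℕ, X₀ ≤ X →
      a * X * (Real.log X) ^ (-(3 / 4) : ℝ) ≤ (num Q X : ℝ) := by
  obtain ⟨a, X₀, ha, hlow⟩ := LOW.t_LOW MER.t_MER MER.t_CHE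
  have h1 : ∀ᶠ X : ℕ in Filter.atTop, c / 2 < (num Q X : ℝ) / (num (fun _ => True) X : ℝ) :=
    h.eventually (lt_mem_nhds (by linarith))
  obtain ⟨X₁, hX₁⟩ := Filter.eventually_atTop.1 h1
  refine ⟨c / 2 * a, max X₀ (max X₁ 3), by positivity, fun X hX => ?_⟩
  have h2 := hX₁ X (((le_max_left _ _).trans (le_max_right _ _)).trans hX)
  have h3 := hlow X ((le_max_left _ _).trans hX)
  have hX3 : 3 ≤ X := ((le_max_right _ _).trans (le_max_right _ _)).trans hX
  have e1 : num (fun _ => True) X = (SS X).card := by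
    rw [num_eq (Q := fun _ => True) (R := fun _ => True) (fun _ _ _ => Iff.rfl),
      Finset.filter_true]
  rw [e1] at h2
  have hl : 0 < Real.log X := Real.log_pos (by exact_mod_cast (by omega : 1 < X))
  have hpos : 0 < a * X * (Real.log X) ^ (-(3 / 4) : ℝ) := by
    have : (0 : ℝ) < X := by exact_mod_cast (by omega : 0 < X)
    have := Real.rpow_pos_of_pos hl (-(3 / 4) : ℝ)
    positivity
  have h4 : (0 : ℝ) < ((SS X).card : ℝ) := lt_of_lt_of_le hpos h3
  rw [lt_div_iff₀ h4] at h2
  calc c / 2 * a * X * (Real.log X) ^ (-(3 / 4) : ℝ) =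
        c / 2 * (a * X * (Real.log X) ^ (-(3 / 4) : ℝ)) := by ring
    _ ≤ c / 2 * ((SS X).card : ℝ) := mul_le_mul_of_nonneg_left h3 (by linarith)
    _ ≤ _ := h2.le

end Pool.Agent.L0h2.J
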