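import Mathlib
import Pool.Agent.Y703.CX.Stm
import Pool.Agent.R413.SQ.Stm

/-!
# Project J (helper2): cubic and quadratic residue symbols between the prime factors, jointly

`D` runs over the squarefree numbers all of whose prime factors are `1` modulo `4`, with exactly one
prime factor `≡ 2` modulo `3`, not `±1` modulo `9`. The event `D` does not split (cubic symbols,
`Pool.Agent.Y703.CX.Gd`) and the event the matrix of the quadratic symbols indexed by the prime factors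
split in `ℚ(√-7)` is nonsingular (`Pool.Agent.R413.SQ.Gd`) are asymptotically independent.
Statements of the parts, after projects CX (helper703) and SQ (helper413).
-/

set_option autoImplicit false
set_option linter.unusedVariables false

open scoped Classical

namespace Pool.Agent.L0h2.J

open Finset
open Pool.Agent.Y699.E (ez)
open Pool.Agent.Y703.CX (lam LamP sm la jj XX eL zz kk S_SIE c3)
open Pool.Agent.Y703.CQ (nr sg c2)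
open Pool.Agent.R413.SQ renaming mk → mk7

/-- the class of the sets of primes -/
def Cl (S : Finset ℕ) : Prop :=
  (∀ p ∈ S, p.Prime ∧ p % 4 = 1) ∧ (S.filter fun p => p % 3 = 2).card = 1 ∧
    (∏ p ∈ S, p) % 9 ≠ 1 ∧ (∏ p ∈ S, p) % 9 ≠ 8

/-- the sets of the class with product at most `X` -/
noncomputable def SS (X : ℕ) : Finset (Finset ℕ) :=
  (range (X + 1)).powerset.filter fun S => Cl S ∧ ∏ p ∈ S, p ≤ X

/-- an event or its complement -/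
def ev (b : Bool) (P : Prop) : Prop := b = true ↔ P

/-- the probability of an event or of its complement -/
def cv (b : Bool) (c : ℝ) : ℝ := if b = true then c else 1 - c

/-- the four events -/
def Gd (f : ℕ → ZMod 2) (b : Bool × Bool) (S : Finset ℕ) : Prop :=
  ev b.1 (Pool.Agent.Y703.CX.Gd S) ∧ ev b.2 (Pool.Agent.R413.SQ.Gd f S)

/-- the limit -/
noncomputable def cc (b : Bool × Bool) : ℝ := cv b.1 c3 * cv b.2 c2

/-- FINAL: the proportion of the sets with one of the four events -/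
def S_DQ : Prop := ∀ (f : ℕ → ZMod 2) (b : Bool × Bool), Filter.Tendsto
  (fun X : ℕ => (((SS X).filter (Gd f b)).card : ℝ) / ((SS X).card : ℝ)) Filter.atTop (nhds (cc b))

/-- J-BA: bilinear sums of products of a cubic and a quadratic symbol, two primes `≡ 1`. -/
def S_BA : Prop := LamP → ∃ C : ℝ, 1 ≤ C ∧ ∀ (P Q : Finset ℕ) (A B z : ℕ) (c d : ℕ → ℂ) (a b : ZMod 3),
  (∀ p ∈ P, (p.Prime ∧ p % 4 = 1) ∧ p % 3 = 1 ∧ p ≤ A) →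
  (∀ q ∈ Q, (q.Prime ∧ q % 4 = 1) ∧ q % 3 = 1 ∧ q ≤ B) →
  Disjoint P Q → (a ≠ 0 ∨ b ≠ 0) → 1 ≤ z → z ≤ A → z ≤ B →
  (∀ p, ‖c p‖ ≤ 1) → (∀ q, ‖d q‖ ≤ 1) →
  ‖∑ p ∈ P, ∑ q ∈ Q, c p * d q * (ez (a * lam p q + b * lam q p) * sg (nr p q))‖ ^ 12 * z ≤
    C * ((A : ℝ) * B) ^ 12

/-- J-BB: bilinear sums of products of a cubic and a quadratic symbol, a prime `≡ 1` and a prime
`≡ 2`. -/
def S_BB : Prop := LamP → ∃ C : ℝ, 1 ≤ C ∧ ∀ (P Q : Finset ℕ) (A B z : ℕ) (c d : ℕ → ℂ) (a : ZMod 3),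
  (∀ p ∈ P, (p.Prime ∧ p % 4 = 1) ∧ p % 3 = 1 ∧ p ≤ A) →
  (∀ q ∈ Q, (q.Prime ∧ q % 4 = 1) ∧ q % 3 = 2 ∧ q ≤ B) →
  a ≠ 0 → 1 ≤ z → z ≤ A → z ≤ B → (∀ p, ‖c p‖ ≤ 1) → (∀ q, ‖d q‖ ≤ 1) →
  ‖∑ p ∈ P, ∑ q ∈ Q, c p * d q * (ez (a * lam p q) * sg (nr p q))‖ ^ 12 * z ≤
    C * ((A : ℝ) * B) ^ 12

/-- the bilinear hypothesis for a box -/
def HB {ι : Type} (J3 : Finset ι) (C : ι → Finset ℕ) (X : ι → ℕ) (κ : ℝ) : Prop :=
  ∀ i l : ι, i ≠ l → ∀ (a b : ZMod 3) (e : ZMod 2) (c d : ℕ → ℂ), (a ≠ 0 ∨ b ≠ 0 ∨ e ≠ 0) →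
    (i ∉ J3 → a = 0) → (l ∉ J3 → b = 0) → (∀ p, ‖c p‖ ≤ 1) → (∀ q, ‖d q‖ ≤ 1) →
    ‖∑ x ∈ C i, ∑ y ∈ C l, c x * d y * (ez (a * lam x y + b * lam y x) * sg (e * nr x y))‖ ≤
      κ * (X i * X l)

/-- J-EQ: equidistribution of the symbols of a tuple. -/
def S_EQ : Prop := ∀ (ι : Type) [Fintype ι] [LinearOrder ι] (J3 J2 : Finset ι) (C : ι → Finset ℕ)
  (X : ι → ℕ) (κ : ℝ), 0 ≤ κ → (∀ i, (C i).card ≤ X i) → HB J3 C X κ →
  (∀ i l, i ≠ l → ∀ x ∈ C i, ∀ y ∈ C l, nr y x = nr x y) →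
  ∀ (Q : (Pool.Agent.Y703.CX.prs J3 → ZMod 3) → Prop) (R : (Pool.Agent.Y703.CQ.prs J2 → ZMod 2) → Prop),
    |(((Fintype.piFinset C).filter fun p => Q (fun e => lam (p e.1.1) (p e.1.2)) ∧
        R fun e => nr (p e.1.1) (p e.1.2)).card : ℝ) -
      ((univ.filter Q).card : ℝ) / 3 ^ (Pool.Agent.Y703.CX.prs J3).card *
        (((univ.filter R).card : ℝ) / 2 ^ (Pool.Agent.Y703.CQ.prs J2).card) * ∏ j, ((C j).card : ℝ)| ≤
    3 ^ (Pool.Agent.Y703.CX.prs J3).card * 2 ^ (Pool.Agent.Y703.CQ.prs J2).card * (κ * ∏ j, (X j : ℝ))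

/-- both labels are not degenerate -/
def Nd (S₀ S₁ : Finset ℕ) : Prop := Pool.Agent.Y703.CX.Nd S₀ S₁ ∧ Pool.Agent.R413.SQ.Nd S₀ S₁

/-- J-BOX: the count in a box. -/
def S_BOX : Prop := S_EQ → Pool.Agent.Y703.CX.S_LA → Pool.Agent.Y703.CQ.S_LA →
  ∀ (f : ℕ → ZMod 2) (b : Bool × Bool) (ι : Type) [Fintype ι] [LinearOrder ι] (J3 J2 : Finset ι)
  (C : ι → Finset ℕ) (X : ι → ℕ) (κ : ℝ) (S₀ : Finset ℕ), 0 ≤ κ → (∀ i, (C i).card ≤ X i) →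
  HB J3 C X κ → (∀ u ∈ S₀, u.Prime ∧ u % 4 = 1) →
  (∀ i, ∀ p ∈ C i, (p.Prime ∧ p % 4 = 1) ∧ p ∉ S₀ ∧ (i ∈ J3 → p % 3 = 1) ∧ (i ∉ J3 → p % 3 = 2) ∧
    (i ∈ J2 ↔ mk7 p = 1)) →
  (∀ i l, i ≠ l → Disjoint (C i) (C l)) → J3.Nonempty → (∃ i, i ∉ J2) →
  (S₀.filter fun p => p % 3 = 2).card + J3ᶜ.card = 1 →
  |(((Fintype.piFinset C).filter fun p => Nd S₀ (univ.image p) ∧ Gd f b (S₀ ∪ univ.image p)).card : ℝ) -
      cc b * (((Fintype.piFinset C).filter fun p => Nd S₀ (univ.image p)).card : ℝ)| ≤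
    (2 * (3 ^ S₀.card / 3 ^ J3.card) + 2 * (4 ^ S₀.card / 2 ^ J2.card)) *
      (((Fintype.piFinset C).filter fun p => Nd S₀ (univ.image p)).card : ℝ) +
    3 ^ (2 * S₀.card * Fintype.card ι + (Pool.Agent.Y703.CX.prs J3).card) *
      2 ^ ((2 * S₀.card + 1) * Fintype.card ι + (Pool.Agent.Y703.CQ.prs J2).card) *
      (κ * ∏ j, (X j : ℝ))

/-- the regular sets -/
noncomputable def RR (X z H K V : ℕ) : Finset (Finset ℕ) :=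
  (SS X).filter fun S => Set.InjOn (jj H) (la z S : Set ℕ) ∧ S.card ≤ K ∧
    (∏ p ∈ sm z S, p) * ∏ p ∈ la z S, XX H (jj H p) ≤ X ∧
    (sm z S).card + V < ((la z S).filter fun p => p % 3 = 1).card ∧
    2 * (sm z S).card + V < ((la z S).filter fun p => mk7 p = 1).card ∧
    ∃ p ∈ la z S, mk7 p ≠ 1

/-- J-KEY: the sum over the boxes. -/
def S_KEY : Prop := LamP → Pool.Agent.Y703.CX.S_BIL1 → Pool.Agent.Y703.CX.S_BIL2 →
  Pool.Agent.R413.SQ.S_BIL → S_BA → S_BB → S_EQ → Pool.Agent.Y703.CX.S_LA → Pool.Agent.Y703.CQ.S_LA →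
  S_BOX → ∃ C : ℝ, 1 ≤ C ∧
  ∀ (f : ℕ → ZMod 2) (b : Bool × Bool) (X z H K V N : ℕ) (κ : ℝ), 1 ≤ X → 1 ≤ H → 1 ≤ z → 0 ≤ κ →
  C ≤ κ ^ 12 * z → (H : ℝ) * Real.log X < N →
  |(((RR X z H K V).filter fun S => Nd (sm z S) (la z S) ∧ Gd f b S).card : ℝ) -
      cc b * (((RR X z H K V).filter fun S => Nd (sm z S) (la z S)).card : ℝ)| ≤
    4 * (1 / 2 : ℝ) ^ V * ((RR X z H K V).card : ℝ) +
    (252 * N + 252 : ℝ) ^ K * (3 ^ (8 * K ^ 2) * κ) * (X * (1 + Real.log X))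

/-- J-HA: the logarithmic density for a nontrivial cubic character. -/
def S_HA : Prop := LamP → ∃ C : ℝ, 1 ≤ C ∧ ∀ (A B : Pool.Agent.Y692.QS.Ei) (T : ℕ),
  Pool.Agent.Y699.E.PS A → Pool.Agent.Y699.E.PS B → A ≠ B → 2 ≤ T →
  ∑ S ∈ Pool.Agent.Y703.CX.HD A B T, (1 : ℝ) / ((∏ p ∈ S, p : ℕ) : ℝ) ≤
    C * (Pool.Agent.Y699.E.lg (Pool.Agent.Y699.E.nrm A * Pool.Agent.Y699.E.nrm B)) ^ (1 / 3 : ℝ) *
      (Real.log T) ^ (1 / 6 : ℝ)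

/-- the sets of split primes `≡ 1` modulo `3` on which the product of the primes in `W` is a square -/
noncomputable def HD2 (W : Finset ℕ) (T : ℕ) : Finset (Finset ℕ) :=
  (range (T + 1)).powerset.filter fun S => (∀ p ∈ S, Pool.Agent.R413.SQ.Sp p ∧ p % 3 = 1 ∧ p ∉ W ∧
    ∑ u ∈ W, nr p u = 0) ∧ ∏ p ∈ S, p ≤ T

/-- J-HQ: the logarithmic density for a nontrivial quadratic character. -/
def S_HQ : Prop := ∃ C : ℝ, 1 ≤ C ∧ ∀ (W : Finset ℕ) (T : ℕ), W.Nonempty →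
  (∀ u ∈ W, u.Prime ∧ u % 4 = 1) → 2 ≤ T →
  ∑ S ∈ HD2 W T, (1 : ℝ) / ((∏ p ∈ S, p : ℕ) : ℝ) ≤
    C * (Real.log ((∏ u ∈ W, u : ℕ) : ℝ)) ^ (1 / 2 : ℝ) * (Real.log T) ^ (1 / 16 : ℝ)

/-- J-MER: Mertens' theorem modulo `252`. -/
def S_MER : Prop := ∀ a : ℕ, Nat.Coprime a 252 → ∃ C : ℝ, ∀ y : ℕ, 3 ≤ y →
  |∑ p ∈ (range (y + 1)).filter (fun p => p.Prime ∧ p % 252 = a % 252), (1 : ℝ) / p -
    1 / 72 * Real.log (Real.log y)| ≤ C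

/-- J-CHE: many primes in the classes modulo `252`. -/
def S_CHE : Prop := ∃ (c : ℝ) (Y₀ : ℕ), 0 < c ∧ ∀ Y : ℕ, Y₀ ≤ Y → ∀ a : ℕ, Nat.Coprime a 252 →
  c * Y / Real.log Y ≤ (((range (Y + 1)).filter fun p => p.Prime ∧ p % 252 = a % 252).card : ℝ)

/-- J-BAD: few sets have degenerate labels. -/
def S_BAD : Prop := ∃ (C : ℝ) (X₀ : ℕ), ∀ X : ℕ, X₀ ≤ X →
  (((SS X).filter fun S => S.card ≤ kk X ∧ ¬ Nd (sm (zz X) S) (la (zz X) S)).card : ℝ) ≤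
    C * X * (Real.log X) ^ (-(19 / 25) : ℝ)

/-- J-FEW: few sets have few large primes of one of the kinds. -/
def S_FEW : Prop := ∀ V : ℕ, ∃ (C : ℝ) (X₀ : ℕ), ∀ X : ℕ, X₀ ≤ X →
  (((SS X).filter fun S => ((la (zz X) S).filter fun p => p % 3 = 1).card ≤ (sm (zz X) S).card + V ∨
      ((la (zz X) S).filter fun p => mk7 p = 1).card ≤ 2 * (sm (zz X) S).card + V ∨
      ∀ p ∈ la (zz X) S, mk7 p = 1).card : ℝ) ≤
    C * X * (Real.log X) ^ (-(19 / 25) : ℝ)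

/-- J-LOW: the lower bound for the size of the class. -/
def S_LOW : Prop := ∃ (c : ℝ) (X₀ : ℕ), 0 < c ∧ ∀ X : ℕ, X₀ ≤ X →
  c * X * (Real.log X) ^ (-(3 / 4) : ℝ) ≤ ((SS X).card : ℝ)

end Pool.Agent.L0h2.J
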